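import Pool.Agent.J4.H79.GW.Tau

set_option autoImplicit false
set_option linter.unusedSectionVars false

/-!
# Weighted graphs: generalised codegrees
-/

namespace Pool.Agent.J4.H79.GW

open Finset

variable {V : Type} [Fintype V] [DecidableEq V] {G : SimpleGraph V} {μ : V → ℝ} {D : ℝ}

open Classical in
/-- equal or adjacent -/
noncomputable def cl (G : SimpleGraph V) (x w : V) : ℝ := if x = w ∨ G.Adj x w then 1 else 0

theorem cl_nonneg (x w : V) : 0 ≤ cl G x w := by
  unfold cl
  split_ifs <;> norm_num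

theorem cl_comm (x w : V) : cl G x w = cl G w x := by
  unfold cl
  have h1 : (x = w ∨ G.Adj x w) ↔ (w = x ∨ G.Adj w x) := by
    rw [@eq_comm _ x w, G.adj_comm]
  by_cases h : x = w ∨ G.Adj x w
  · rw [if_pos h, if_pos (h1.1 h)]
  · rw [if_neg h, if_neg (fun h' => h (h1.2 h'))]

/-- generalised codegree -/
noncomputable def M (G : SimpleGraph V) (μ : V → ℝ) (D : ℝ) (j i : ℕ) (s p : V) : ℝ :=
  ∑ x, ∑ w, (P G μ D ^ j) s x * (P G μ D ^ i) p w * cl G x w

theorem M_nonneg (hμ : ∀ v, 0 ≤ μ v) (hD : 0 < D) (j i : ℕ) (s p : V) : 0 ≤ M G μ D j i s p :=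
  Finset.sum_nonneg fun x _ => Finset.sum_nonneg fun w _ =>
    mul_nonneg (mul_nonneg (Pn_nonneg hμ hD j s x) (Pn_nonneg hμ hD i p w)) (cl_nonneg x w)

theorem M_comm (j i : ℕ) (s p : V) : M G μ D j i s p = M G μ D i j p s := by
  unfold M
  rw [Finset.sum_comm]
  apply Finset.sum_congr rfl
  intro w _
  apply Finset.sum_congr rfl
  intro x _
  rw [cl_comm]
  ring

theorem M_zero (s w : V) : M G μ D 0 0 s w = cl G s w := by
  unfold M
  rw [Finset.sum_eq_single s]
  · rw [Finset.sum_eq_single w]
    · rw [Pn_zero, Pn_zero, if_pos rfl, if_pos rfl]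
      ring
    · intro y _ hy
      rw [Pn_zero, Pn_zero, if_pos rfl, if_neg (fun h => hy h.symm)]
      ring
    · intro h
      exact absurd (Finset.mem_univ _) h
  · intro y _ hy
    apply Finset.sum_eq_zero
    intro x _
    rw [Pn_zero, if_neg (fun h => hy h.symm)]
    ring
  · intro h
    exact absurd (Finset.mem_univ _) h

theorem M_avg (j i : ℕ) (s p : V) :
    ∑ w, P G μ D p w * M G μ D j i s w = M G μ D j (i + 1) s p := by
  unfold M
  have h1 : ∀ w, P G μ D p w * ∑ x, ∑ y, (P G μ D ^ j) s x * (P G μ D ^ i) w y * cl G x y =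
      ∑ x, ∑ y, (P G μ D ^ j) s x * (P G μ D p w * (P G μ D ^ i) w y) * cl G x y := by
    intro w
    rw [Finset.mul_sum]
    apply Finset.sum_congr rfl
    intro x _
    rw [Finset.mul_sum]
    apply Finset.sum_congr rfl
    intro y _
    ring
  rw [Finset.sum_congr rfl (fun w _ => h1 w), Finset.sum_comm]
  apply Finset.sum_congr rfl
  intro x _
  rw [Finset.sum_comm]
  apply Finset.sum_congr rfl
  intro y _
  rw [Pn_succ', Finset.mul_sum, Finset.sum_mul]

/-- weighted trace of the powers -/
noncomputable def tau (G : SimpleGraph V) (μ : V → ℝ) (D : ℝ) (n : ℕ) : ℝ := ∑ v, t G μ D n v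

open Classical in
theorem closing (hμ : ∀ v, 0 ≤ μ v) (hD : 0 < D) (n : ℕ) :
    ∑ x, ∑ w, μ x * (P G μ D ^ n) x w * (if G.Adj x w then 1 else 0) ≤
      2 * D * tau G μ D (n + 1) := by
  have h1 : ∀ x w, μ x * (P G μ D ^ n) x w * (if G.Adj x w then 1 else 0) ≤
      D * (μ w * ((P G μ D ^ n) w x * P G μ D x w)) +
      D * (μ x * ((P G μ D ^ n) x w * P G μ D w x)) := by
    intro x w
    have hn1 := Pn_nonneg (G := G) hμ hD n x w
    have hn2 := Pn_nonneg (G := G) hμ hD n w x
    have hp1 := P_nonneg (G := G) hμ hD x w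
    have hp2 := P_nonneg (G := G) hμ hD w x
    have hs := Pn_symm (G := G) hμ hD n x w
    have e1 : 0 ≤ D * (μ w * ((P G μ D ^ n) w x * P G μ D x w)) := by
      have := hμ w
      positivity
    have e2 : 0 ≤ D * (μ x * ((P G μ D ^ n) x w * P G μ D w x)) := by
      have := hμ x
      positivity
    by_cases hadj : G.Adj x w
    · rw [if_pos hadj, mul_one]
      rcases eq_or_lt_of_le (hμ x) with hx | hx
      · rw [← hx] at e2 ⊢
        rw [zero_mul]
        linarith
      rcases eq_or_lt_of_le (hμ w) with hw | hw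
      · rw [hs, ← hw, zero_mul]
        rw [← hw] at e1
        linarith
      rcases le_total (μ x) (μ w) with hxw | hxw
      · have e3 : P G μ D x w = 1 / D := by
          rw [P_apply]
          unfold b
          rw [if_pos hadj, min_eq_left hxw]
          field_simp
        rw [e3] at e1 ⊢
        have e4 : D * (μ w * ((P G μ D ^ n) w x * (1 / D))) = μ w * (P G μ D ^ n) w x := by
          field_simp
        rw [e4, hs]
        linarith
      · have e3 : P G μ D w x = 1 / D := by
          rw [P_apply]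
          unfold b
          rw [if_pos hadj.symm, min_eq_left hxw]
          field_simp
        rw [e3] at e2 ⊢
        have e4 : D * (μ x * ((P G μ D ^ n) x w * (1 / D))) = μ x * (P G μ D ^ n) x w := by
          field_simp
        rw [e4]
        linarith
    · rw [if_neg hadj, mul_zero]
      linarith
  have h2 := Finset.sum_le_sum (fun x (_ : x ∈ (univ : Finset V)) =>
    Finset.sum_le_sum (fun w (_ : w ∈ (univ : Finset V)) => h1 x w))
  refine h2.trans (le_of_eq ?_)
  simp only [Finset.sum_add_distrib]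
  have h3 : ∑ x, ∑ w, D * (μ x * ((P G μ D ^ n) x w * P G μ D w x)) = D * tau G μ D (n + 1) := by
    unfold tau t
    rw [Finset.mul_sum]
    apply Finset.sum_congr rfl
    intro x _
    rw [Pn_succ, Finset.mul_sum, Finset.mul_sum]
  have h4 : ∑ x, ∑ w, D * (μ w * ((P G μ D ^ n) w x * P G μ D x w)) = D * tau G μ D (n + 1) := by
    rw [Finset.sum_comm, ← h3]
  rw [h3, h4]
  ring

theorem M_trace (hμ : ∀ v, 0 ≤ μ v) (hD : 0 < D) (j i : ℕ) :
    ∑ p, μ p * M G μ D j i p p ≤ tau G μ D (j + i) + 2 * D * tau G μ D (j + i + 1) := by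
  classical
  have h1 : ∑ p, μ p * M G μ D j i p p = ∑ x, ∑ w, μ x * (P G μ D ^ (j + i)) x w * cl G x w := by
    unfold M
    have e1 : ∀ p, μ p * ∑ x, ∑ w, (P G μ D ^ j) p x * (P G μ D ^ i) p w * cl G x w =
        ∑ x, ∑ w, μ x * ((P G μ D ^ j) x p * (P G μ D ^ i) p w) * cl G x w := by
      intro p
      rw [Finset.mul_sum]
      apply Finset.sum_congr rfl
      intro x _
      rw [Finset.mul_sum]
      apply Finset.sum_congr rfl
      intro w _
      have hs := Pn_symm (G := G) hμ hD j p x
      calc μ p * ((P G μ D ^ j) p x * (P G μ D ^ i) p w * cl G x w) =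
          (μ p * (P G μ D ^ j) p x) * (P G μ D ^ i) p w * cl G x w := by ring
        _ = μ x * ((P G μ D ^ j) x p * (P G μ D ^ i) p w) * cl G x w := by rw [hs]; ring
    rw [Finset.sum_congr rfl (fun p _ => e1 p), Finset.sum_comm]
    apply Finset.sum_congr rfl
    intro x _
    rw [Finset.sum_comm]
    apply Finset.sum_congr rfl
    intro w _
    rw [Pn_add, Finset.mul_sum, Finset.sum_mul]
  rw [h1]
  have h2 : ∀ x w, μ x * (P G μ D ^ (j + i)) x w * cl G x w ≤
      (if x = w then μ x * (P G μ D ^ (j + i)) x w else 0) +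
      μ x * (P G μ D ^ (j + i)) x w * (if G.Adj x w then 1 else 0) := by
    intro x w
    have h3 : 0 ≤ μ x * (P G μ D ^ (j + i)) x w := mul_nonneg (hμ x) (Pn_nonneg hμ hD _ x w)
    unfold cl
    by_cases hx : x = w
    · rw [if_pos (Or.inl hx), if_pos hx]
      have : 0 ≤ μ x * (P G μ D ^ (j + i)) x w * (if G.Adj x w then 1 else 0) := by
        apply mul_nonneg h3
        split_ifs <;> norm_num
      linarith
    · rw [if_neg hx]
      by_cases ha : G.Adj x w
      · rw [if_pos (Or.inr ha), if_pos ha]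
        linarith
      · rw [if_neg ha, if_neg (by tauto)]
        linarith
  have h4 := Finset.sum_le_sum (fun x (_ : x ∈ (univ : Finset V)) =>
    Finset.sum_le_sum (fun w (_ : w ∈ (univ : Finset V)) => h2 x w))
  refine h4.trans ?_
  simp only [Finset.sum_add_distrib]
  apply add_le_add _ (closing hμ hD (j + i))
  apply le_of_eq
  unfold tau t
  apply Finset.sum_congr rfl
  intro x _
  rw [Finset.sum_ite_eq]
  simp

end Pool.Agent.J4.H79.GW
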