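import Pool.Agent.J4.H79.GW.Struct
import Pool.Agent.J4.H79.GS.Coin

set_option autoImplicit false
set_option linter.unusedSectionVars false

/-!
# Large cuts of weighted graphs
-/

namespace Pool.Agent.J4.H79.GW

open Finset Pool.Agent.J4.H79.GS

section

variable {V : Type} [Fintype V] [DecidableEq V] {G : SimpleGraph V} {μ : V → ℝ} {D : ℝ}

theorem sg_or (c : Bool) : sg c = 1 ∨ sg c = -1 := by
  cases c <;> simp [sg]

theorem B_smul2 (t : ℝ) (f : V → ℝ) :
    B G μ (fun v => t * f v) (fun v => t * f v) = t ^ 2 * B G μ f f := by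
  rw [B_smul_left, B_comm, B_smul_left]
  ring

theorem N_smul (t : ℝ) (f : V → ℝ) : N μ (fun v => t * f v) = t ^ 2 * N μ f := by
  unfold N
  rw [Finset.mul_sum]
  exact Finset.sum_congr rfl fun v _ => by ring

open Classical in
/-- **Covering lemma with weights.** -/
theorem wcover (hμ : ∀ v, 0 ≤ μ v) (e : ℝ) :
    ∃ (n : ℕ) (f : ℕ → V → ℝ), (∀ v, ∑ j ∈ range n, f j v ^ 2 ≤ 1) ∧
      (∀ j, B G μ (f j) (f j) ≤ -e * N μ (f j)) ∧
      ∀ g : V → ℝ, (∀ v, ¬ ∑ j ∈ range n, f j v ^ 2 < 1 → g v = 0) →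
        -e * N μ g ≤ B G μ g g := by
  have key : ∀ (k n : ℕ) (f : ℕ → V → ℝ),
      (∀ v, ∑ j ∈ range n, f j v ^ 2 ≤ 1) →
      (∀ j, B G μ (f j) (f j) ≤ -e * N μ (f j)) →
      (univ.filter (fun v => ∑ j ∈ range n, f j v ^ 2 < 1)).card ≤ k →
      ∃ (n : ℕ) (f : ℕ → V → ℝ), (∀ v, ∑ j ∈ range n, f j v ^ 2 ≤ 1) ∧
        (∀ j, B G μ (f j) (f j) ≤ -e * N μ (f j)) ∧
        ∀ g : V → ℝ, (∀ v, ¬ ∑ j ∈ range n, f j v ^ 2 < 1 → g v = 0) →
          -e * N μ g ≤ B G μ g g := by
    intro k
    induction k with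
    | zero =>
      intro n f h1 h2 h4
      refine ⟨n, f, h1, h2, ?_⟩
      intro g hg
      have h5 : ∀ v, g v = 0 := by
        intro v
        apply hg
        intro h6
        rw [Nat.le_zero, Finset.card_eq_zero] at h4
        have h7 : v ∈ univ.filter (fun v => ∑ j ∈ range n, f j v ^ 2 < 1) :=
          Finset.mem_filter.2 ⟨Finset.mem_univ _, h6⟩
        rw [h4] at h7
        exact Finset.notMem_empty _ h7
      have h6 : N μ g = 0 := by
        unfold N
        exact Finset.sum_eq_zero fun v _ => by rw [h5 v]; ring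
      have h7 : B G μ g g = 0 := by
        unfold B
        apply Finset.sum_eq_zero
        intro u _
        apply Finset.sum_eq_zero
        intro v _
        rw [h5 u]
        ring
      rw [h6, h7, mul_zero]
    | succ k ih =>
      intro n f h1 h2 h4
      by_cases hdone : ∀ g : V → ℝ, (∀ v, ¬ ∑ j ∈ range n, f j v ^ 2 < 1 → g v = 0) →
          -e * N μ g ≤ B G μ g g
      · exact ⟨n, f, h1, h2, hdone⟩
      push Not at hdone
      obtain ⟨h, hh, hlt⟩ := hdone
      obtain ⟨U, hU⟩ : ∃ U : Finset V,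
        U = univ.filter (fun v => ∑ j ∈ range n, f j v ^ 2 < 1) := ⟨_, rfl⟩
      rw [← hU] at h4
      obtain ⟨S, hS⟩ : ∃ S : Finset V, S = univ.filter (fun v => h v ≠ 0) := ⟨_, rfl⟩
      have hSU : S ⊆ U := by
        intro v hv
        rw [hS, Finset.mem_filter] at hv
        by_contra hcon
        apply hv.2
        apply hh
        by_contra h5
        push Not at h5
        apply hcon
        rw [hU, Finset.mem_filter]
        exact ⟨Finset.mem_univ _, h5⟩
      have hne : ∃ v, h v ≠ 0 := by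
        by_contra hcon
        push Not at hcon
        have h6 : N μ h = 0 := by
          unfold N
          exact Finset.sum_eq_zero fun v _ => by rw [hcon v]; ring
        have h7 : B G μ h h = 0 := by
          unfold B
          apply Finset.sum_eq_zero
          intro u _
          apply Finset.sum_eq_zero
          intro v _
          rw [hcon u]
          ring
        rw [h6, h7, mul_zero] at hlt
        exact lt_irrefl _ hlt
      obtain ⟨v1, hv1⟩ := hne
      obtain ⟨v0, hv0, hmin⟩ := Finset.exists_min_image S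
        (fun v => (1 - ∑ j ∈ range n, f j v ^ 2) / h v ^ 2)
        ⟨v1, by rw [hS]; exact Finset.mem_filter.2 ⟨Finset.mem_univ _, hv1⟩⟩
      have hv0U := hSU hv0
      rw [hU, Finset.mem_filter] at hv0U
      have hh0 : h v0 ≠ 0 := by
        rw [hS, Finset.mem_filter] at hv0
        exact hv0.2
      obtain ⟨t, ht⟩ : ∃ t : ℝ, t = Real.sqrt ((1 - ∑ j ∈ range n, f j v0 ^ 2) / h v0 ^ 2) :=
        ⟨_, rfl⟩
      have ht2 : t ^ 2 = (1 - ∑ j ∈ range n, f j v0 ^ 2) / h v0 ^ 2 := by
        rw [ht, Real.sq_sqrt]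
        exact div_nonneg (by linarith [hv0U.2]) (sq_nonneg _)
      have hsum : ∀ v, ∑ j ∈ range (n + 1),
          (Function.update f n (fun w => t * h w)) j v ^ 2 =
          ∑ j ∈ range n, f j v ^ 2 + t ^ 2 * h v ^ 2 := by
        intro v
        rw [Finset.sum_range_succ]
        congr 1
        · apply Finset.sum_congr rfl
          intro j hj
          rw [Finset.mem_range] at hj
          rw [Function.update_of_ne (by omega)]
        · rw [Function.update_self]
          ring
      apply ih (n + 1) (Function.update f n (fun w => t * h w))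
      · intro v
        rw [hsum]
        by_cases hv : v ∈ S
        · have h5 := hmin v hv
          rw [← ht2] at h5
          have h6 : 0 < h v ^ 2 := by
            rw [hS, Finset.mem_filter] at hv
            have := hv.2
            positivity
          rw [le_div_iff₀ h6] at h5
          linarith
        · have h5 : h v = 0 := by
            by_contra hcon
            exact hv (by rw [hS]; exact Finset.mem_filter.2 ⟨Finset.mem_univ _, hcon⟩)
          rw [h5]
          have := h1 v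
          nlinarith
      · intro j
        by_cases hj : j = n
        · subst hj
          rw [Function.update_self, B_smul2, N_smul]
          have := mul_le_mul_of_nonneg_left hlt.le (sq_nonneg t)
          linarith
        · rw [Function.update_of_ne hj]
          exact h2 j
      · have h5 : univ.filter (fun v => ∑ j ∈ range (n + 1),
            (Function.update f n (fun w => t * h w)) j v ^ 2 < 1) ⊆ U.erase v0 := by
          intro v hv
          rw [Finset.mem_filter, hsum] at hv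
          rw [Finset.mem_erase]
          constructor
          · rintro rfl
            have h6 := hv.2
            rw [ht2] at h6
            have h7 : (1 - ∑ j ∈ range n, f j v ^ 2) / h v ^ 2 * h v ^ 2 =
                1 - ∑ j ∈ range n, f j v ^ 2 := by
              field_simp
            rw [h7] at h6
            linarith
          · rw [hU, Finset.mem_filter]
            refine ⟨Finset.mem_univ _, ?_⟩
            have h6 : 0 ≤ t ^ 2 * h v ^ 2 := by positivity
            linarith [hv.2]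
        have h6 := Finset.card_le_card h5
        have h7 : v0 ∈ U := hSU hv0
        rw [Finset.card_erase_of_mem h7] at h6
        omega
  refine key _ 0 (fun _ _ => 0) (by simp) ?_ le_rfl
  intro j
  have h6 : N μ (fun _ => (0 : ℝ)) = 0 := by unfold N; simp
  have h7 : B G μ (fun _ => (0 : ℝ)) (fun _ => 0) = 0 := by unfold B; simp
  rw [h6, h7, mul_zero]

end

open Classical in
/-- **Large cuts with weights.** -/
theorem wcut (m : ℕ) (T : SimpleGraph (Fin (m + 1))) (hT : T.IsTree) (k : ℕ) (γ : ℝ) (hγ : 0 < γ)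
    (hγ1 : γ ≤ 1) :
    ∃ c : ℝ, 0 < c ∧ c ≤ 1 ∧ ∀ (V : Type) [Fintype V]
      (G : SimpleGraph V) (μ : V → ℝ) (D : ℝ),
      (∀ v, 0 ≤ μ v) → 0 < D → (∀ v, ∑ u, b G μ v u ≤ D * μ v) →
      G.CliqueFree k → IsEmpty (T ↪g G) →
      γ * D * ∑ v, μ v ≤ ∑ u, ∑ v, b G μ u v →
      ∃ s : V → ℝ, (∀ v, s v = 1 ∨ s v = -1) ∧ B G μ s s ≤ -c * D * ∑ v, μ v := by
  obtain ⟨c', q', hc'0, hc'1, hst⟩ := struct m T hT k
  obtain ⟨ε, hε⟩ : ∃ ε : ℝ, ε = c' * (γ / 2) ^ q' := ⟨_, rfl⟩
  have hε0 : 0 < ε := by rw [hε]; positivity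
  have hε1 : ε ≤ 1 := by
    rw [hε]
    exact mul_le_one₀ hc'1 (by positivity) (pow_le_one₀ (by positivity) (by linarith))
  obtain ⟨a, ha⟩ : ∃ a : ℝ, a = ε * γ := ⟨_, rfl⟩
  have ha0 : 0 < a := by rw [ha]; positivity
  have ha1 : a ≤ 1 := by rw [ha]; exact mul_le_one₀ hε1 hγ.le hγ1
  refine ⟨a ^ 2 / 1536, by positivity, by
    have : a ^ 2 ≤ 1 := pow_le_one₀ ha0.le ha1
    linarith, ?_⟩
  intro V _ G μ D hμ hD hdeg hfree hemp hbig
  obtain ⟨n, f, hf1, hf2, hf3⟩ := wcover (G := G) hμ (ε * D)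
  obtain ⟨U, hU⟩ : ∃ U : Finset V, U = univ.filter (fun v => ∑ j ∈ range n, f j v ^ 2 < 1) :=
    ⟨_, rfl⟩
  obtain ⟨m0, hm0⟩ : ∃ m0 : ℝ, m0 = ∑ v, μ v := ⟨_, rfl⟩
  have hm00 : 0 ≤ m0 := by rw [hm0]; exact Finset.sum_nonneg fun v _ => hμ v
  rw [← hm0] at hbig ⊢
  have hb0 : ∀ u w, 0 ≤ b G μ u w := fun u w => b_nonneg hμ u w
  -- few edges inside `U`
  have hUedges : ∑ u, ∑ v, b G (res μ U) u v ≤ γ / 2 * D * m0 := by
    have h1 := hst (γ / 2) (by positivity) (by linarith) V G (res μ U) D (res_nonneg hμ U) hD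
      (deg_res hμ hdeg U) (SimpleGraph.CliqueFree.cliqueFreeOn G hfree) hemp (by
        intro g
        rw [← hε, N_res, B_res hμ]
        apply hf3
        intro v hv
        rw [if_neg]
        rw [hU, Finset.mem_filter]
        exact fun h => hv h.2)
    refine h1.trans ?_
    apply mul_le_mul_of_nonneg_left _ (by positivity)
    rw [hm0]
    apply Finset.sum_le_sum
    intro v _
    unfold res
    split_ifs
    · exact le_refl _
    · exact hμ v
  -- so the complement is large
  have hcompl : γ / 4 * m0 ≤ ∑ v ∈ Uᶜ, μ v := by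
    have h1 : ∀ u v, b G μ u v ≤ b G (res μ U) u v +
        (if u ∈ Uᶜ then b G μ u v else 0) + (if v ∈ Uᶜ then b G μ u v else 0) := by
      intro u v
      have e0 := hb0 u v
      rw [b_res hμ]
      by_cases hu : u ∈ U
      · by_cases hv : v ∈ U
        · simp [hu, hv]
        · simp [hu, hv]
      · by_cases hv : v ∈ U
        · simp [hu, hv]
        · simp only [hu, hv, Finset.mem_compl, not_false_eq_true, if_true, false_and, if_false]
          linarith
    have h2 := Finset.sum_le_sum (fun u (_ : u ∈ (univ : Finset V)) =>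
      Finset.sum_le_sum (fun v (_ : v ∈ (univ : Finset V)) => h1 u v))
    simp only [Finset.sum_add_distrib] at h2
    have h4 : ∑ u, ∑ v, (if u ∈ Uᶜ then b G μ u v else 0) ≤ D * ∑ u ∈ Uᶜ, μ u := by
      have e1 : ∀ u, ∑ v, (if u ∈ Uᶜ then b G μ u v else 0) =
          if u ∈ Uᶜ then ∑ v, b G μ u v else 0 := by
        intro u
        by_cases hu : u ∈ Uᶜ
        · simp only [if_pos hu]
        · simp only [if_neg hu, Finset.sum_const_zero]
      rw [Finset.sum_congr rfl (fun u _ => e1 u), ← Finset.sum_filter, Finset.mul_sum,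
        Finset.filter_mem_eq_inter, Finset.univ_inter]
      exact Finset.sum_le_sum fun u _ => hdeg u
    have h5 : ∑ u, ∑ v, (if v ∈ Uᶜ then b G μ u v else 0) ≤ D * ∑ u ∈ Uᶜ, μ u := by
      rw [Finset.sum_comm]
      refine le_trans (le_of_eq ?_) h4
      apply Finset.sum_congr rfl
      intro u _
      apply Finset.sum_congr rfl
      intro v _
      rw [b_comm]
    have h6 : D * (γ / 4 * m0) ≤ D * ∑ v ∈ Uᶜ, μ v := by nlinarith
    exact le_of_mul_le_mul_left h6 hD
  -- the total of the norms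
  have hNs : γ / 4 * m0 ≤ ∑ j ∈ range n, N μ (f j) := by
    have h1 : ∑ j ∈ range n, N μ (f j) = ∑ v, μ v * ∑ j ∈ range n, f j v ^ 2 := by
      unfold N
      rw [Finset.sum_comm]
      apply Finset.sum_congr rfl
      intro v _
      rw [Finset.mul_sum]
    rw [h1]
    refine hcompl.trans ?_
    have h2 : ∑ v ∈ Uᶜ, μ v ≤ ∑ v ∈ Uᶜ, μ v * ∑ j ∈ range n, f j v ^ 2 := by
      apply Finset.sum_le_sum
      intro v hv
      rw [Finset.mem_compl, hU, Finset.mem_filter, not_and, not_lt] at hv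
      exact le_mul_of_one_le_right (hμ v) (hv (Finset.mem_univ _))
    refine h2.trans ?_
    exact Finset.sum_le_sum_of_subset_of_nonneg (Finset.subset_univ _)
      (fun v _ _ => mul_nonneg (hμ v) (Finset.sum_nonneg fun _ _ => sq_nonneg _))
  -- random signs
  obtain ⟨F, hF⟩ : ∃ F : Fin n → V → ℝ, F = fun (j : Fin n) => f (j : ℕ) := ⟨_, rfl⟩
  have hFr : ∀ g : ℕ → ℝ, ∑ j : Fin n, g j = ∑ j ∈ range n, g j := fun g => Fin.sum_univ_eq_sum_range g n
  have hF1 : ∀ v, ∑ j, F j v ^ 2 ≤ 1 := by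
    intro v
    rw [hF, hFr (fun j => f j v ^ 2)]
    exact hf1 v
  obtain ⟨M, hM⟩ : ∃ M : ℝ, M = Real.sqrt (192 / a) := ⟨_, rfl⟩
  have hM2 : M ^ 2 = 192 / a := by rw [hM, Real.sq_sqrt (by positivity)]
  have hM0 : 0 < M := by rw [hM]; exact Real.sqrt_pos.2 (by positivity)
  obtain ⟨Q, hQ⟩ : ∃ Q : ℕ, Q = ⌈12288 / a ^ 2⌉₊ := ⟨_, rfl⟩
  have hQ1 : 12288 / a ^ 2 ≤ Q := by rw [hQ]; exact Nat.le_ceil _
  have hQr : (0 : ℝ) < Q := lt_of_lt_of_le (by positivity) hQ1
  have hQ0 : 0 < Q := by exact_mod_cast hQr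
  have hQ2 : 4 / (Q : ℝ) ≤ a ^ 2 / 3072 := by
    rw [div_le_div_iff₀ hQr (by norm_num)]
    rw [div_le_iff₀ (by positivity)] at hQ1
    linarith
  have hM4 : 12 / M ^ 4 = a ^ 2 / 3072 := by
    have : M ^ 4 = (M ^ 2) ^ 2 := by ring
    rw [this, hM2]
    field_simp
    norm_num
  have hav : av (fun ω : Fin n ⊕ V → Bool × Fin Q => ∑ u, ∑ v, b G μ u v *
      (sg (bt F M u ω) * sg (bt F M v ω))) ≤ -(a ^ 2 / 1536) * D * m0 := by
    rw [av_sum]
    have h1 : ∀ u, av (fun ω : Fin n ⊕ V → Bool × Fin Q => ∑ v, b G μ u v *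
        (sg (bt F M u ω) * sg (bt F M v ω))) ≤
        ∑ v, b G μ u v * ((M ^ 2)⁻¹ * (∑ j, F j u * F j v) + 12 / M ^ 4 + 4 / Q) := by
      intro u
      rw [av_sum]
      apply Finset.sum_le_sum
      intro v _
      rw [av_mul]
      by_cases huv : u = v
      · rw [huv, b_self, zero_mul, zero_mul]
      · exact mul_le_mul_of_nonneg_left (pair hQ0 hM0 F huv (hF1 u) (hF1 v)) (hb0 u v)
    refine (Finset.sum_le_sum (fun u _ => h1 u)).trans ?_
    have h2 : ∑ u, ∑ v, b G μ u v * ((M ^ 2)⁻¹ * (∑ j, F j u * F j v) + 12 / M ^ 4 + 4 / Q) =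
        (M ^ 2)⁻¹ * ∑ j ∈ range n, B G μ (f j) (f j) +
          (12 / M ^ 4 + 4 / Q) * ∑ u, ∑ v, b G μ u v := by
      have e1 : ∑ j ∈ range n, B G μ (f j) (f j) = ∑ u, ∑ v, b G μ u v * ∑ j, F j u * F j v := by
        unfold B
        rw [Finset.sum_comm]
        apply Finset.sum_congr rfl
        intro u _
        rw [Finset.sum_comm]
        apply Finset.sum_congr rfl
        intro v _
        rw [hF, hFr (fun j => f j u * f j v), Finset.mul_sum]
      rw [e1, Finset.mul_sum, Finset.mul_sum, ← Finset.sum_add_distrib]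
      apply Finset.sum_congr rfl
      intro u _
      rw [Finset.mul_sum, Finset.mul_sum, ← Finset.sum_add_distrib]
      apply Finset.sum_congr rfl
      intro v _
      ring
    rw [h2]
    have h3 : ∑ j ∈ range n, B G μ (f j) (f j) ≤ -(ε * D) * (γ / 4 * m0) := by
      have e1 : ∑ j ∈ range n, B G μ (f j) (f j) ≤ ∑ j ∈ range n, -(ε * D) * N μ (f j) :=
        Finset.sum_le_sum fun j _ => hf2 j
      rw [← Finset.mul_sum] at e1
      have e2 := mul_le_mul_of_nonneg_left hNs (show 0 ≤ ε * D by positivity)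
      linarith
    have h4 : ∑ u, ∑ v, b G μ u v ≤ D * m0 := by
      rw [hm0, Finset.mul_sum]
      exact Finset.sum_le_sum fun u _ => hdeg u
    have h5 : (12 / M ^ 4 + 4 / Q) * ∑ u, ∑ v, b G μ u v ≤
        (a ^ 2 / 3072 + a ^ 2 / 3072) * (D * m0) := by
      apply mul_le_mul _ h4 (Finset.sum_nonneg fun u _ => Finset.sum_nonneg fun v _ => hb0 u v)
        (by positivity)
      rw [hM4]
      linarith
    have h6 : (M ^ 2)⁻¹ * ∑ j ∈ range n, B G μ (f j) (f j) ≤
        (M ^ 2)⁻¹ * (-(ε * D) * (γ / 4 * m0)) := mul_le_mul_of_nonneg_left h3 (by positivity)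
    have h7 : (M ^ 2)⁻¹ * (-(ε * D) * (γ / 4 * m0)) = -(a ^ 2 / 768) * (D * m0) := by
      rw [hM2, ha]
      field_simp
      norm_num
      ring
    rw [h7] at h6
    linarith
  have hex : ∃ ω : Fin n ⊕ V → Bool × Fin Q, ∑ u, ∑ v, b G μ u v *
      (sg (bt F M u ω) * sg (bt F M v ω)) ≤ -(a ^ 2 / 1536) * D * m0 := by
    by_contra hcon
    push Not at hcon
    have hne : Nonempty (Fin n ⊕ V → Bool × Fin Q) := ⟨fun _ => (true, ⟨0, hQ0⟩)⟩
    obtain ⟨ω0, hω0⟩ := Finset.exists_min_image (univ : Finset (Fin n ⊕ V → Bool × Fin Q))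
      (fun ω => ∑ u, ∑ v, b G μ u v * (sg (bt F M u ω) * sg (bt F M v ω))) Finset.univ_nonempty
    have h1 : av (fun _ : Fin n ⊕ V → Bool × Fin Q =>
        ∑ u, ∑ v, b G μ u v * (sg (bt F M u ω0) * sg (bt F M v ω0))) ≤
        av (fun ω : Fin n ⊕ V → Bool × Fin Q => ∑ u, ∑ v, b G μ u v *
          (sg (bt F M u ω) * sg (bt F M v ω))) := av_mono fun ω => hω0.2 ω (Finset.mem_univ _)
    rw [av_const] at h1
    have h2 := hcon ω0
    linarith
  obtain ⟨ω, hω⟩ := hex
  refine ⟨fun v => sg (bt F M v ω), ?_, ?_⟩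
  · intro v
    exact sg_or _
  · exact hω

end Pool.Agent.J4.H79.GW
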