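import Pool.Agent.J4.H79.GW.Code
import Pool.Agent.Y394.AT.Tree

set_option autoImplicit false
set_option linter.unusedSectionVars false

/-!
# The weighted structure theorem
-/

namespace Pool.Agent.J4.H79.GW

open Finset

variable {V : Type} [Fintype V] [DecidableEq V] {G : SimpleGraph V} {μ : V → ℝ} {D : ℝ}

/-- the form of a restricted weight -/
theorem B_res (hμ : ∀ v, 0 ≤ μ v) (A : Finset V) (f : V → ℝ) :
    B G (res μ A) f f = B G μ (fun v => if v ∈ A then f v else 0)
      (fun v => if v ∈ A then f v else 0) := by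
  unfold B
  apply Finset.sum_congr rfl
  intro u _
  apply Finset.sum_congr rfl
  intro v _
  rw [b_res hμ]
  by_cases hu : u ∈ A
  · by_cases hv : v ∈ A
    · simp [hu, hv]
    · simp [hu, hv]
  · simp [hu]

theorem N_res (A : Finset V) (f : V → ℝ) :
    N (res μ A) f = N μ (fun v => if v ∈ A then f v else 0) := by
  unfold N res
  apply Finset.sum_congr rfl
  intro v _
  by_cases hv : v ∈ A
  · simp [hv]
  · simp [hv]

theorem deg_res (hμ : ∀ v, 0 ≤ μ v) (hdeg : ∀ v, ∑ u, b G μ v u ≤ D * μ v) (A : Finset V) (v : V) :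
    ∑ u, b G (res μ A) v u ≤ D * res μ A v := by
  by_cases hv : v ∈ A
  · have h1 : res μ A v = μ v := by unfold res; rw [if_pos hv]
    rw [h1]
    refine le_trans ?_ (hdeg v)
    apply Finset.sum_le_sum
    intro u _
    rw [b_res hμ]
    split_ifs
    · exact le_refl _
    · exact b_nonneg hμ v u
  · have h1 : res μ A v = 0 := by unfold res; rw [if_neg hv]
    rw [h1, mul_zero]
    apply le_of_eq
    apply Finset.sum_eq_zero
    intro u _
    rw [b_res hμ, if_neg (fun h => hv h.1)]

theorem cl_lt {s w : V} {c : ℝ} (h : cl G s w ≤ c) (hc : c < 1) : s ≠ w ∧ ¬ G.Adj s w := by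
  unfold cl at h
  split_ifs at h with h1
  · linarith
  · exact ⟨fun h2 => h1 (Or.inl h2), fun h2 => h1 (Or.inr h2)⟩

open Classical in
/-- **Embedding.** A good set of vertices contains every tree. -/
theorem embed {γ ρ : ℝ} (m : ℕ) (T : SimpleGraph (Fin (m + 1))) (hT : T.IsTree)
    (hρ0 : 0 < ρ) (hρ1 : ρ ≤ 1) (hρ : ((m : ℝ) + 1) ^ 3 * ρ < γ / 4)
    (hμ : ∀ v, 0 ≤ μ v) (hD : 0 < D)
    (U : Finset V) (hU : U.Nonempty) (hUP : ∀ p ∈ U, γ / 4 ≤ ∑ w ∈ U, P G μ D p w)
    (hUM : ∀ p ∈ U, ∀ j i : ℕ, j + i ≤ m + 1 → 2 ≤ j + i → M G μ D j i p p ≤ 1 / 2 * ρ ^ m) :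
    Nonempty (T ↪g G) := by
  obtain ⟨v0, hv0⟩ := hU
  obtain ⟨δ, hδ⟩ : ∃ δ : ℕ → ℝ, δ = fun n => 1 / 2 * ρ ^ (m + 1 - n) := ⟨_, rfl⟩
  have hδpos : ∀ n, 0 < δ n := by intro n; rw [hδ]; positivity
  have hδlt : ∀ n, δ n < 1 := by
    intro n
    rw [hδ]
    have := pow_le_one₀ hρ0.le hρ1 (n := m + 1 - n)
    simp only
    linarith
  have hδstep : ∀ n, n < m + 1 → δ n = ρ * δ (n + 1) := by
    intro n hn
    rw [hδ]
    simp only
    have : m + 1 - n = (m + 1 - (n + 1)) + 1 := by omega
    rw [this, pow_succ]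
    ring
  have hδmono : ∀ n, n < m + 1 → δ n ≤ δ (n + 1) := by
    intro n hn
    rw [hδstep n hn]
    exact mul_le_of_le_one_left (hδpos _).le hρ1
  have hδ1 : ∀ n, 1 ≤ n → 1 / 2 * ρ ^ m ≤ δ n := by
    intro n hn
    rw [hδ]
    simp only
    have := pow_le_pow_of_le_one hρ0.le hρ1 (show m + 1 - n ≤ m by omega)
    linarith
  have hMn : ∀ j i s w, 0 ≤ M G μ D j i s w := fun j i s w => M_nonneg hμ hD j i s w
  obtain ⟨f, hf1, _, hf3⟩ := Pool.Agent.Y394.AT.tree_embed G
    (fun n S => (∀ s ∈ S, s ∈ U) ∧ ∀ s ∈ S, ∀ s' ∈ S, s ≠ s' → ∀ j i : ℕ, 1 ≤ j + i →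
      j + i ≤ m + 1 - n → M G μ D j i s s' ≤ δ n) (m + 1)
    ⟨v0, by
      constructor
      · intro s hs
        rw [Finset.mem_singleton] at hs
        rw [hs]
        exact hv0
      · intro s hs s' hs' hss
        rw [Finset.mem_singleton] at hs hs'
        exact absurd (hs.trans hs'.symm) hss⟩
    (by
      intro n hn1 hnm S hS hInv p hp
      obtain ⟨hI1, hI2⟩ := hInv
      have hpU := hI1 p hp
      obtain ⟨Idx, hIdx⟩ : ∃ Idx : Finset (V × (ℕ × ℕ)),
        Idx = (S ×ˢ (range (m + 1) ×ˢ range (m + 1))).filter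
          (fun x => x.2.1 + x.2.2 ≤ m - n ∧ (x.1 ≠ p ∨ 1 ≤ x.2.1 + x.2.2)) := ⟨_, rfl⟩
      have hIcard : (Idx.card : ℝ) ≤ ((m : ℝ) + 1) ^ 3 := by
        have h1 : Idx.card ≤ (S ×ˢ (range (m + 1) ×ˢ range (m + 1))).card := by
          rw [hIdx]
          exact Finset.card_filter_le _ _
        rw [Finset.card_product, Finset.card_product, Finset.card_range, hS] at h1
        have h2 : n * ((m + 1) * (m + 1)) ≤ (m + 1) ^ 3 := by
          have : n ≤ m + 1 := by omega
          calc n * ((m + 1) * (m + 1)) ≤ (m + 1) * ((m + 1) * (m + 1)) :=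
                Nat.mul_le_mul_right _ this
            _ = (m + 1) ^ 3 := by ring
        have h3 := h1.trans h2
        exact_mod_cast h3
      have hmean : ∀ x ∈ Idx, ∑ w, P G μ D p w * M G μ D x.2.1 x.2.2 x.1 w ≤ δ n := by
        intro x hx
        rw [hIdx, Finset.mem_filter, Finset.mem_product, Finset.mem_product] at hx
        obtain ⟨⟨hxS, hx1, hx2⟩, hx3, hx4⟩ := hx
        rw [M_avg]
        by_cases hxp : x.1 = p
        · rw [hxp]
          refine le_trans (hUM p hpU _ _ (by omega) ?_) (hδ1 n hn1)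
          rcases hx4 with h | h
          · exact absurd hxp h
          · omega
        · exact hI2 x.1 hxS p hp hxp _ _ (by omega) (by omega)
      have hex : ∃ w ∈ U, 0 < P G μ D p w ∧ ∀ x ∈ Idx, M G μ D x.2.1 x.2.2 x.1 w ≤ δ (n + 1) := by
        by_contra hno
        push Not at hno
        have h1 : ∀ w ∈ U, δ (n + 1) * P G μ D p w ≤
            ∑ x ∈ Idx, P G μ D p w * M G μ D x.2.1 x.2.2 x.1 w := by
          intro w hw
          have hPn := P_nonneg (G := G) hμ hD p w
          rcases eq_or_lt_of_le hPn with h0 | h0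
          · rw [← h0]
            simp
          · obtain ⟨x, hx, hx2⟩ := hno w hw h0
            have h2 : P G μ D p w * M G μ D x.2.1 x.2.2 x.1 w ≤
                ∑ x ∈ Idx, P G μ D p w * M G μ D x.2.1 x.2.2 x.1 w :=
              Finset.single_le_sum (f := fun x : V × (ℕ × ℕ) =>
                P G μ D p w * M G μ D x.2.1 x.2.2 x.1 w)
                (fun y _ => mul_nonneg hPn (hMn _ _ _ _)) hx
            refine le_trans ?_ h2
            rw [mul_comm]
            exact mul_le_mul_of_nonneg_left hx2.le hPn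
        have h2 := Finset.sum_le_sum h1
        rw [← Finset.mul_sum, Finset.sum_comm] at h2
        have h3 : ∑ x ∈ Idx, ∑ w ∈ U, P G μ D p w * M G μ D x.2.1 x.2.2 x.1 w ≤
            ∑ x ∈ Idx, δ n := by
          apply Finset.sum_le_sum
          intro x hx
          refine le_trans ?_ (hmean x hx)
          exact Finset.sum_le_sum_of_subset_of_nonneg (Finset.subset_univ U)
            (fun w _ _ => mul_nonneg (P_nonneg hμ hD p w) (hMn _ _ _ _))
        rw [Finset.sum_const, nsmul_eq_mul] at h3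
        have h4 := hUP p hpU
        have h5 := mul_le_mul_of_nonneg_left h4 (hδpos (n + 1)).le
        have h6 : (Idx.card : ℝ) * δ n ≤ ((m : ℝ) + 1) ^ 3 * δ n :=
          mul_le_mul_of_nonneg_right hIcard (hδpos n).le
        rw [hδstep n hnm] at h6 h3
        have h7 : ((m : ℝ) + 1) ^ 3 * (ρ * δ (n + 1)) < δ (n + 1) * (γ / 4) := by
          have := mul_lt_mul_of_pos_right hρ (hδpos (n + 1))
          linarith
        linarith
      obtain ⟨w, hwU, hPw, hw⟩ := hex
      have hadj : G.Adj p w := by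
        by_contra h
        rw [P_apply] at hPw
        unfold b at hPw
        rw [if_neg h, zero_div] at hPw
        exact lt_irrefl _ hPw
      have hmem : ∀ s ∈ S, ∀ j i : ℕ, j + i ≤ m - n → (s ≠ p ∨ 1 ≤ j + i) →
          M G μ D j i s w ≤ δ (n + 1) := by
        intro s hs j i hji hor
        have := hw (s, (j, i)) (by
          rw [hIdx, Finset.mem_filter, Finset.mem_product, Finset.mem_product, Finset.mem_range,
            Finset.mem_range]
          exact ⟨⟨hs, by simp only; omega, by simp only; omega⟩, hji, hor⟩)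
        exact this
      have hnon : ∀ s ∈ S, s ≠ p → s ≠ w ∧ ¬ G.Adj s w := by
        intro s hs hsp
        have h1 := hmem s hs 0 0 (by omega) (Or.inl hsp)
        rw [M_zero] at h1
        exact cl_lt h1 (hδlt _)
      refine ⟨w, ?_, hadj, fun s hs hsp => (hnon s hs hsp).2, ?_, ?_⟩
      · intro hwS
        by_cases hwp : w = p
        · rw [hwp] at hadj
          exact G.loopless.irrefl p hadj
        · exact (hnon w hwS hwp).1 rfl
      · intro s hs
        rw [Finset.mem_insert] at hs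
        rcases hs with rfl | hs
        · exact hwU
        · exact hI1 s hs
      · intro s hs s' hs' hss j i hji1 hji2
        rw [Finset.mem_insert] at hs hs'
        rcases hs with hs | hs
        · rcases hs' with hs' | hs'
          · exact absurd (hs.trans hs'.symm) hss
          · rw [hs, M_comm]
            exact hmem s' hs' i j (by omega) (Or.inr (by omega))
        · rcases hs' with hs' | hs'
          · rw [hs']
            exact hmem s hs j i (by omega) (Or.inr hji1)
          · exact (hI2 s hs s' hs' hss j i hji1 (by omega)).trans (hδmono n hnm))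
    m (by omega) (Fin (m + 1)) T hT (by simp)
  exact ⟨⟨⟨f, hf1⟩, fun {a b} => (hf3 a b).symm⟩⟩

open Classical in
/-- **The weighted structure theorem.** A weighted graph without an induced tree and a clique, whose
form has no direction of large negative value, has few edges. -/
theorem struct (m : ℕ) (T : SimpleGraph (Fin (m + 1))) (hT : T.IsTree) (k : ℕ) :
    ∃ (c : ℝ) (q : ℕ), 0 < c ∧ c ≤ 1 ∧ ∀ γ : ℝ, 0 < γ → γ ≤ 1 →
      ∀ (V : Type) [Fintype V] [DecidableEq V]
      (G : SimpleGraph V) (μ : V → ℝ) (D : ℝ),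
      (∀ v, 0 ≤ μ v) → 0 < D → (∀ v, ∑ u, b G μ v u ≤ D * μ v) →
      G.CliqueFreeOn {v | 0 < μ v} k → IsEmpty (T ↪g G) →
      (∀ f : V → ℝ, -(c * γ ^ q * D) * N μ f ≤ B G μ f f) →
      ∑ u, ∑ v, b G μ u v ≤ γ * D * ∑ v, μ v := by
  induction k with
  | zero =>
    refine ⟨1, 0, one_pos, le_refl _, ?_⟩
    intro γ _ _ V _ _ G μ D _ _ _ hfree _ _
    exfalso
    apply hfree (t := ∅) (by simp)
    rw [SimpleGraph.isNClique_iff]
    simp
  | succ k ih =>
    obtain ⟨c', q', hc'0, hc'1, hIH⟩ := ih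
    obtain ⟨a, ha⟩ : ∃ a : ℝ, a = 8 * ((m : ℝ) + 1) ^ 3 := ⟨_, rfl⟩
    obtain ⟨e, he⟩ : ∃ e : ℝ, e = 8 * ((m : ℝ) + 2) ^ 2 := ⟨_, rfl⟩
    have ha1 : 1 ≤ a := by
      rw [ha]
      have h1 : (1 : ℝ) ≤ ((m : ℝ) + 1) ^ 3 := one_le_pow₀ (by
        have : (0 : ℝ) ≤ m := Nat.cast_nonneg m
        linarith)
      linarith
    have he1 : 1 ≤ e := by
      rw [he]
      have h1 : (1 : ℝ) ≤ ((m : ℝ) + 2) ^ 2 := one_le_pow₀ (by
        have : (0 : ℝ) ≤ m := Nat.cast_nonneg m
        linarith)
      linarith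
    obtain ⟨cm, hcm⟩ : ∃ cm : ℝ, cm = 1 / (2 * a ^ m * e) := ⟨_, rfl⟩
    have hcm0 : 0 < cm := by rw [hcm]; positivity
    have hcm1 : cm ≤ 1 := by
      rw [hcm, div_le_one (by positivity)]
      have h1 : (1 : ℝ) ≤ a ^ m := one_le_pow₀ ha1
      have h2 : (1 : ℝ) ≤ a ^ m * e := one_le_mul_of_one_le_of_one_le h1 he1
      linarith
    refine ⟨c' * (cm ^ 2 / 78) ^ q' * (cm / 9), (m + 1) * (2 * q' + 1), by positivity, ?_, ?_⟩
    · have h1 : (cm ^ 2 / 78) ^ q' ≤ 1 := by
        apply pow_le_one₀ (by positivity)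
        have : cm ^ 2 ≤ 1 := pow_le_one₀ hcm0.le hcm1
        linarith
      have h2 : c' * (cm ^ 2 / 78) ^ q' ≤ 1 := mul_le_one₀ hc'1 (by positivity) h1
      exact mul_le_one₀ h2 (by positivity) (by linarith)
    intro γ hγ hγ1
    obtain ⟨ρ, hρd⟩ : ∃ ρ : ℝ, ρ = γ / a := ⟨_, rfl⟩
    have hρ0 : 0 < ρ := by rw [hρd]; positivity
    have hρ1 : ρ ≤ 1 := by
      rw [hρd, div_le_one (by positivity)]
      linarith
    have hρ : ((m : ℝ) + 1) ^ 3 * ρ < γ / 4 := by
      rw [hρd, ha]
      have h3 : ((m : ℝ) + 1) ^ 3 * (γ / (8 * ((m : ℝ) + 1) ^ 3)) = γ / 8 := by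
        field_simp
      rw [h3]
      linarith
    obtain ⟨δ1, hδ1⟩ : ∃ δ1 : ℝ, δ1 = 1 / 2 * ρ ^ m := ⟨_, rfl⟩
    have hδ1pos : 0 < δ1 := by rw [hδ1]; positivity
    obtain ⟨η, hη⟩ : ∃ η : ℝ, η = γ * δ1 / (8 * ((m : ℝ) + 2) ^ 2) := ⟨_, rfl⟩
    have hη0 : 0 < η := by rw [hη]; positivity
    have hηX : η = cm * γ ^ (m + 1) := by
      rw [hη, hδ1, hρd, hcm, ← he, div_pow, pow_succ]
      field_simp
    have hη1 : η ≤ 1 := by
      rw [hηX]
      exact mul_le_one₀ hcm1 (by positivity) (pow_le_one₀ hγ.le hγ1)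
    obtain ⟨K, hK⟩ : ∃ K : ℝ, K = 13 / η := ⟨_, rfl⟩
    have hK1 : 1 ≤ K := by
      rw [hK, le_div_iff₀ hη0]
      linarith
    have hK0 : 0 < K := by linarith
    have hK2 : 4 / K ≤ η / 3 := by
      have : 4 / K = 4 / 13 * η := by
        rw [hK]
        field_simp
      rw [this]
      linarith
    obtain ⟨γ', hγd⟩ : ∃ γ' : ℝ, γ' = η ^ 2 / 78 := ⟨_, rfl⟩
    have hγ' : 0 < γ' := by rw [hγd]; positivity
    have hγ'1 : γ' ≤ 1 := by
      rw [hγd]
      have : η ^ 2 ≤ 1 := pow_le_one₀ hη0.le hη1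
      linarith
    have hγK : 2 * (γ' * K) = η / 3 := by rw [hγd, hK]; field_simp; norm_num
    obtain ⟨ε1, hε1d⟩ : ∃ ε1 : ℝ, ε1 = c' * γ' ^ q' := ⟨_, rfl⟩
    have hε1 : 0 < ε1 := by rw [hε1d]; positivity
    have hε11 : ε1 ≤ 1 := by
      rw [hε1d]
      exact mul_le_one₀ hc'1 (by positivity) (pow_le_one₀ hγ'.le hγ'1)
    obtain ⟨ε, hεd⟩ : ∃ ε : ℝ, ε = c' * (cm ^ 2 / 78) ^ q' * (cm / 9) *
      γ ^ ((m + 1) * (2 * q' + 1)) := ⟨_, rfl⟩
    have hεprod : ε = ε1 * (η / 9) := by
      rw [hεd, hε1d, hγd, hηX, pow_mul, pow_succ (γ ^ (m + 1)), pow_mul (γ ^ (m + 1))]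
      have h1 : (((cm * γ ^ (m + 1)) ^ 2 / 78 : ℝ)) ^ q' =
          (cm ^ 2 / 78) ^ q' * ((γ ^ (m + 1)) ^ 2) ^ q' := by
        rw [← mul_pow]
        congr 1
        ring
      rw [h1]
      ring
    have hε : 0 < ε := by rw [hεprod]; positivity
    have hεε1 : ε ≤ ε1 := by
      rw [hεprod]
      exact mul_le_of_le_one_right hε1.le (by linarith)
    have hεη : ε ≤ η / 9 := by
      rw [hεprod]
      exact mul_le_of_le_one_left (by positivity) hε11
    have hε1' : ε ≤ 1 := hεε1.trans hε11
    rw [← hεd]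
    intro V _ _ G μ D hμ hD hdeg hfree hemp hq
    by_contra hcon
    push Not at hcon
    obtain ⟨m0, hm0⟩ : ∃ m0 : ℝ, m0 = ∑ v, μ v := ⟨_, rfl⟩
    have hm00 : 0 ≤ m0 := by rw [hm0]; exact Finset.sum_nonneg fun v _ => hμ v
    rw [← hm0] at hcon
    -- closed walks of length three
    have ht3 : ∀ v, t G μ D 3 v ≤ (2 / K + γ' * K) * (μ v / D) := by
      intro v
      rcases eq_or_lt_of_le (hμ v) with h0 | hpos
      · unfold t
        rw [← h0]
        simp
      apply t_three_bound hK1 hγ'.le hμ hD hdeg v (univ.filter (fun w => G.Adj v w ∧ μ w ≤ K * μ v))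
        rfl
      apply hIH γ' hγ' hγ'1 V G _ D (res_nonneg hμ _) hD (deg_res hμ hdeg _) _ hemp
      · intro f
        rw [← hε1d]
        rw [N_res, B_res hμ]
        have h1 := hq (fun w => if w ∈ univ.filter (fun w => G.Adj v w ∧ μ w ≤ K * μ v) then f w
          else 0)
        refine le_trans ?_ h1
        have h2 := N_nonneg hμ (fun w => if w ∈ univ.filter
          (fun w => G.Adj v w ∧ μ w ≤ K * μ v) then f w else 0)
        have h3 : ε * D ≤ ε1 * D := mul_le_mul_of_nonneg_right hεε1 hD.le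
        nlinarith
      · have h1 := SimpleGraph.CliqueFreeOn.of_succ G hfree (a := v) (by exact hpos)
        apply h1.subset
        intro w hw
        have hw1 : 0 < res μ (univ.filter (fun w => G.Adj v w ∧ μ w ≤ K * μ v)) w := hw
        unfold res at hw1
        split_ifs at hw1 with hw2
        · rw [Finset.mem_filter] at hw2
          exact ⟨hw1, hw2.2.1⟩
        · exact absurd hw1 (lt_irrefl _)
    have htau2 : tau G μ D 2 ≤ ε * m0 := by
      unfold tau
      rw [hm0, Finset.mul_sum]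
      exact Finset.sum_le_sum fun v _ => t_two' hε.le hμ hD hdeg hq v
    have htau2' : tau G μ D 2 ≤ m0 / D := by
      unfold tau
      rw [hm0, Finset.sum_div]
      exact Finset.sum_le_sum fun v _ => t_two hμ hD hdeg v
    have htaun : ∀ n, 2 ≤ n → tau G μ D n ≤ ε * m0 := by
      intro n hn
      refine le_trans ?_ htau2
      unfold tau
      apply Finset.sum_le_sum
      intro v _
      have := t_le_two hε.le hε1' hμ hD hdeg hq v (n - 2) 1
      have e1 : 2 * 1 + (n - 2) = n := by omega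
      rw [e1] at this
      exact this
    have htau3 : ∀ n, 3 ≤ n → D * tau G μ D n ≤ (2 / K + γ' * K + ε) * m0 := by
      intro n hn
      have h1 : tau G μ D n ≤ tau G μ D 3 + ε * tau G μ D 2 := by
        unfold tau
        rw [Finset.mul_sum, ← Finset.sum_add_distrib]
        exact Finset.sum_le_sum fun v _ => t_three_le hε.le hε1' hμ hD hdeg hq v n hn
      have h2 : tau G μ D 3 ≤ (2 / K + γ' * K) * (m0 / D) := by
        unfold tau
        rw [hm0, Finset.sum_div, Finset.mul_sum]
        exact Finset.sum_le_sum fun v _ => ht3 v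
      have h3 : tau G μ D n ≤ (2 / K + γ' * K + ε) * (m0 / D) := by
        have := mul_le_mul_of_nonneg_left htau2' hε.le
        linarith
      have h4 := mul_le_mul_of_nonneg_left h3 hD.le
      refine h4.trans (le_of_eq ?_)
      field_simp
    have hMtr : ∀ j i : ℕ, 2 ≤ j + i → ∑ p, μ p * M G μ D j i p p ≤ η * m0 := by
      intro j i hji
      have h1 := M_trace (G := G) hμ hD j i
      have h2 := htaun (j + i) hji
      have h3 := htau3 (j + i + 1) (by omega)
      have h4 : (ε + 2 * (2 / K + γ' * K + ε)) * m0 ≤ η * m0 := by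
        apply mul_le_mul_of_nonneg_right _ hm00
        have : 2 * (2 / K) = 4 / K := by ring
        linarith
      nlinarith
    -- bad vertices
    obtain ⟨I2, hI2⟩ : ∃ I2 : Finset (ℕ × ℕ), I2 = (range (m + 2) ×ˢ range (m + 2)).filter
      (fun x => 2 ≤ x.1 + x.2) := ⟨_, rfl⟩
    have hI2c : (I2.card : ℝ) ≤ ((m : ℝ) + 2) ^ 2 := by
      have h1 : I2.card ≤ (range (m + 2) ×ˢ range (m + 2)).card := by
        rw [hI2]
        exact Finset.card_filter_le _ _
      rw [Finset.card_product, Finset.card_range] at h1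
      have h2 : (m + 2) * (m + 2) = (m + 2) ^ 2 := by ring
      rw [h2] at h1
      exact_mod_cast h1
    obtain ⟨Bad, hBad⟩ : ∃ Bad : Finset V, Bad = univ.filter
      (fun p => ∃ x ∈ I2, δ1 < M G μ D x.1 x.2 p p) := ⟨_, rfl⟩
    have hBadw : ∑ p ∈ Bad, μ p ≤ γ / 8 * m0 := by
      have h1 : ∀ p ∈ Bad, δ1 * μ p ≤ ∑ x ∈ I2, μ p * M G μ D x.1 x.2 p p := by
        intro p hp
        rw [hBad, Finset.mem_filter] at hp
        obtain ⟨x, hx, hx2⟩ := hp.2
        have h2 : μ p * M G μ D x.1 x.2 p p ≤ ∑ x ∈ I2, μ p * M G μ D x.1 x.2 p p :=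
          Finset.single_le_sum (f := fun x : ℕ × ℕ => μ p * M G μ D x.1 x.2 p p)
            (fun y _ => mul_nonneg (hμ p) (M_nonneg hμ hD _ _ _ _)) hx
        refine le_trans ?_ h2
        rw [mul_comm]
        exact mul_le_mul_of_nonneg_left hx2.le (hμ p)
      have h2 := Finset.sum_le_sum h1
      rw [← Finset.mul_sum, Finset.sum_comm] at h2
      have h3 : ∑ x ∈ I2, ∑ p ∈ Bad, μ p * M G μ D x.1 x.2 p p ≤ ∑ x ∈ I2, η * m0 := by
        apply Finset.sum_le_sum
        intro x hx
        rw [hI2, Finset.mem_filter] at hx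
        refine le_trans ?_ (hMtr x.1 x.2 hx.2)
        exact Finset.sum_le_sum_of_subset_of_nonneg (Finset.subset_univ Bad)
          (fun w _ _ => mul_nonneg (hμ w) (M_nonneg hμ hD _ _ _ _))
      rw [Finset.sum_const, nsmul_eq_mul] at h3
      have h4 : (I2.card : ℝ) * (η * m0) ≤ ((m : ℝ) + 2) ^ 2 * (η * m0) :=
        mul_le_mul_of_nonneg_right hI2c (by positivity)
      have h5 : ((m : ℝ) + 2) ^ 2 * (η * m0) = δ1 * (γ / 8 * m0) := by
        rw [hη]
        field_simp
      have h6 : δ1 * ∑ p ∈ Bad, μ p ≤ δ1 * (γ / 8 * m0) := by linarith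
      exact le_of_mul_le_mul_left h6 hδ1pos
    -- the good set
    obtain ⟨W, hW⟩ : ∃ W : Finset V, W = univ.filter (fun v => 0 < μ v ∧ v ∉ Bad) := ⟨_, rfl⟩
    obtain ⟨Φ, hΦ⟩ : ∃ Φ : Finset V → ℝ, Φ = fun U => ∑ u ∈ U, ∑ v ∈ U, b G μ u v -
      γ / 2 * D * ∑ v ∈ U, μ v := ⟨_, rfl⟩
    obtain ⟨U, hUW, hUmax⟩ := Finset.exists_max_image W.powerset Φ ⟨∅, Finset.empty_mem_powerset _⟩
    rw [Finset.mem_powerset] at hUW
    have hb0 : ∀ u w, 0 ≤ b G μ u w := fun u w => b_nonneg hμ u w
    have hΦW : 0 < Φ W := by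
      have h1 : ∀ u v, b G μ u v ≤ (if u ∈ W then (if v ∈ W then b G μ u v else 0) else 0) +
          (if u ∈ Bad then b G μ u v else 0) + (if v ∈ Bad then b G μ u v else 0) := by
        intro u v
        have e0 := hb0 u v
        by_cases hu : u ∈ Bad
        · rw [if_pos hu]
          have e1 : 0 ≤ (if u ∈ W then (if v ∈ W then b G μ u v else 0) else 0) := by
            split_ifs
            · exact e0
            · exact le_refl _
            · exact le_refl _
          have e2 : 0 ≤ (if v ∈ Bad then b G μ u v else 0) := by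
            split_ifs
            · exact e0
            · exact le_refl _
          linarith
        · by_cases hv : v ∈ Bad
          · rw [if_pos hv]
            have e1 : 0 ≤ (if u ∈ W then (if v ∈ W then b G μ u v else 0) else 0) := by
              split_ifs
              · exact e0
              · exact le_refl _
              · exact le_refl _
            have e2 : 0 ≤ (if u ∈ Bad then b G μ u v else 0) := by
              rw [if_neg hu]
            linarith
          · rw [if_neg hu, if_neg hv]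
            rcases eq_or_lt_of_le (hμ u) with h0 | h0
            · have e3 := b_le_left (G := G) hμ u v
              rw [← h0] at e3
              have e4 : b G μ u v = 0 := le_antisymm e3 e0
              rw [e4]
              simp
            · rcases eq_or_lt_of_le (hμ v) with h1 | h1
              · have e3 := b_le_right (G := G) hμ u v
                rw [← h1] at e3
                have e4 : b G μ u v = 0 := le_antisymm e3 e0
                rw [e4]
                simp
              · have e5 : u ∈ W := by rw [hW, Finset.mem_filter]; exact ⟨Finset.mem_univ _, h0, hu⟩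
                have e6 : v ∈ W := by rw [hW, Finset.mem_filter]; exact ⟨Finset.mem_univ _, h1, hv⟩
                rw [if_pos e5, if_pos e6]
                linarith
      have h2 := Finset.sum_le_sum (fun u (_ : u ∈ (univ : Finset V)) =>
        Finset.sum_le_sum (fun v (_ : v ∈ (univ : Finset V)) => h1 u v))
      simp only [Finset.sum_add_distrib] at h2
      have h3 : ∑ u, ∑ v, (if u ∈ W then (if v ∈ W then b G μ u v else 0) else 0) =
          ∑ u ∈ W, ∑ v ∈ W, b G μ u v := by
        have e1 : ∀ u, ∑ v, (if u ∈ W then (if v ∈ W then b G μ u v else 0) else 0) =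
            if u ∈ W then ∑ v ∈ W, b G μ u v else 0 := by
          intro u
          by_cases hu : u ∈ W
          · simp only [if_pos hu]
            rw [← Finset.sum_filter]
            simp
          · simp [hu]
        rw [Finset.sum_congr rfl (fun u _ => e1 u), ← Finset.sum_filter]
        simp
      have h4 : ∑ u, ∑ v, (if u ∈ Bad then b G μ u v else 0) ≤ D * ∑ u ∈ Bad, μ u := by
        have e1 : ∀ u, ∑ v, (if u ∈ Bad then b G μ u v else 0) =
            if u ∈ Bad then ∑ v, b G μ u v else 0 := by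
          intro u
          by_cases hu : u ∈ Bad
          · simp [hu]
          · simp [hu]
        rw [Finset.sum_congr rfl (fun u _ => e1 u), ← Finset.sum_filter, Finset.mul_sum]
        simp only [Finset.filter_mem_eq_inter, Finset.univ_inter]
        exact Finset.sum_le_sum fun u _ => hdeg u
      have h5 : ∑ u, ∑ v, (if v ∈ Bad then b G μ u v else 0) ≤ D * ∑ u ∈ Bad, μ u := by
        rw [Finset.sum_comm]
        refine le_trans (le_of_eq ?_) h4
        apply Finset.sum_congr rfl
        intro u _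
        apply Finset.sum_congr rfl
        intro v _
        rw [b_comm]
      have h6 : ∑ v ∈ W, μ v ≤ m0 := by
        rw [hm0]
        exact Finset.sum_le_sum_of_subset_of_nonneg (Finset.subset_univ W) (fun v _ _ => hμ v)
      have h7 := mul_le_mul_of_nonneg_left hBadw hD.le
      have h8 : γ / 2 * D * ∑ v ∈ W, μ v ≤ γ / 2 * D * m0 :=
        mul_le_mul_of_nonneg_left h6 (by positivity)
      have h9 : 0 ≤ γ * D * m0 := by positivity
      rw [hΦ]
      simp only
      rw [h3] at h2
      nlinarith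
    have hUne : U.Nonempty := by
      rw [Finset.nonempty_iff_ne_empty]
      intro h0
      have h1 := hUmax W (Finset.mem_powerset_self W)
      rw [h0] at h1
      have h2 : Φ ∅ = 0 := by rw [hΦ]; simp
      linarith
    have hUP : ∀ p ∈ U, γ / 4 ≤ ∑ w ∈ U, P G μ D p w := by
      intro p hp
      have hpW := hUW hp
      rw [hW, Finset.mem_filter] at hpW
      have hpos := hpW.2.1
      have h1 := hUmax (U.erase p) (Finset.mem_powerset.2 ((Finset.erase_subset _ _).trans hUW))
      have h2 : ∑ u ∈ U, ∑ v ∈ U, b G μ u v = ∑ u ∈ U.erase p, ∑ v ∈ U.erase p, b G μ u v +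
          2 * ∑ v ∈ U, b G μ p v := by
        have e1 : ∀ u, ∑ v ∈ U, b G μ u v = ∑ v ∈ U.erase p, b G μ u v + b G μ u p :=
          fun u => (Finset.sum_erase_add _ _ hp).symm
        rw [← Finset.sum_erase_add _ _ hp]
        have e2 : ∑ u ∈ U.erase p, ∑ v ∈ U, b G μ u v =
            ∑ u ∈ U.erase p, ∑ v ∈ U.erase p, b G μ u v + ∑ u ∈ U.erase p, b G μ u p := by
          rw [← Finset.sum_add_distrib]
          exact Finset.sum_congr rfl fun u _ => e1 u
        have e3 : ∑ u ∈ U.erase p, b G μ u p = ∑ v ∈ U, b G μ p v := by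
          rw [e1 p, b_self, add_zero]
          apply Finset.sum_congr rfl
          intro u _
          rw [b_comm]
        rw [e2, e3]
        ring
      have h3 : ∑ v ∈ U, μ v = ∑ v ∈ U.erase p, μ v + μ p := (Finset.sum_erase_add _ _ hp).symm
      rw [hΦ] at h1
      simp only at h1
      rw [h2, h3] at h1
      have h4 : γ / 4 * (D * μ p) ≤ ∑ v ∈ U, b G μ p v := by nlinarith
      have h5 : ∑ w ∈ U, P G μ D p w = (∑ v ∈ U, b G μ p v) / (D * μ p) := by
        rw [Finset.sum_div]
        exact Finset.sum_congr rfl fun w _ => P_apply p w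
      rw [h5, le_div_iff₀ (by positivity)]
      exact h4
    have hUM : ∀ p ∈ U, ∀ j i : ℕ, j + i ≤ m + 1 → 2 ≤ j + i →
        M G μ D j i p p ≤ 1 / 2 * ρ ^ m := by
      intro p hp j i hji1 hji2
      have hpW := hUW hp
      rw [hW, Finset.mem_filter] at hpW
      by_contra hno
      push Not at hno
      apply hpW.2.2
      rw [hBad, Finset.mem_filter]
      refine ⟨Finset.mem_univ _, (j, i), ?_, by rw [hδ1]; exact hno⟩
      rw [hI2, Finset.mem_filter, Finset.mem_product, Finset.mem_range, Finset.mem_range]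
      exact ⟨⟨by simp only; omega, by simp only; omega⟩, hji2⟩
    obtain ⟨e⟩ := embed m T hT hρ0 hρ1 hρ hμ hD U hUne hUP hUM
    exact hemp.elim e

end Pool.Agent.J4.H79.GW
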