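import Pool.Agent.J4.H79.GW.Layer
import Pool.Agent.J4.H79.GW.Struct

set_option autoImplicit false
set_option linter.unusedSectionVars false

/-!
# Degeneracy, maximum degree and the smallest eigenvalue
-/

namespace Pool.Agent.J4.H79.GW

open Finset Pool.Agent.R50.MC Pool.Agent.Y394.AT

section

variable {V : Type} [Fintype V] [DecidableEq V] {G : SimpleGraph V}

theorem lam_nonneg {lam : ℝ} (hq : ∀ f : V → ℝ, -lam * N2 f ≤ q G f) (v : V) : 0 ≤ lam := by
  classical
  have h1 := hq (fun w => if w = v then 1 else 0)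
  have h2 : N2 (fun w => if w = v then (1 : ℝ) else 0) = 1 := by
    unfold N2
    simp
  have h3 : q G (fun w => if w = v then (1 : ℝ) else 0) = 0 := by
    unfold q bb
    apply Finset.sum_eq_zero
    intro u _
    apply Finset.sum_eq_zero
    intro w _
    by_cases h : G.Adj u w
    · rw [if_pos h]
      by_cases hu : u = v
      · by_cases hw : w = v
        · rw [hu, hw] at h
          exact absurd h (G.loopless.irrefl v)
        · simp [hw]
      · simp [hu]
    · rw [if_neg h]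
  rw [h2, h3] at h1
  linarith

/-- at most `d n` edges in a `d`-degenerate graph -/
theorem sum_deg_le {d : ℝ} (n : ℕ) :
    ∀ S : Finset V, S.card = n →
      (∀ T ⊆ S, T.Nonempty → ∃ v ∈ T, ((nb G v ∩ T).card : ℝ) ≤ d) →
      ∑ v ∈ S, ((nb G v ∩ S).card : ℝ) ≤ 2 * d * S.card := by
  classical
  induction n with
  | zero =>
    intro S hS _
    rw [Finset.card_eq_zero.1 hS]
    simp
  | succ n ih =>
    intro S hS hT
    have hSne : S.Nonempty := by
      rw [← Finset.card_pos]
      omega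
    obtain ⟨v1, hv1, hdeg1⟩ := hT S (Finset.Subset.refl _) hSne
    obtain ⟨S', hS'⟩ : ∃ S' : Finset V, S' = S.erase v1 := ⟨_, rfl⟩
    have hSS' : S = insert v1 S' := by rw [hS', Finset.insert_erase hv1]
    have hv1S' : v1 ∉ S' := by rw [hS']; exact Finset.notMem_erase v1 S
    have hS'S : S' ⊆ S := by rw [hS']; exact Finset.erase_subset _ _
    have hcard : S'.card = n := by
      rw [hS', Finset.card_erase_of_mem hv1, hS]
      rfl
    have h1 := ih S' hcard (fun T hTS hTn => hT T (hTS.trans hS'S) hTn)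
    have h2 : ∀ v ∈ S', ((nb G v ∩ S).card : ℝ) ≤ ((nb G v ∩ S').card : ℝ) +
        (if G.Adj v v1 then 1 else 0) := by
      intro v _
      have e1 : nb G v ∩ S ⊆ (nb G v ∩ S') ∪ (if G.Adj v v1 then {v1} else ∅) := by
        intro w hw
        rw [Finset.mem_inter, mem_nb] at hw
        rw [Finset.mem_union]
        by_cases hwv : w = v1
        · right
          rw [hwv] at hw
          rw [if_pos hw.1, hwv]
          exact Finset.mem_singleton_self _
        · left
          rw [Finset.mem_inter, mem_nb, hS', Finset.mem_erase]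
          exact ⟨hw.1, hwv, hw.2⟩
      have e2 := (Finset.card_le_card e1).trans (Finset.card_union_le _ _)
      have e3 : ((if G.Adj v v1 then ({v1} : Finset V) else ∅).card : ℝ) =
          if G.Adj v v1 then 1 else 0 := by
        split_ifs
        · simp
        · simp
      rw [← e3]
      exact_mod_cast e2
    have h3 := Finset.sum_le_sum h2
    rw [Finset.sum_add_distrib] at h3
    have h4 : ∑ v ∈ S', (if G.Adj v v1 then (1 : ℝ) else 0) ≤ d := by
      rw [← Finset.sum_filter, Finset.sum_const, nsmul_eq_mul, mul_one]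
      refine le_trans ?_ hdeg1
      have : S'.filter (fun v => G.Adj v v1) ⊆ nb G v1 ∩ S := by
        intro v hv
        rw [Finset.mem_filter] at hv
        rw [Finset.mem_inter, mem_nb]
        exact ⟨hv.2.symm, hS'S hv.1⟩
      exact_mod_cast Finset.card_le_card this
    have h5 : (S.card : ℝ) = S'.card + 1 := by
      rw [hcard, hS]
      push_cast
      ring
    have h6 : ∑ v ∈ S, ((nb G v ∩ S).card : ℝ) =
        ((nb G v1 ∩ S).card : ℝ) + ∑ v ∈ S', ((nb G v ∩ S).card : ℝ) := by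
      conv_lhs => rw [hSS', Finset.sum_insert hv1S', ← hSS']
    rw [h6, h5]
    linarith

end

/-- **The degeneracy is at most a constant times the absolute value of the smallest eigenvalue.** -/
theorem degen (m : ℕ) (T : SimpleGraph (Fin (m + 1))) (hT : T.IsTree) (k : ℕ) :
    ∃ C : ℝ, 1 ≤ C ∧ ∀ (V : Type) [Fintype V] (G : SimpleGraph V), G.CliqueFree k →
      IsEmpty (T ↪g G) → ∀ lam : ℝ, (∀ f : V → ℝ, -lam * N2 f ≤ q G f) →
      ∀ S : Finset V, S.Nonempty → ∃ v ∈ S, ∀ A : Finset V, (∀ w, w ∈ A ↔ G.Adj v w ∧ w ∈ S) →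
        (A.card : ℝ) ≤ C * lam := by
  classical
  obtain ⟨c, qq, hc0, hc1, hst⟩ := struct m T hT k
  obtain ⟨ε, hε⟩ : ∃ ε : ℝ, ε = c * (1 / 7) ^ qq := ⟨_, rfl⟩
  have hε0 : 0 < ε := by rw [hε]; positivity
  refine ⟨1 / (3 * ε) + 1, by
    have : 0 < 1 / (3 * ε) := by positivity
    linarith, ?_⟩
  intro V _ G hfree hemp lam hq S hSne
  obtain ⟨C, hC⟩ : ∃ C : ℝ, C = 1 / (3 * ε) + 1 := ⟨_, rfl⟩
  rw [← hC]
  have hC0 : 0 < C := by rw [hC]; positivity
  have hlam : 0 ≤ lam := by
    obtain ⟨v, _⟩ := hSne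
    exact lam_nonneg hq v
  have hex : ∃ d : ℕ, ∀ T : Finset V, T.Nonempty → ∃ v ∈ T, (nb G v ∩ T).card ≤ d := by
    refine ⟨Fintype.card V, fun T hTn => ?_⟩
    obtain ⟨v, hv⟩ := hTn
    exact ⟨v, hv, Finset.card_le_univ _⟩
  obtain ⟨d0, hd0⟩ : ∃ d0 : ℕ, d0 = Nat.find hex := ⟨_, rfl⟩
  have hP : ∀ T : Finset V, T.Nonempty → ∃ v ∈ T, (nb G v ∩ T).card ≤ d0 := by
    rw [hd0]
    exact Nat.find_spec hex
  have hkey : (d0 : ℝ) ≤ C * lam := by
    rcases Nat.eq_zero_or_pos d0 with h0 | hpos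
    · rw [h0]
      push_cast
      positivity
    by_contra hcon
    push Not at hcon
    have hd0pos : (0 : ℝ) < d0 := by exact_mod_cast hpos
    have hnot := Nat.find_min hex (show d0 - 1 < Nat.find hex by rw [← hd0]; omega)
    push Not at hnot
    obtain ⟨T0, hT0ne, hT0⟩ := hnot
    obtain ⟨μ, hμ1, hμ2, hμ3, hμ4⟩ := elim_weights (G := G) hd0pos T0.card T0 rfl
      (fun T _ hTn => by
        obtain ⟨v, hv, hv2⟩ := hP T hTn
        exact ⟨v, hv, by exact_mod_cast hv2⟩) (fun _ => 1) (fun _ _ => zero_le_one)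
    have hμ0 : ∀ v, 0 ≤ μ v := by
      intro v
      by_cases hv : v ∈ T0
      · exact zero_le_one.trans (hμ2 v hv)
      · rw [hμ1 v hv]
    have hbz : ∀ v u, (v ∉ T0 ∨ u ∉ T0) → b G μ v u = 0 := by
      intro v u h
      unfold b
      split_ifs
      · rcases h with h | h
        · rw [hμ1 v h]
          exact min_eq_left (hμ0 u)
        · rw [hμ1 u h]
          exact min_eq_right (hμ0 v)
      · rfl
    have hsumT : ∀ v, ∑ u, b G μ v u = ∑ u ∈ T0, b G μ v u := by
      intro v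
      exact (Finset.sum_subset (Finset.subset_univ T0) (fun u _ hu => hbz v u (Or.inr hu))).symm
    have hdeg : ∀ v, ∑ u, b G μ v u ≤ 3 * d0 * μ v := by
      intro v
      rw [hsumT]
      by_cases hv : v ∈ T0
      · have := hμ4 v hv
        have h2 := hμ2 v hv
        nlinarith
      · rw [hμ1 v hv, mul_zero]
        exact le_of_eq (Finset.sum_eq_zero fun u _ => hbz v u (Or.inl hv))
    have hlow : lam ≤ ε * (3 * d0) := by
      have h1 : 1 / (3 * ε) * lam ≤ d0 := by
        rw [hC] at hcon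
        nlinarith
      rw [one_div_mul_eq_div, div_le_iff₀ (by positivity)] at h1
      linarith
    have hfin := hst (1 / 7) (by norm_num) (by norm_num) V G μ (3 * d0) hμ0 (by positivity) hdeg
      (SimpleGraph.CliqueFree.cliqueFreeOn G hfree) hemp (by
        intro f
        rw [← hε]
        refine le_trans ?_ (layer' hq μ hμ0 f)
        have := N_nonneg hμ0 f
        nlinarith)
    have hμsum : ∑ v, μ v = ∑ v ∈ T0, μ v :=
      (Finset.sum_subset (Finset.subset_univ T0) (fun u _ hu => hμ1 u hu)).symm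
    have hlb : (d0 : ℝ) * T0.card ≤ ∑ u, ∑ v, b G μ u v := by
      have h1 : ∑ u, ∑ v, b G μ u v = ∑ u ∈ T0, ∑ v ∈ T0, b G μ u v := by
        rw [Finset.sum_congr rfl (fun u _ => hsumT u)]
        exact (Finset.sum_subset (Finset.subset_univ T0) (fun u _ hu =>
          Finset.sum_eq_zero fun v _ => hbz u v (Or.inl hu))).symm
      rw [h1, mul_comm, ← nsmul_eq_mul, ← Finset.sum_const]
      apply Finset.sum_le_sum
      intro u hu
      have h2 : d0 ≤ (nb G u ∩ T0).card := by
        have := hT0 u hu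
        omega
      have h3 : ((nb G u ∩ T0).card : ℝ) ≤ ∑ v ∈ T0, b G μ u v := by
        have h4 : ((nb G u ∩ T0).card : ℝ) = ∑ v ∈ nb G u ∩ T0, (1 : ℝ) := by simp
        rw [h4]
        refine le_trans ?_ (Finset.sum_le_sum_of_subset_of_nonneg
          (show nb G u ∩ T0 ⊆ T0 from Finset.inter_subset_right)
          (fun i _ _ => b_nonneg hμ0 u i))
        apply Finset.sum_le_sum
        intro v hv
        rw [Finset.mem_inter, mem_nb] at hv
        unfold b
        rw [if_pos hv.1]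
        exact le_min (hμ2 u hu) (hμ2 v hv.2)
      refine le_trans ?_ h3
      exact_mod_cast h2
    rw [hμsum] at hfin
    have h5 : ∑ v ∈ T0, μ v ≤ 2 * T0.card := by
      refine hμ3.trans (le_of_eq ?_)
      simp
    have h6 : (0 : ℝ) < T0.card := by exact_mod_cast Finset.card_pos.2 hT0ne
    have h7 : 1 / 7 * (3 * (d0 : ℝ)) * ∑ v ∈ T0, μ v ≤ 1 / 7 * (3 * d0) * (2 * T0.card) :=
      mul_le_mul_of_nonneg_left h5 (by positivity)
    have h8 : 0 < (d0 : ℝ) * T0.card := by positivity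
    nlinarith
  obtain ⟨v, hv, hv2⟩ := hP S hSne
  refine ⟨v, hv, fun A hA => ?_⟩
  have hAe : A = nb G v ∩ S := by
    ext w
    rw [hA, Finset.mem_inter, mem_nb]
  rw [hAe]
  refine le_trans ?_ hkey
  exact_mod_cast hv2

/-- **The maximum degree is at most a constant times the square of the smallest eigenvalue.** -/
theorem maxdeg {V : Type} [Fintype V] {G : SimpleGraph V} {C lam : ℝ} (hC : 1 ≤ C)
    (hdg : ∀ S : Finset V, S.Nonempty → ∃ v ∈ S, ∀ A : Finset V,
      (∀ w, w ∈ A ↔ G.Adj v w ∧ w ∈ S) → (A.card : ℝ) ≤ C * lam)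
    (hq : ∀ f : V → ℝ, -lam * N2 f ≤ q G f) (v : V) :
    ((nb G v).card : ℝ) ≤ (2 * C + 1) * lam ^ 2 := by
  classical
  have hlam := lam_nonneg hq v
  rcases Finset.eq_empty_or_nonempty (nb G v) with h0 | hne
  · rw [h0]
    simp only [Finset.card_empty, Nat.cast_zero]
    positivity
  obtain ⟨u, hu⟩ := hne
  rw [mem_nb] at hu
  have hlampos : 0 < lam := by
    obtain ⟨w, hw, hw2⟩ := hdg {v, u} ⟨v, by simp⟩
    have h1 := hw2 (nb G w ∩ {v, u}) (by
      intro x
      rw [Finset.mem_inter, mem_nb])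
    have h2 : 0 < (nb G w ∩ {v, u}).card := by
      rw [Finset.card_pos]
      rw [Finset.mem_insert, Finset.mem_singleton] at hw
      rcases hw with hw | hw
      · refine ⟨u, ?_⟩
        rw [hw, Finset.mem_inter, mem_nb]
        exact ⟨hu, by simp⟩
      · refine ⟨v, ?_⟩
        rw [hw, Finset.mem_inter, mem_nb]
        exact ⟨hu.symm, by simp⟩
    have h3 : (0 : ℝ) < (nb G w ∩ {v, u}).card := by exact_mod_cast h2
    by_contra hcon
    push Not at hcon
    have h4 : lam = 0 := le_antisymm hcon hlam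
    rw [h4, mul_zero] at h1
    linarith
  obtain ⟨g, hg⟩ : ∃ g : V → ℝ, g = fun w => if w = v then 1 else 0 := ⟨_, rfl⟩
  obtain ⟨h, hh⟩ : ∃ h : V → ℝ, h = fun w => if w ∈ nb G v then 1 else 0 := ⟨_, rfl⟩
  obtain ⟨a, ha⟩ : ∃ a : ℝ, a = 2 * C + 1 := ⟨_, rfl⟩
  have ha0 : 0 < a := by rw [ha]; linarith
  obtain ⟨Δ, hΔ⟩ : ∃ Δ : ℝ, Δ = ((nb G v).card : ℝ) := ⟨_, rfl⟩
  have hΔ0 : 0 ≤ Δ := by rw [hΔ]; exact Nat.cast_nonneg _
  have hqg : q G g = 0 := by
    unfold q
    rw [bb_eq, hg]
    apply Finset.sum_eq_zero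
    intro w _
    by_cases hw : w = v
    · rw [hw]
      simp only [if_true, one_mul]
      apply Finset.sum_eq_zero
      intro y hy
      rw [mem_nb] at hy
      rw [if_neg]
      intro hyv
      rw [hyv] at hy
      exact G.loopless.irrefl v hy
    · simp [hw]
  have hbb : bb G g h = Δ := by
    rw [bb_eq, hg, hh, hΔ]
    simp
  have hqh : q G h ≤ 2 * (C * lam) * Δ := by
    unfold q
    rw [bb_eq, hh, hΔ]
    have h1 : ∑ w, (if w ∈ nb G v then (1 : ℝ) else 0) * ∑ y ∈ nb G w,
        (if y ∈ nb G v then (1 : ℝ) else 0) = ∑ w ∈ nb G v, ((nb G w ∩ nb G v).card : ℝ) := by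
      have e1 : ∀ w, (if w ∈ nb G v then (1 : ℝ) else 0) * ∑ y ∈ nb G w,
          (if y ∈ nb G v then (1 : ℝ) else 0) =
          if w ∈ nb G v then ((nb G w ∩ nb G v).card : ℝ) else 0 := by
        intro w
        rw [← Finset.sum_filter, Finset.filter_mem_eq_inter, Finset.sum_const, nsmul_eq_mul,
          mul_one]
        split_ifs
        · rw [one_mul]
        · rw [zero_mul]
      rw [Finset.sum_congr rfl (fun w _ => e1 w), ← Finset.sum_filter]
      simp
    rw [h1]
    apply sum_deg_le (nb G v).card (nb G v) rfl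
    intro T _ hTn
    obtain ⟨w, hw, hw2⟩ := hdg T hTn
    refine ⟨w, hw, hw2 _ ?_⟩
    intro x
    rw [Finset.mem_inter, mem_nb]
  have hN2g : N2 g = 1 := by
    unfold N2
    rw [hg]
    simp
  have hN2h : N2 h = Δ := by
    unfold N2
    rw [hh, hΔ]
    simp
  have hgh : ∑ w, g w * h w = 0 := by
    apply Finset.sum_eq_zero
    intro w _
    rw [hg, hh]
    by_cases hw : w = v
    · rw [hw]
      have : v ∉ nb G v := by
        rw [mem_nb]
        exact G.loopless.irrefl v
      simp [this]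
    · simp [hw]
  have hmain := hq (fun w => g w + (-1 / (a * lam)) * h w)
  rw [q_add, N2_add, hqg, hbb, hN2g, hN2h, hgh] at hmain
  have e1 : (-1 / (a * lam)) ^ 2 * q G h ≤ (-1 / (a * lam)) ^ 2 * (2 * (C * lam) * Δ) :=
    mul_le_mul_of_nonneg_left hqh (sq_nonneg _)
  have e2 : -lam * (1 + 2 * (-1 / (a * lam)) * 0 + (-1 / (a * lam)) ^ 2 * Δ) ≤
      0 + 2 * (-1 / (a * lam)) * Δ + (-1 / (a * lam)) ^ 2 * (2 * (C * lam) * Δ) := by linarith
  have e3 : 0 + 2 * (-1 / (a * lam)) * Δ + (-1 / (a * lam)) ^ 2 * (2 * (C * lam) * Δ) +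
      lam * (1 + 2 * (-1 / (a * lam)) * 0 + (-1 / (a * lam)) ^ 2 * Δ) =
      lam - Δ / (a * lam) := by
    field_simp
    rw [ha]
    ring
  have e4 : Δ / (a * lam) ≤ lam := by linarith
  rw [div_le_iff₀ (by positivity)] at e4
  rw [← hΔ, ← ha]
  linarith

end Pool.Agent.J4.H79.GW
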