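import Pool.Agent.J4.H79.GW.Top

set_option autoImplicit false
set_option linter.unusedSectionVars false

/-!
# The largest eigenvalue is at most a constant times the absolute value of the smallest one
-/

namespace Pool.Agent.J4.H79.GW

open Finset Pool.Agent.R50.MC Pool.Agent.Y394.AT

section gen

variable {V : Type} [Fintype V] [DecidableEq V] {G : SimpleGraph V} {Q : Matrix V V ℝ}

theorem Qn_zero (u v : V) : (Q ^ 0) u v = if u = v then 1 else 0 := by
  rw [pow_zero, Matrix.one_apply]

theorem Qn_succ (n : ℕ) (u v : V) :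
    (Q ^ (n + 1)) u v = ∑ w, (Q ^ n) u w * Q w v := by
  rw [pow_succ, Matrix.mul_apply]

theorem Qn_succ' (n : ℕ) (u v : V) :
    (Q ^ (n + 1)) u v = ∑ w, Q u w * (Q ^ n) w v := by
  rw [pow_succ', Matrix.mul_apply]

theorem Qn_nonneg (hQ : ∀ u v, 0 ≤ Q u v) (n : ℕ) : ∀ u v : V, 0 ≤ (Q ^ n) u v := by
  induction n with
  | zero =>
    intro u v
    rw [Qn_zero]
    split_ifs <;> norm_num
  | succ n ih =>
    intro u v
    rw [Qn_succ]
    exact Finset.sum_nonneg fun w _ => mul_nonneg (ih u w) (hQ w v)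

theorem Qn_row (hQ : ∀ u v, 0 ≤ Q u v) (hrow : ∀ u, ∑ v, Q u v ≤ 1) (n : ℕ) :
    ∀ u : V, ∑ v, (Q ^ n) u v ≤ 1 := by
  induction n with
  | zero =>
    intro u
    rw [pow_zero]
    simp [Matrix.one_apply]
  | succ n ih =>
    intro u
    have h1 : ∑ v, (Q ^ (n + 1)) u v = ∑ w, Q u w * ∑ v, (Q ^ n) w v := by
      simp only [pow_succ', Matrix.mul_apply, Finset.mul_sum]
      rw [Finset.sum_comm]
    rw [h1]
    refine le_trans ?_ (hrow u)
    apply Finset.sum_le_sum
    intro w _
    exact mul_le_of_le_one_right (hQ u w) (ih w)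

/-- generalised codegree -/
noncomputable def MQ (G : SimpleGraph V) (Q : Matrix V V ℝ) (j i : ℕ) (s p : V) : ℝ :=
  ∑ x, ∑ w, (Q ^ j) s x * (Q ^ i) p w * cl G x w

theorem MQ_nonneg (hQ : ∀ u v, 0 ≤ Q u v) (j i : ℕ) (s p : V) : 0 ≤ MQ G Q j i s p :=
  Finset.sum_nonneg fun x _ => Finset.sum_nonneg fun w _ =>
    mul_nonneg (mul_nonneg (Qn_nonneg hQ j s x) (Qn_nonneg hQ i p w)) (cl_nonneg x w)

theorem MQ_comm (j i : ℕ) (s p : V) : MQ G Q j i s p = MQ G Q i j p s := by
  unfold MQ
  rw [Finset.sum_comm]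
  apply Finset.sum_congr rfl
  intro w _
  apply Finset.sum_congr rfl
  intro x _
  rw [cl_comm]
  ring

theorem MQ_zero_left (i : ℕ) (s p : V) : MQ G Q 0 i s p = ∑ w, (Q ^ i) p w * cl G s w := by
  unfold MQ
  rw [Finset.sum_eq_single s]
  · apply Finset.sum_congr rfl
    intro w _
    rw [Qn_zero, if_pos rfl, one_mul]
  · intro y _ hy
    apply Finset.sum_eq_zero
    intro x _
    rw [Qn_zero, if_neg (fun h => hy h.symm)]
    ring
  · intro h
    exact absurd (Finset.mem_univ _) h

theorem MQ_zero (s w : V) : MQ G Q 0 0 s w = cl G s w := by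
  rw [MQ_zero_left, Finset.sum_eq_single w]
  · rw [Qn_zero, if_pos rfl, one_mul]
  · intro y _ hy
    rw [Qn_zero, if_neg (fun h => hy h.symm), zero_mul]
  · intro h
    exact absurd (Finset.mem_univ _) h

theorem MQ_avg (j i : ℕ) (s p : V) :
    ∑ w, Q p w * MQ G Q j i s w = MQ G Q j (i + 1) s p := by
  unfold MQ
  have h1 : ∀ w, Q p w * ∑ x, ∑ y, (Q ^ j) s x * (Q ^ i) w y * cl G x y =
      ∑ x, ∑ y, (Q ^ j) s x * (Q p w * (Q ^ i) w y) * cl G x y := by
    intro w
    rw [Finset.mul_sum]
    apply Finset.sum_congr rfl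
    intro x _
    rw [Finset.mul_sum]
    apply Finset.sum_congr rfl
    intro y _
    ring
  rw [Finset.sum_congr rfl (fun w _ => h1 w), Finset.sum_comm]
  apply Finset.sum_congr rfl
  intro x _
  rw [Finset.sum_comm]
  apply Finset.sum_congr rfl
  intro y _
  rw [Qn_succ', Finset.mul_sum, Finset.sum_mul]

open Classical in
/-- **Embedding.** -/
theorem embedQ {δ0 ρ : ℝ} (m : ℕ) (T : SimpleGraph (Fin (m + 1))) (hT : T.IsTree)
    (hρ0 : 0 < ρ) (hρ1 : ρ ≤ 1) (hρ : ((m : ℝ) + 1) ^ 3 * ρ < δ0)
    (hQ : ∀ u v, 0 ≤ Q u v) (hQadj : ∀ u v, 0 < Q u v → G.Adj u v)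
    (S : ℕ → Finset V) (hS : ∀ j, S (j + 1) ⊆ S j) (hSm : (S m).Nonempty)
    (hSP : ∀ j, ∀ p ∈ S (j + 1), δ0 ≤ ∑ w ∈ S j, Q p w)
    (hSM : ∀ p, ∀ j i : ℕ, j + i ≤ m + 1 → 2 ≤ j + i → MQ G Q j i p p ≤ 1 / 2 * ρ ^ m) :
    Nonempty (T ↪g G) := by
  obtain ⟨v0, hv0⟩ := hSm
  obtain ⟨δ, hδ⟩ : ∃ δ : ℕ → ℝ, δ = fun n => 1 / 2 * ρ ^ (m + 1 - n) := ⟨_, rfl⟩
  have hδpos : ∀ n, 0 < δ n := by intro n; rw [hδ]; positivity
  have hδlt : ∀ n, δ n < 1 := by
    intro n
    rw [hδ]
    have := pow_le_one₀ hρ0.le hρ1 (n := m + 1 - n)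
    simp only
    linarith
  have hδstep : ∀ n, n < m + 1 → δ n = ρ * δ (n + 1) := by
    intro n hn
    rw [hδ]
    simp only
    have : m + 1 - n = (m + 1 - (n + 1)) + 1 := by omega
    rw [this, pow_succ]
    ring
  have hδmono : ∀ n, n < m + 1 → δ n ≤ δ (n + 1) := by
    intro n hn
    rw [hδstep n hn]
    exact mul_le_of_le_one_left (hδpos _).le hρ1
  have hδ1 : ∀ n, 1 ≤ n → 1 / 2 * ρ ^ m ≤ δ n := by
    intro n hn
    rw [hδ]
    simp only
    have := pow_le_pow_of_le_one hρ0.le hρ1 (show m + 1 - n ≤ m by omega)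
    linarith
  have hMn : ∀ j i s w, 0 ≤ MQ G Q j i s w := fun j i s w => MQ_nonneg hQ j i s w
  obtain ⟨f, hf1, _, hf3⟩ := Pool.Agent.Y394.AT.tree_embed G
    (fun n A => (∀ s ∈ A, s ∈ S (m + 1 - n)) ∧ ∀ s ∈ A, ∀ s' ∈ A, s ≠ s' → ∀ j i : ℕ, 1 ≤ j + i →
      j + i ≤ m + 1 - n → MQ G Q j i s s' ≤ δ n) (m + 1)
    ⟨v0, by
      constructor
      · intro s hs
        rw [Finset.mem_singleton] at hs
        rw [hs]
        exact hv0
      · intro s hs s' hs' hss
        rw [Finset.mem_singleton] at hs hs'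
        exact absurd (hs.trans hs'.symm) hss⟩
    (by
      intro n hn1 hnm A hA hInv p hp
      obtain ⟨hI1, hI2⟩ := hInv
      have e1 : m + 1 - n = (m - n) + 1 := by omega
      have hpS := hI1 p hp
      rw [e1] at hpS
      obtain ⟨Idx, hIdx⟩ : ∃ Idx : Finset (V × (ℕ × ℕ)),
        Idx = (A ×ˢ (range (m + 1) ×ˢ range (m + 1))).filter
          (fun x => x.2.1 + x.2.2 ≤ m - n ∧ (x.1 ≠ p ∨ 1 ≤ x.2.1 + x.2.2)) := ⟨_, rfl⟩
      have hIcard : (Idx.card : ℝ) ≤ ((m : ℝ) + 1) ^ 3 := by
        have h1 : Idx.card ≤ (A ×ˢ (range (m + 1) ×ˢ range (m + 1))).card := by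
          rw [hIdx]
          exact Finset.card_filter_le _ _
        rw [Finset.card_product, Finset.card_product, Finset.card_range, hA] at h1
        have h2 : n * ((m + 1) * (m + 1)) ≤ (m + 1) ^ 3 := by
          have : n ≤ m + 1 := by omega
          calc n * ((m + 1) * (m + 1)) ≤ (m + 1) * ((m + 1) * (m + 1)) :=
                Nat.mul_le_mul_right _ this
            _ = (m + 1) ^ 3 := by ring
        have h3 := h1.trans h2
        exact_mod_cast h3
      have hmean : ∀ x ∈ Idx, ∑ w, Q p w * MQ G Q x.2.1 x.2.2 x.1 w ≤ δ n := by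
        intro x hx
        rw [hIdx, Finset.mem_filter, Finset.mem_product, Finset.mem_product] at hx
        obtain ⟨⟨hxS, hx1, hx2⟩, hx3, hx4⟩ := hx
        rw [MQ_avg]
        by_cases hxp : x.1 = p
        · rw [hxp]
          refine le_trans (hSM p _ _ (by omega) ?_) (hδ1 n hn1)
          rcases hx4 with h | h
          · exact absurd hxp h
          · omega
        · exact hI2 x.1 hxS p hp hxp _ _ (by omega) (by omega)
      have hex : ∃ w ∈ S (m - n), 0 < Q p w ∧
          ∀ x ∈ Idx, MQ G Q x.2.1 x.2.2 x.1 w ≤ δ (n + 1) := by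
        by_contra hno
        push Not at hno
        have h1 : ∀ w ∈ S (m - n), δ (n + 1) * Q p w ≤
            ∑ x ∈ Idx, Q p w * MQ G Q x.2.1 x.2.2 x.1 w := by
          intro w hw
          have hPn := hQ p w
          rcases eq_or_lt_of_le hPn with h0 | h0
          · rw [← h0]
            simp
          · obtain ⟨x, hx, hx2⟩ := hno w hw h0
            have h2 : Q p w * MQ G Q x.2.1 x.2.2 x.1 w ≤
                ∑ x ∈ Idx, Q p w * MQ G Q x.2.1 x.2.2 x.1 w :=
              Finset.single_le_sum (f := fun x : V × (ℕ × ℕ) =>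
                Q p w * MQ G Q x.2.1 x.2.2 x.1 w)
                (fun y _ => mul_nonneg hPn (hMn _ _ _ _)) hx
            refine le_trans ?_ h2
            rw [mul_comm]
            exact mul_le_mul_of_nonneg_left hx2.le hPn
        have h2 := Finset.sum_le_sum h1
        rw [← Finset.mul_sum, Finset.sum_comm] at h2
        have h3 : ∑ x ∈ Idx, ∑ w ∈ S (m - n), Q p w * MQ G Q x.2.1 x.2.2 x.1 w ≤
            ∑ x ∈ Idx, δ n := by
          apply Finset.sum_le_sum
          intro x hx
          refine le_trans ?_ (hmean x hx)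
          exact Finset.sum_le_sum_of_subset_of_nonneg (Finset.subset_univ _)
            (fun w _ _ => mul_nonneg (hQ p w) (hMn _ _ _ _))
        rw [Finset.sum_const, nsmul_eq_mul] at h3
        have h4 := hSP (m - n) p hpS
        have h5 := mul_le_mul_of_nonneg_left h4 (hδpos (n + 1)).le
        have h6 : (Idx.card : ℝ) * δ n ≤ ((m : ℝ) + 1) ^ 3 * δ n :=
          mul_le_mul_of_nonneg_right hIcard (hδpos n).le
        rw [hδstep n hnm] at h6 h3
        have h7 : ((m : ℝ) + 1) ^ 3 * (ρ * δ (n + 1)) < δ (n + 1) * δ0 := by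
          have := mul_lt_mul_of_pos_right hρ (hδpos (n + 1))
          linarith
        linarith
      obtain ⟨w, hwU, hPw, hw⟩ := hex
      have hadj : G.Adj p w := hQadj p w hPw
      have hmem : ∀ s ∈ A, ∀ j i : ℕ, j + i ≤ m - n → (s ≠ p ∨ 1 ≤ j + i) →
          MQ G Q j i s w ≤ δ (n + 1) := by
        intro s hs j i hji hor
        have := hw (s, (j, i)) (by
          rw [hIdx, Finset.mem_filter, Finset.mem_product, Finset.mem_product, Finset.mem_range,
            Finset.mem_range]
          exact ⟨⟨hs, by simp only; omega, by simp only; omega⟩, hji, hor⟩)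
        exact this
      have hnon : ∀ s ∈ A, s ≠ p → s ≠ w ∧ ¬ G.Adj s w := by
        intro s hs hsp
        have h1 := hmem s hs 0 0 (by omega) (Or.inl hsp)
        rw [MQ_zero] at h1
        exact cl_lt h1 (hδlt _)
      refine ⟨w, ?_, hadj, fun s hs hsp => (hnon s hs hsp).2, ?_, ?_⟩
      · intro hwS
        by_cases hwp : w = p
        · rw [hwp] at hadj
          exact G.loopless.irrefl p hadj
        · exact (hnon w hwS hwp).1 rfl
      · intro s hs
        have e2 : m + 1 - (n + 1) = m - n := by omega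
        rw [e2]
        rw [Finset.mem_insert] at hs
        rcases hs with rfl | hs
        · exact hwU
        · have h1 := hI1 s hs
          rw [e1] at h1
          exact hS _ h1
      · intro s hs s' hs' hss j i hji1 hji2
        rw [Finset.mem_insert] at hs hs'
        rcases hs with hs | hs
        · rcases hs' with hs' | hs'
          · exact absurd (hs.trans hs'.symm) hss
          · rw [hs, MQ_comm]
            exact hmem s' hs' i j (by omega) (Or.inr (by omega))
        · rcases hs' with hs' | hs'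
          · rw [hs']
            exact hmem s hs j i (by omega) (Or.inr hji1)
          · exact (hI2 s hs s' hs' hss j i hji1 (by omega)).trans (hδmono n hnm))
    m (by omega) (Fin (m + 1)) T hT (by simp)
  exact ⟨⟨⟨f, hf1⟩, fun {a b} => (hf3 a b).symm⟩⟩

end gen

section down

variable {V : Type} [Fintype V] [DecidableEq V] {G : SimpleGraph V} {x : V → ℝ} {L R : ℝ}

open Classical in
/-- the downward walk -/
noncomputable def dn (G : SimpleGraph V) (x : V → ℝ) (L R : ℝ) : Matrix V V ℝ :=
  Matrix.of fun u v => if G.Adj u v ∧ R * x v ≤ x u then x v / (L * x u) else 0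

theorem dn_nonneg (hx : ∀ v, 0 ≤ x v) (hL : 0 < L) (u v : V) : 0 ≤ dn G x L R u v := by
  unfold dn
  simp only [Matrix.of_apply]
  split_ifs
  · exact div_nonneg (hx v) (mul_nonneg hL.le (hx u))
  · exact le_refl _

theorem dn_adj (u v : V) (h : 0 < dn G x L R u v) : G.Adj u v := by
  unfold dn at h
  simp only [Matrix.of_apply] at h
  split_ifs at h with h1
  · exact h1.1
  · exact absurd h (lt_irrefl _)

theorem dn_le (hx : ∀ v, 0 ≤ x v) (hL : 0 < L) (u v : V) : dn G x L R u v ≤ x v / (L * x u) := by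
  unfold dn
  simp only [Matrix.of_apply]
  split_ifs
  · exact le_refl _
  · exact div_nonneg (hx v) (mul_nonneg hL.le (hx u))

theorem dn_row (hx : ∀ v, 0 ≤ x v) (hL : 0 < L) (hxL : ∀ v, ∑ w ∈ nb G v, x w ≤ L * x v) (u : V) :
    ∑ v, dn G x L R u v ≤ 1 := by
  classical
  have h1 : ∀ v, dn G x L R u v ≤ if v ∈ nb G u then x v / (L * x u) else 0 := by
    intro v
    unfold dn
    simp only [Matrix.of_apply]
    have h0 : 0 ≤ x v / (L * x u) := div_nonneg (hx v) (mul_nonneg hL.le (hx u))
    by_cases hadj : G.Adj u v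
    · rw [if_pos ((mem_nb G u v).2 hadj)]
      split_ifs
      · exact le_refl _
      · exact h0
    · rw [if_neg (fun h => hadj h.1), if_neg (fun h => hadj ((mem_nb G u v).1 h))]
  refine (Finset.sum_le_sum (fun v _ => h1 v)).trans ?_
  rw [← Finset.sum_filter, Finset.filter_mem_eq_inter, Finset.univ_inter, ← Finset.sum_div]
  exact div_le_one_of_le₀ (hxL u) (mul_nonneg hL.le (hx u))

/-- the walk goes down -/
theorem dn_down (hx : ∀ v, 0 ≤ x v) (hL : 0 < L) (hR : 1 ≤ R) (n : ℕ) :
    ∀ p w : V, (dn G x L R ^ (n + 1)) p w * x w ≤ (dn G x L R ^ (n + 1)) p w * (x p / R) := by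
  have hR0 : 0 < R := by linarith
  have hone : ∀ u v : V, dn G x L R u v * x v ≤ dn G x L R u v * (x u / R) := by
    intro u v
    have h0 := dn_nonneg (G := G) (R := R) hx hL u v
    unfold dn at h0 ⊢
    simp only [Matrix.of_apply] at h0 ⊢
    split_ifs at h0 ⊢ with h1
    · apply mul_le_mul_of_nonneg_left _ h0
      rw [le_div_iff₀ hR0]
      linarith [h1.2]
    · simp
  induction n with
  | zero =>
    intro p w
    rw [zero_add, pow_one]
    exact hone p w
  | succ n ih =>
    intro p w
    rw [Qn_succ (n + 1) p w, Finset.sum_mul, Finset.sum_mul]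
    apply Finset.sum_le_sum
    intro y _
    have h1 := hone y w
    have h2 := ih p y
    have h3 := Qn_nonneg (Q := dn G x L R) (dn_nonneg hx hL) (n + 1) p y
    have h4 := dn_nonneg (G := G) (R := R) hx hL y w
    calc (dn G x L R ^ (n + 1)) p y * dn G x L R y w * x w =
          (dn G x L R ^ (n + 1)) p y * (dn G x L R y w * x w) := by ring
      _ ≤ (dn G x L R ^ (n + 1)) p y * (dn G x L R y w * (x y / R)) :=
          mul_le_mul_of_nonneg_left h1 h3
      _ ≤ (dn G x L R ^ (n + 1)) p y * (dn G x L R y w * x y) := by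
          apply mul_le_mul_of_nonneg_left _ h3
          apply mul_le_mul_of_nonneg_left _ h4
          exact div_le_self (hx y) hR
      _ = ((dn G x L R ^ (n + 1)) p y * x y) * dn G x L R y w := by ring
      _ ≤ ((dn G x L R ^ (n + 1)) p y * (x p / R)) * dn G x L R y w :=
          mul_le_mul_of_nonneg_right h2 h4
      _ = (dn G x L R ^ (n + 1)) p y * dn G x L R y w * (x p / R) := by ring

open Classical in
/-- pointwise bound for the walk -/
theorem dn_point (hx : ∀ v, 0 ≤ x v) (hL : 0 < L) (hR : 1 ≤ R)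
    (hxL : ∀ v, ∑ w ∈ nb G v, x w ≤ L * x v) (n : ℕ) :
    ∀ p w : V, 0 < x p → (dn G x L R ^ (n + 1)) p w ≤ x w / (x p * L * R ^ n) := by
  have hR0 : 0 < R := by linarith
  induction n with
  | zero =>
    intro p w hp
    rw [zero_add, pow_one, pow_zero, mul_one]
    refine (dn_le hx hL p w).trans (le_of_eq ?_)
    rw [mul_comm L]
  | succ n ih =>
    intro p w hp
    rw [Qn_succ (n + 1) p w]
    rcases eq_or_lt_of_le (hx w) with hw | hw
    · have h1 : ∀ y, (dn G x L R ^ (n + 1)) p y * dn G x L R y w = 0 := by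
        intro y
        have h2 := dn_le (G := G) (R := R) hx hL y w
        have h3 := dn_nonneg (G := G) (R := R) hx hL y w
        rw [← hw, zero_div] at h2
        rw [le_antisymm h2 h3, mul_zero]
      rw [Finset.sum_congr rfl (fun y _ => h1 y), ← hw]
      simp
    · -- the vertices above `w`
      have hcount : ∑ y, (if G.Adj y w ∧ R * x w ≤ x y then (1 : ℝ) else 0) ≤ L / R := by
        have h1 : ∀ y, (if G.Adj y w ∧ R * x w ≤ x y then (1 : ℝ) else 0) ≤
            (if y ∈ nb G w then x y / (R * x w) else 0) := by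
          intro y
          by_cases hadj : G.Adj y w
          · rw [if_pos ((mem_nb G w y).2 hadj.symm)]
            split_ifs with h2
            · rw [le_div_iff₀ (by positivity)]
              linarith [h2.2]
            · have := hx y
              positivity
          · rw [if_neg (fun h => hadj h.1), if_neg (fun h => hadj ((mem_nb G w y).1 h).symm)]
        refine (Finset.sum_le_sum (fun y _ => h1 y)).trans ?_
        rw [← Finset.sum_filter, Finset.filter_mem_eq_inter, Finset.univ_inter, ← Finset.sum_div,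
          div_le_div_iff₀ (by positivity) hR0]
        have := hxL w
        nlinarith
      have h2 : ∀ y, (dn G x L R ^ (n + 1)) p y * dn G x L R y w ≤
          (x w / (x p * L * R ^ n * L)) * (if G.Adj y w ∧ R * x w ≤ x y then (1 : ℝ) else 0) := by
        intro y
        by_cases hyw : G.Adj y w ∧ R * x w ≤ x y
        · rw [if_pos hyw, mul_one]
          have hy : 0 < x y := by
            have := hyw.2
            have : 0 < R * x w := by positivity
            linarith
          have h3 := ih p y hp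
          have h4 : dn G x L R y w = x w / (L * x y) := by
            unfold dn
            simp only [Matrix.of_apply]
            rw [if_pos hyw]
          rw [h4]
          calc (dn G x L R ^ (n + 1)) p y * (x w / (L * x y)) ≤
                (x y / (x p * L * R ^ n)) * (x w / (L * x y)) :=
                mul_le_mul_of_nonneg_right h3 (by positivity)
            _ = x w / (x p * L * R ^ n * L) := by
                field_simp
        · rw [if_neg hyw, mul_zero]
          have h4 : dn G x L R y w = 0 := by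
            unfold dn
            simp only [Matrix.of_apply]
            rw [if_neg hyw]
          rw [h4, mul_zero]
      refine (Finset.sum_le_sum (fun y _ => h2 y)).trans ?_
      rw [← Finset.mul_sum]
      calc x w / (x p * L * R ^ n * L) *
            ∑ y, (if G.Adj y w ∧ R * x w ≤ x y then (1 : ℝ) else 0) ≤
            x w / (x p * L * R ^ n * L) * (L / R) :=
            mul_le_mul_of_nonneg_left hcount (by positivity)
        _ = x w / (x p * L * R ^ (n + 1)) := by
            rw [pow_succ]
            field_simp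

/-- all generalised codegrees of a vertex with itself are small -/
theorem dn_M (hx : ∀ v, 0 ≤ x v) (hL : 1 ≤ L) (hR : 1 ≤ R)
    (hxL : ∀ v, ∑ w ∈ nb G v, x w ≤ L * x v) (p : V) (j i : ℕ) (hji : 2 ≤ j + i) :
    MQ G (dn G x L R) j i p p ≤ 2 / R := by
  classical
  have hR0 : 0 < R := by linarith
  have hL0 : 0 < L := by linarith
  have hQn := fun n u v => Qn_nonneg (Q := dn G x L R) (dn_nonneg hx hL0) n u v
  have hpow : ∀ n : ℕ, 1 ≤ R ^ n := fun n => one_le_pow₀ hR
  rcases eq_or_lt_of_le (hx p) with hp | hp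
  · -- no step from `p`
    have h1 : ∀ n w, (dn G x L R ^ (n + 1)) p w = 0 := by
      intro n w
      rw [Qn_succ' n p w]
      apply Finset.sum_eq_zero
      intro y _
      have h2 := dn_le (G := G) (R := R) hx hL0 p y
      have h3 := dn_nonneg (G := G) (R := R) hx hL0 p y
      rw [← hp, mul_zero, div_zero] at h2
      rw [le_antisymm h2 h3, zero_mul]
    have h4 : MQ G (dn G x L R) j i p p = 0 := by
      unfold MQ
      apply Finset.sum_eq_zero
      intro y _
      apply Finset.sum_eq_zero
      intro w _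
      rcases Nat.eq_zero_or_pos j with hj | hj
      · obtain ⟨i', hi'⟩ : ∃ i', i = i' + 1 := ⟨i - 1, by omega⟩
        rw [hi', h1]
        ring
      · obtain ⟨j', hj'⟩ : ∃ j', j = j' + 1 := ⟨j - 1, by omega⟩
        rw [hj', h1]
        ring
    rw [h4]
    positivity
  have hclsum : ∀ y, ∑ w, x w * cl G y w ≤ 2 * (L * x y) := by
    intro y
    have h1 : ∀ w, x w * cl G y w ≤ (if w ∈ nb G y then x w else 0) + (if y = w then x w else 0) := by
      intro w
      have := hx w
      unfold cl
      by_cases h2 : G.Adj y w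
      · rw [if_pos (Or.inr h2), if_pos ((mem_nb G y w).2 h2)]
        split_ifs <;> linarith
      · rw [if_neg (fun h => h2 ((mem_nb G y w).1 h))]
        by_cases h3 : y = w
        · rw [if_pos (Or.inl h3), if_pos h3]
          linarith
        · rw [if_neg (by tauto), if_neg h3]
          linarith
    refine (Finset.sum_le_sum (fun w _ => h1 w)).trans ?_
    rw [Finset.sum_add_distrib, Finset.sum_ite_eq, ← Finset.sum_filter,
      Finset.filter_mem_eq_inter, Finset.univ_inter, if_pos (Finset.mem_univ _)]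
    have h2 := hxL y
    have h3 : x y ≤ L * x y := le_mul_of_one_le_left (hx y) hL
    linarith
  -- the bound for `i ≥ 1` steps ending next to a vertex
  have hend : ∀ (n : ℕ) (y : V), ∑ w, (dn G x L R ^ (n + 1)) p w * cl G y w ≤
      2 * x y / (x p * R ^ n) := by
    intro n y
    have h1 : ∀ w, (dn G x L R ^ (n + 1)) p w * cl G y w ≤
        (1 / (x p * L * R ^ n)) * (x w * cl G y w) := by
      intro w
      have h2 := mul_le_mul_of_nonneg_right (dn_point hx hL0 hR hxL n p w hp) (cl_nonneg (G := G) y w)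
      refine h2.trans (le_of_eq ?_)
      ring
    refine (Finset.sum_le_sum (fun w _ => h1 w)).trans ?_
    rw [← Finset.mul_sum]
    have hRn : 0 < R ^ n := by positivity
    calc 1 / (x p * L * R ^ n) * ∑ w, x w * cl G y w ≤
          1 / (x p * L * R ^ n) * (2 * (L * x y)) :=
          mul_le_mul_of_nonneg_left (hclsum y) (by positivity)
      _ = 2 * x y / (x p * R ^ n) := by
          field_simp
  have hmix : ∀ (j' n : ℕ), MQ G (dn G x L R) (j' + 1) (n + 1) p p ≤ 2 / R := by
    intro j' n
    unfold MQ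
    have hRn : 0 < R ^ n := by positivity
    have h1 : ∀ y, ∑ w, (dn G x L R ^ (j' + 1)) p y * (dn G x L R ^ (n + 1)) p w * cl G y w ≤
        (dn G x L R ^ (j' + 1)) p y * (2 / R) := by
      intro y
      have e1 : ∑ w, (dn G x L R ^ (j' + 1)) p y * (dn G x L R ^ (n + 1)) p w * cl G y w =
          (dn G x L R ^ (j' + 1)) p y * ∑ w, (dn G x L R ^ (n + 1)) p w * cl G y w := by
        rw [Finset.mul_sum]
        apply Finset.sum_congr rfl
        intro w _
        ring
      rw [e1]
      calc (dn G x L R ^ (j' + 1)) p y * ∑ w, (dn G x L R ^ (n + 1)) p w * cl G y w ≤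
            (dn G x L R ^ (j' + 1)) p y * (2 * x y / (x p * R ^ n)) :=
            mul_le_mul_of_nonneg_left (hend n y) (hQn _ _ _)
        _ = ((dn G x L R ^ (j' + 1)) p y * x y) * (2 / (x p * R ^ n)) := by ring
        _ ≤ ((dn G x L R ^ (j' + 1)) p y * (x p / R)) * (2 / (x p * R ^ n)) :=
            mul_le_mul_of_nonneg_right (dn_down hx hL0 hR j' p y) (by positivity)
        _ = (dn G x L R ^ (j' + 1)) p y * (2 / (R * R ^ n)) := by
            field_simp
        _ ≤ (dn G x L R ^ (j' + 1)) p y * (2 / R) := by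
            apply mul_le_mul_of_nonneg_left _ (hQn _ _ _)
            apply div_le_div_of_nonneg_left (by norm_num) hR0
            exact le_mul_of_one_le_right hR0.le (hpow n)
    refine (Finset.sum_le_sum (fun y _ => h1 y)).trans ?_
    rw [← Finset.sum_mul]
    have h2 := Qn_row (Q := dn G x L R) (dn_nonneg hx hL0) (dn_row hx hL0 hxL) (j' + 1) p
    calc (∑ y, (dn G x L R ^ (j' + 1)) p y) * (2 / R) ≤ 1 * (2 / R) :=
          mul_le_mul_of_nonneg_right h2 (by positivity)
      _ = 2 / R := one_mul _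
  have hzero : ∀ n : ℕ, MQ G (dn G x L R) 0 (n + 2) p p ≤ 2 / R := by
    intro n
    rw [MQ_zero_left]
    refine (hend (n + 1) p).trans ?_
    have e1 : 2 * x p / (x p * R ^ (n + 1)) = 2 / R ^ (n + 1) := by
      field_simp
    rw [e1, pow_succ]
    apply div_le_div_of_nonneg_left (by norm_num) hR0
    exact le_mul_of_one_le_left hR0.le (hpow n)
  rcases Nat.eq_zero_or_pos j with hj | hj
  · obtain ⟨n, hn⟩ : ∃ n, i = n + 2 := ⟨i - 2, by omega⟩
    rw [hj, hn]
    exact hzero n
  · rcases Nat.eq_zero_or_pos i with hi | hi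
    · obtain ⟨n, hn⟩ : ∃ n, j = n + 2 := ⟨j - 2, by omega⟩
      rw [MQ_comm, hi, hn]
      exact hzero n
    · obtain ⟨j', hj'⟩ : ∃ j', j = j' + 1 := ⟨j - 1, by omega⟩
      obtain ⟨n, hn⟩ : ∃ n, i = n + 1 := ⟨i - 1, by omega⟩
      rw [hj', hn]
      exact hmix j' n

end down

end Pool.Agent.J4.H79.GW
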