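import Pool.Agent.J4.H79.GW.Down

set_option autoImplicit false
set_option linter.unusedSectionVars false

/-!
# The largest eigenvalue is at most a constant times the absolute value of the smallest one
-/

namespace Pool.Agent.J4.H79.GW

open Finset Pool.Agent.R50.MC Pool.Agent.Y394.AT

open Classical in
/-- Hoffman's inequality with edges inside the classes. -/
theorem hoffman_cls {V : Type} [Fintype V] {G : SimpleGraph V} {lam L : ℝ}
    (hq : ∀ f : V → ℝ, -lam * N2 f ≤ q G f) (x : V → ℝ) (hxN : N2 x = 1) (hqx0 : q G x = L)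
    (n : ℕ) (hn : 1 ≤ n) (cls : V → ℕ) (hclsn : ∀ v, cls v ∈ Finset.range n) :
    L ≤ (n - 1) * lam + n * ∑ u, ∑ v, if G.Adj u v then
      (if cls u = cls v then x u * x v else 0) else 0 := by
  have hn0 : (0 : ℝ) < n := by exact_mod_cast hn
  have hn1 : (1 : ℝ) ≤ n := by exact_mod_cast hn
  obtain ⟨W0, hW0⟩ : ∃ W0 : ℝ, W0 = ∑ u, ∑ v, if G.Adj u v then
    (if cls u = cls v then x u * x v else 0) else 0 := ⟨_, rfl⟩
  rw [← hW0]
  have hone : ∀ v, ∑ j ∈ Finset.range n, (if cls v = j then (1 : ℝ) else 0) = 1 := by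
    intro v
    rw [Finset.sum_ite_eq, if_pos (hclsn v)]
  have htwo : ∀ u v, ∑ j ∈ Finset.range n, (if cls u = j then (1 : ℝ) else 0) *
      (if cls v = j then 1 else 0) = if cls u = cls v then 1 else 0 := by
    intro u v
    have h1 : ∀ j, (if cls u = j then (1 : ℝ) else 0) * (if cls v = j then 1 else 0) =
        if cls u = j then (if cls u = cls v then 1 else 0) else 0 := by
      intro j
      by_cases hu : cls u = j
      · rw [if_pos hu, if_pos hu, one_mul, hu]
        by_cases hv : cls v = j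
        · rw [if_pos hv, if_pos hv.symm]
        · rw [if_neg hv, if_neg (fun h => hv h.symm)]
      · rw [if_neg hu, if_neg hu, zero_mul]
    rw [Finset.sum_congr rfl (fun j _ => h1 j), Finset.sum_ite_eq, if_pos (hclsn u)]
  have hprod : ∀ u v, ∑ j ∈ Finset.range n, (1 - n * (if cls u = j then (1 : ℝ) else 0)) *
      (1 - n * (if cls v = j then (1 : ℝ) else 0)) =
      (n : ℝ) ^ 2 * (if cls u = cls v then 1 else 0) - n := by
    intro u v
    have h1 : ∀ j, (1 - n * (if cls u = j then (1 : ℝ) else 0)) *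
        (1 - n * (if cls v = j then (1 : ℝ) else 0)) =
        1 - n * (if cls u = j then (1 : ℝ) else 0) - n * (if cls v = j then (1 : ℝ) else 0) +
        (n : ℝ) ^ 2 * ((if cls u = j then (1 : ℝ) else 0) * (if cls v = j then 1 else 0)) := by
      intro j
      ring
    rw [Finset.sum_congr rfl (fun j _ => h1 j), Finset.sum_add_distrib, Finset.sum_sub_distrib,
      Finset.sum_sub_distrib, ← Finset.mul_sum, ← Finset.mul_sum, ← Finset.mul_sum, hone, hone,
      htwo, Finset.sum_const, Finset.card_range, nsmul_eq_mul]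
    ring
  have hfj : ∑ j ∈ Finset.range n, q G (fun v => x v * (1 - n * (if cls v = j then 1 else 0))) =
      (n : ℝ) ^ 2 * W0 - n * L := by
    have hqx : ∑ u, ∑ v, (if G.Adj u v then x u * x v else 0) = L := hqx0
    unfold q bb
    rw [Finset.sum_comm]
    have h1 : ∀ u, ∑ j ∈ Finset.range n, ∑ v, (if G.Adj u v then
        x u * (1 - n * (if cls u = j then (1 : ℝ) else 0)) *
        (x v * (1 - n * (if cls v = j then (1 : ℝ) else 0))) else 0) =
        ∑ v, ((n : ℝ) ^ 2 * (if G.Adj u v then (if cls u = cls v then x u * x v else 0) else 0) -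
          n * (if G.Adj u v then x u * x v else 0)) := by
      intro u
      rw [Finset.sum_comm]
      apply Finset.sum_congr rfl
      intro v _
      by_cases huv : G.Adj u v
      · simp only [if_pos huv]
        have h2 : ∀ j, x u * (1 - n * (if cls u = j then (1 : ℝ) else 0)) *
            (x v * (1 - n * (if cls v = j then (1 : ℝ) else 0))) = x u * x v *
            ((1 - n * (if cls u = j then (1 : ℝ) else 0)) *
            (1 - n * (if cls v = j then (1 : ℝ) else 0))) := by
          intro j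
          ring
        rw [Finset.sum_congr rfl (fun j _ => h2 j), ← Finset.mul_sum, hprod]
        split_ifs
        · ring
        · ring
      · simp only [if_neg huv]
        simp
    rw [Finset.sum_congr rfl (fun u _ => h1 u)]
    simp only [Finset.sum_sub_distrib, ← Finset.mul_sum]
    rw [hqx, ← hW0]
  have hNj : ∑ j ∈ Finset.range n, N2 (fun v => x v * (1 - n * (if cls v = j then 1 else 0))) =
      (n : ℝ) ^ 2 - n := by
    unfold N2
    rw [Finset.sum_comm]
    have h1 : ∀ v, ∑ j ∈ Finset.range n, (x v * (1 - n * (if cls v = j then (1 : ℝ) else 0))) ^ 2 =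
        x v ^ 2 * ((n : ℝ) ^ 2 - n) := by
      intro v
      have h2 : ∀ j, (x v * (1 - n * (if cls v = j then (1 : ℝ) else 0))) ^ 2 =
          x v ^ 2 * ((1 - n * (if cls v = j then (1 : ℝ) else 0)) *
            (1 - n * (if cls v = j then (1 : ℝ) else 0))) := by
        intro j
        ring
      rw [Finset.sum_congr rfl (fun j _ => h2 j), ← Finset.mul_sum, hprod, if_pos rfl]
      ring
    rw [Finset.sum_congr rfl (fun v _ => h1 v), ← Finset.sum_mul]
    have h3 : ∑ v, x v ^ 2 = 1 := hxN
    rw [h3, one_mul]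
  have h1 := Finset.sum_le_sum (fun j (_ : j ∈ Finset.range n) =>
    hq (fun v => x v * (1 - n * (if cls v = j then 1 else 0))))
  rw [← Finset.mul_sum, hNj, hfj] at h1
  have h2 : (n : ℝ) * L ≤ n * ((n - 1) * lam + n * W0) := by nlinarith
  exact le_of_mul_le_mul_left h2 hn0

open Classical in
/-- the nested sets -/
noncomputable def nest {V : Type} [Fintype V] (Q : Matrix V V ℝ) (δ : ℝ) : ℕ → Finset V
  | 0 => Finset.univ
  | j + 1 => (nest Q δ j).filter fun v => δ ≤ ∑ w ∈ nest Q δ j, Q v w

theorem nest_zero {V : Type} [Fintype V] (Q : Matrix V V ℝ) (δ : ℝ) :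
    nest Q δ 0 = Finset.univ := rfl

theorem mem_nest_succ {V : Type} [Fintype V] (Q : Matrix V V ℝ) (δ : ℝ) (j : ℕ) (v : V) :
    v ∈ nest Q δ (j + 1) ↔ v ∈ nest Q δ j ∧ δ ≤ ∑ w ∈ nest Q δ j, Q v w := by
  classical
  rw [nest, Finset.mem_filter]

/-- **The largest eigenvalue is at most a constant times the absolute value of the smallest.** -/
theorem top2 (m : ℕ) (T : SimpleGraph (Fin (m + 1))) (hT : T.IsTree) (k : ℕ) :
    ∃ C : ℝ, 1 ≤ C ∧ ∀ (V : Type) [Fintype V] (G : SimpleGraph V), G.CliqueFree k →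
      IsEmpty (T ↪g G) → ∀ lam : ℝ, (∀ f : V → ℝ, -lam * N2 f ≤ q G f) →
      ∀ f : V → ℝ, q G f ≤ C * lam * N2 f := by
  classical
  obtain ⟨c, qq, hc0, hc1, hst⟩ := struct m T hT k
  have hm0 : (0 : ℝ) < (m : ℝ) + 1 := by positivity
  have hm1 : (1 : ℝ) ≤ (m : ℝ) + 1 := by
    have : (0 : ℝ) ≤ m := Nat.cast_nonneg m
    linarith
  obtain ⟨δ, hδ⟩ : ∃ δ : ℝ, δ = 1 / (32 * ((m : ℝ) + 1)) := ⟨_, rfl⟩
  have hδ0 : 0 < δ := by rw [hδ]; positivity
  have hδ1 : δ ≤ 1 := by
    rw [hδ, div_le_one (by positivity)]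
    linarith
  obtain ⟨ρ, hρ⟩ : ∃ ρ : ℝ, ρ = δ / (2 * ((m : ℝ) + 1) ^ 3) := ⟨_, rfl⟩
  have hρ0 : 0 < ρ := by rw [hρ]; positivity
  have hm3 : (1 : ℝ) ≤ ((m : ℝ) + 1) ^ 3 := one_le_pow₀ hm1
  have hρ1 : ρ ≤ 1 := by
    rw [hρ, div_le_one (by positivity)]
    linarith
  have hρδ : ((m : ℝ) + 1) ^ 3 * ρ < δ := by
    have : ((m : ℝ) + 1) ^ 3 * ρ = δ / 2 := by
      rw [hρ]
      field_simp
    rw [this]
    linarith
  obtain ⟨R, hR⟩ : ∃ R : ℝ, R = 4 / ρ ^ m := ⟨_, rfl⟩
  have hρm : 0 < ρ ^ m := by positivity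
  have hρm1 : ρ ^ m ≤ 1 := pow_le_one₀ hρ0.le hρ1
  have hR0 : 0 < R := by rw [hR]; positivity
  have hR1 : 1 ≤ R := by
    rw [hR, le_div_iff₀ hρm]
    linarith
  have hR2 : 2 / R = 1 / 2 * ρ ^ m := by
    rw [hR]
    field_simp
    norm_num
  obtain ⟨γ, hγ⟩ : ∃ γ : ℝ, γ = 1 / (8 * ((m : ℝ) + 1) * R) := ⟨_, rfl⟩
  have hγ0 : 0 < γ := by rw [hγ]; positivity
  have hγ1 : γ ≤ 1 := by
    rw [hγ, div_le_one (by positivity)]
    nlinarith
  obtain ⟨cc, hcc⟩ : ∃ cc : ℝ, cc = c * γ ^ qq := ⟨_, rfl⟩
  have hcc0 : 0 < cc := by rw [hcc]; positivity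
  refine ⟨1 / cc + 8 * ((m : ℝ) + 1), by
    have : 0 < 1 / cc := by positivity
    linarith, ?_⟩
  intro V _ G hfree hemp lam hq f
  rcases isEmpty_or_nonempty V with hV | ⟨⟨v0⟩⟩
  · have h1 : q G f = 0 := by unfold q bb; simp
    have h2 : N2 f = 0 := by unfold N2; simp
    rw [h1, h2, mul_zero]
  have hlam := lam_nonneg hq v0
  obtain ⟨L, x, hx0, hxN, hmax, heig⟩ := exists_perron (G := G) v0
  have hRHS : 0 ≤ (1 / cc + 8 * ((m : ℝ) + 1)) * lam := by positivity
  have hmain : L ≤ (1 / cc + 8 * ((m : ℝ) + 1)) * lam := by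
    rcases le_or_gt L 0 with hL0 | hL0
    · exact hL0.trans hRHS
    by_contra hcon
    push Not at hcon
    have hcase1 : lam ≤ cc * L := by
      have h1 : 1 / cc * lam ≤ L := by
        have : 0 ≤ 8 * ((m : ℝ) + 1) * lam := by positivity
        linarith
      rw [one_div, inv_mul_le_iff₀ hcc0] at h1
      exact h1
    have hcase2 : 8 * (((m : ℝ) + 1) * lam) ≤ L := by
      have : 0 ≤ 1 / cc * lam := by positivity
      linarith
    have hle : ∀ u v, G.Adj u v → x u ≤ L * x v := by
      intro u v huv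
      rw [← heig v]
      exact Finset.single_le_sum (f := x) (fun w _ => hx0 w) ((mem_nb G v u).2 huv.symm)
    have hL1 : 1 ≤ L := by
      have h1 : ∃ v, 0 < x v := by
        by_contra hno
        push Not at hno
        have h2 : N2 x = 0 := by
          unfold N2
          apply Finset.sum_eq_zero
          intro v _
          rw [le_antisymm (hno v) (hx0 v)]
          norm_num
        rw [h2] at hxN
        norm_num at hxN
      obtain ⟨v, hv⟩ := h1
      have h2 : 0 < ∑ w ∈ nb G v, x w := by
        rw [heig v]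
        positivity
      obtain ⟨w, hw, hw2⟩ : ∃ w ∈ nb G v, 0 < x w := by
        by_contra hno
        push Not at hno
        have := Finset.sum_nonpos hno
        linarith
      have hadj : G.Adj v w := (mem_nb G v w).1 hw
      have h3 := hle v w hadj
      have h4 := hle w v hadj.symm
      by_contra hlt
      push Not at hlt
      nlinarith
    have hqx : q G x = L := by
      unfold q
      rw [bb_eq]
      have : ∀ v, x v * ∑ w ∈ nb G v, x w = L * x v ^ 2 := by
        intro v
        rw [heig v]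
        ring
      rw [Finset.sum_congr rfl (fun v _ => this v), ← Finset.mul_sum]
      have h3 : ∑ v, x v ^ 2 = 1 := hxN
      rw [h3, mul_one]
    -- the downward walk
    obtain ⟨Q, hQ⟩ : ∃ Q : Matrix V V ℝ, Q = dn G x L R := ⟨_, rfl⟩
    obtain ⟨S, hS⟩ : ∃ S : ℕ → Finset V, S = nest Q δ := ⟨_, rfl⟩
    have hS0 : ∀ v, v ∈ S 0 := by
      intro v
      rw [hS, nest_zero]
      exact Finset.mem_univ v
    have hSsucc : ∀ j v, v ∈ S (j + 1) ↔ v ∈ S j ∧ δ ≤ ∑ w ∈ S j, Q v w := by
      intro j v
      rw [hS]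
      exact mem_nest_succ Q δ j v
    have hSm : S m = ∅ := by
      by_contra hne
      have hne2 : (S m).Nonempty := Finset.nonempty_iff_ne_empty.2 hne
      have hemb := embedQ (G := G) (Q := Q) m T hT hρ0 hρ1 hρδ
        (by rw [hQ]; exact dn_nonneg hx0 hL0) (by rw [hQ]; exact dn_adj) S
        (fun j v hv => ((hSsucc j v).1 hv).1) hne2
        (fun j p hp => ((hSsucc j p).1 hp).2)
        (by
          intro p j i _ hji
          rw [← hR2, hQ]
          exact dn_M hx0 hL1 hR1 (fun v => (heig v).le) p j i hji)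
      obtain ⟨e⟩ := hemb
      exact hemp.false e
    obtain ⟨cls, hcls⟩ : ∃ cls : V → ℕ, cls = fun v => Nat.findGreatest (fun j => v ∈ S j) m :=
      ⟨_, rfl⟩
    have hclsm : ∀ v, cls v ≤ m := by
      intro v
      rw [hcls]
      exact Nat.findGreatest_le m
    have hclsS : ∀ v, v ∈ S (cls v) := by
      intro v
      rw [hcls]
      exact Nat.findGreatest_spec (P := fun j => v ∈ S j) (Nat.zero_le m) (hS0 v)
    have hclsN : ∀ v, ∑ w ∈ S (cls v), Q v w < δ := by
      intro v
      by_contra hcon2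
      push Not at hcon2
      have h1 : v ∈ S (cls v + 1) := (hSsucc _ v).2 ⟨hclsS v, hcon2⟩
      rcases Nat.lt_or_ge (cls v) m with h2 | h2
      · have h3 : cls v + 1 ≤ Nat.findGreatest (fun j => v ∈ S j) m :=
          Nat.le_findGreatest (by omega) h1
        have h4 : cls v = Nat.findGreatest (fun j => v ∈ S j) m := by rw [hcls]
        omega
      · have h3 : cls v = m := le_antisymm (hclsm v) h2
        have h4 := hclsS v
        rw [h3, hSm] at h4
        exact absurd h4 (Finset.notMem_empty v)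
    have hhoff := hoffman_cls hq x hxN hqx (m + 1) (by omega) cls (fun v => by
      rw [Finset.mem_range]
      have := hclsm v
      omega)
    obtain ⟨W0, hW0⟩ : ∃ W0 : ℝ, W0 = ∑ u, ∑ v, if G.Adj u v then
      (if cls u = cls v then x u * x v else 0) else 0 := ⟨_, rfl⟩
    rw [← hW0] at hhoff
    obtain ⟨μ, hμd⟩ : ∃ μ : V → ℝ, μ = fun v => x v ^ 2 := ⟨_, rfl⟩
    have hμ0 : ∀ v, 0 ≤ μ v := by intro v; rw [hμd]; exact sq_nonneg _
    have hQ0 : ∀ u v, 0 ≤ Q u v := by rw [hQ]; exact dn_nonneg hx0 hL0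
    have hcover : ∀ u v, R * x v ≤ x u → G.Adj u v → x u * x v = L * x u ^ 2 * Q u v := by
      intro u v huv hadj
      rw [hQ]
      unfold dn
      simp only [Matrix.of_apply]
      rw [if_pos ⟨hadj, huv⟩]
      rcases eq_or_lt_of_le (hx0 u) with h | h
      · rw [← h]
        simp
      · field_simp
    have hterm : ∀ u v, (if G.Adj u v then (if cls u = cls v then x u * x v else 0) else 0) ≤
        R * b G μ u v + L * x u ^ 2 * (if v ∈ S (cls u) then Q u v else 0) +
        L * x v ^ 2 * (if u ∈ S (cls v) then Q v u else 0) := by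
      intro u v
      have hb0 := b_nonneg (G := G) hμ0 u v
      have h1 : 0 ≤ L * x u ^ 2 * (if v ∈ S (cls u) then Q u v else 0) := by
        apply mul_nonneg (by positivity)
        split_ifs
        · exact hQ0 u v
        · exact le_refl _
      have h2 : 0 ≤ L * x v ^ 2 * (if u ∈ S (cls v) then Q v u else 0) := by
        apply mul_nonneg (by positivity)
        split_ifs
        · exact hQ0 v u
        · exact le_refl _
      have h3 : 0 ≤ R * b G μ u v := mul_nonneg hR0.le hb0
      by_cases hadj : G.Adj u v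
      swap
      · rw [if_neg hadj]
        linarith
      rw [if_pos hadj]
      by_cases hc : cls u = cls v
      swap
      · rw [if_neg hc]
        linarith
      rw [if_pos hc]
      have hvS : v ∈ S (cls u) := by rw [hc]; exact hclsS v
      have huS : u ∈ S (cls v) := by rw [← hc]; exact hclsS u
      rw [if_pos hvS, if_pos huS] at *
      by_cases c1 : R * x v ≤ x u
      · rw [hcover u v c1 hadj]
        linarith
      by_cases c2 : R * x u ≤ x v
      · have := hcover v u c2 hadj.symm
        linarith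
      push Not at c1 c2
      have h4 : x u * x v ≤ R * b G μ u v := by
        unfold b
        rw [if_pos hadj, hμd]
        simp only
        have hu := hx0 u
        have hv := hx0 v
        rcases min_cases (x u ^ 2) (x v ^ 2) with ⟨h5, _⟩ | ⟨h5, _⟩
        · rw [h5]
          nlinarith
        · rw [h5]
          nlinarith
      linarith
    have hsum1 : ∑ u, ∑ v, L * x u ^ 2 * (if v ∈ S (cls u) then Q u v else 0) ≤ δ * L := by
      have h1 : ∀ u, ∑ v, L * x u ^ 2 * (if v ∈ S (cls u) then Q u v else 0) ≤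
          (L * δ) * x u ^ 2 := by
        intro u
        rw [← Finset.mul_sum, ← Finset.sum_filter, Finset.filter_mem_eq_inter, Finset.univ_inter]
        have h2 : L * x u ^ 2 * ∑ v ∈ S (cls u), Q u v ≤ L * x u ^ 2 * δ :=
          mul_le_mul_of_nonneg_left (hclsN u).le (by positivity)
        linarith
      refine (Finset.sum_le_sum (fun u _ => h1 u)).trans ?_
      rw [← Finset.mul_sum]
      have h3 : ∑ v, x v ^ 2 = 1 := hxN
      rw [h3]
      linarith
    have hsum2 : ∑ u, ∑ v, L * x v ^ 2 * (if u ∈ S (cls v) then Q v u else 0) ≤ δ * L := by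
      rw [Finset.sum_comm]
      exact hsum1
    have hW0b : W0 ≤ R * ∑ u, ∑ v, b G μ u v + 2 * (δ * L) := by
      rw [hW0]
      refine (Finset.sum_le_sum (fun u _ => Finset.sum_le_sum (fun v _ => hterm u v))).trans ?_
      simp only [Finset.sum_add_distrib]
      rw [Finset.mul_sum]
      have h1 : ∑ u, ∑ v, R * b G μ u v = ∑ u, R * ∑ v, b G μ u v :=
        Finset.sum_congr rfl fun u _ => by rw [Finset.mul_sum]
      rw [h1]
      linarith
    have hdeg : ∀ v, ∑ u, b G μ v u ≤ L * μ v := by
      intro v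
      have h1 : ∀ u, b G μ v u ≤ if u ∈ nb G v then x v * x u else 0 := by
        intro u
        unfold b
        by_cases huv : G.Adj v u
        · rw [if_pos huv, if_pos ((mem_nb G v u).2 huv), hμd]
          simp only
          have := hx0 v
          have := hx0 u
          rcases le_total (x v) (x u) with h | h
          · refine (min_le_left _ _).trans ?_
            nlinarith
          · refine (min_le_right _ _).trans ?_
            nlinarith
        · rw [if_neg huv, if_neg (fun h => huv ((mem_nb G v u).1 h))]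
      refine (Finset.sum_le_sum (fun u _ => h1 u)).trans ?_
      rw [← Finset.sum_filter, Finset.filter_mem_eq_inter, Finset.univ_inter, ← Finset.mul_sum,
        heig v, hμd]
      apply le_of_eq
      ring
    have hfin := hst γ hγ0 hγ1 V G μ L hμ0 hL0 hdeg
      (SimpleGraph.CliqueFree.cliqueFreeOn G hfree) hemp (by
        intro f
        refine le_trans ?_ (layer' hq μ hμ0 f)
        have := N_nonneg hμ0 f
        rw [← hcc]
        nlinarith)
    have hμs : ∑ v, μ v = 1 := by rw [hμd]; exact hxN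
    rw [hμs, mul_one] at hfin
    have h1 : W0 ≤ R * (γ * L) + 2 * (δ * L) := by
      have := mul_le_mul_of_nonneg_left hfin hR0.le
      linarith
    have h2 : ((m : ℝ) + 1) * W0 ≤ L / 8 + L / 16 := by
      have h3 : ((m : ℝ) + 1) * W0 ≤ ((m : ℝ) + 1) * (R * (γ * L) + 2 * (δ * L)) :=
        mul_le_mul_of_nonneg_left h1 hm0.le
      have h4 : ((m : ℝ) + 1) * (R * (γ * L) + 2 * (δ * L)) = L / 8 + L / 16 := by
        rw [hγ, hδ]
        field_simp
        norm_num
      linarith
    push_cast at hhoff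
    have h5 : ((m : ℝ) + 1 - 1) * lam ≤ ((m : ℝ) + 1) * lam := by nlinarith
    linarith
  refine (hmax f).trans ?_
  exact mul_le_mul_of_nonneg_right hmain (N2_nonneg f)

end Pool.Agent.J4.H79.GW
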