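import Pool.Agent.J4.H79.GW.Top

set_option autoImplicit false
set_option linter.unusedSectionVars false

/-!
# Eigenvalues of the adjacency matrix and the adjacency form; colourings from degeneracy
-/

namespace Pool.Agent.J4.H79.GW

open Finset Pool.Agent.R50.MC Pool.Agent.Y394.AT Matrix

variable {V : Type} [Fintype V] [DecidableEq V] {G : SimpleGraph V} [DecidableRel G.Adj]

theorem form_eq (f : V → ℝ) : f ⬝ᵥ (G.adjMatrix ℝ *ᵥ f) = q G f := by
  unfold q
  rw [bb_eq]
  unfold dotProduct
  apply Finset.sum_congr rfl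
  intro v _
  rw [SimpleGraph.adjMatrix_mulVec_apply]
  congr 1
  apply Finset.sum_congr _ (fun _ _ => rfl)
  ext w
  rw [SimpleGraph.mem_neighborFinset, mem_nb]

theorem N2_eq (f : V → ℝ) : f ⬝ᵥ f = N2 f := by
  unfold N2 dotProduct
  apply Finset.sum_congr rfl
  intro v _
  ring

theorem herm : (G.adjMatrix ℝ).IsHermitian := by
  have h := SimpleGraph.isSymm_adjMatrix (α := ℝ) G
  rw [Matrix.IsHermitian, Matrix.conjTranspose_eq_transpose_of_trivial]
  exact h

theorem herm1 (r : ℝ) : (algebraMap ℝ (Matrix V V ℝ) r).IsHermitian := by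
  rw [Matrix.IsHermitian, Matrix.conjTranspose_eq_transpose_of_trivial,
    Matrix.algebraMap_eq_diagonal, Matrix.diagonal_transpose]

theorem alg_mulVec (r : ℝ) (f : V → ℝ) : algebraMap ℝ (Matrix V V ℝ) r *ᵥ f = fun v => r * f v := by
  rw [Matrix.algebraMap_eq_diagonal]
  funext v
  rw [Matrix.mulVec_diagonal]
  rfl

/-- all eigenvalues are at least `-lam` -/
theorem form_of_spec {lam : ℝ} (h : ∀ x ∈ spectrum ℝ (G.adjMatrix ℝ), -lam ≤ x) (f : V → ℝ) :
    -lam * N2 f ≤ q G f := by
  have h1 : (algebraMap ℝ (Matrix V V ℝ) lam + G.adjMatrix ℝ).PosSemidef := by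
    rw [Matrix.posSemidef_iff_isHermitian_and_spectrum_nonneg]
    refine ⟨(herm1 lam).add herm, ?_⟩
    intro y hy
    have h2 : algebraMap ℝ (Matrix V V ℝ) lam + G.adjMatrix ℝ =
        -(algebraMap ℝ (Matrix V V ℝ) (-lam)) + G.adjMatrix ℝ := by
      rw [map_neg, neg_neg]
    rw [h2, ← spectrum.add_mem_iff] at hy
    have := h _ hy
    show 0 ≤ y
    linarith
  have h2 := h1.dotProduct_mulVec_nonneg f
  rw [star_trivial, Matrix.add_mulVec, dotProduct_add, form_eq, alg_mulVec] at h2
  have h3 : (f ⬝ᵥ fun v => lam * f v) = lam * N2 f := by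
    unfold dotProduct N2
    rw [Finset.mul_sum]
    exact Finset.sum_congr rfl fun v _ => by ring
  rw [h3] at h2
  linarith

/-- all eigenvalues are at most `L` -/
theorem spec_of_form {L : ℝ} (h : ∀ f : V → ℝ, q G f ≤ L * N2 f) :
    ∀ x ∈ spectrum ℝ (G.adjMatrix ℝ), x ≤ L := by
  have h1 : (algebraMap ℝ (Matrix V V ℝ) L - G.adjMatrix ℝ).PosSemidef := by
    apply Matrix.PosSemidef.of_dotProduct_mulVec_nonneg ((herm1 L).sub herm)
    intro f
    rw [star_trivial, Matrix.sub_mulVec, dotProduct_sub, form_eq, alg_mulVec]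
    have h3 : (f ⬝ᵥ fun v => L * f v) = L * N2 f := by
      unfold dotProduct N2
      rw [Finset.mul_sum]
      exact Finset.sum_congr rfl fun v _ => by ring
    rw [h3]
    have := h f
    linarith
  intro x hx
  rw [Matrix.posSemidef_iff_isHermitian_and_spectrum_nonneg] at h1
  have h2 : L - x ∈ spectrum ℝ (algebraMap ℝ (Matrix V V ℝ) L - G.adjMatrix ℝ) := by
    rw [← spectrum.singleton_sub_eq]
    exact Set.sub_mem_sub (Set.mem_singleton L) hx
  have h3 : 0 ≤ L - x := h1.2 h2
  linarith

/-- a greedy colouring -/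
theorem colour_degen {W : Type} [Fintype W] (H : SimpleGraph W) {d : ℕ}
    (hd : ∀ S : Finset W, S.Nonempty → ∃ v ∈ S, ∀ A : Finset W,
      (∀ w, w ∈ A ↔ H.Adj v w ∧ w ∈ S) → A.card ≤ d) : H.Colorable (d + 1) := by
  classical
  have hind : ∀ (n : ℕ) (S : Finset W), S.card = n →
      ∃ c : W → Fin (d + 1), ∀ u ∈ S, ∀ v ∈ S, H.Adj u v → c u ≠ c v := by
    intro n
    induction n with
    | zero =>
      intro S hS
      rw [Finset.card_eq_zero.1 hS]
      exact ⟨fun _ => 0, fun u hu => absurd hu (Finset.notMem_empty u)⟩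
    | succ n ih =>
      intro S hS
      have hSne : S.Nonempty := by
        rw [← Finset.card_pos]
        omega
      obtain ⟨v1, hv1, hdeg1⟩ := hd S hSne
      obtain ⟨c, hc⟩ := ih (S.erase v1) (by rw [Finset.card_erase_of_mem hv1, hS]; rfl)
      have h1 := hdeg1 (S.filter (fun w => H.Adj v1 w)) (by
        intro w
        rw [Finset.mem_filter]
        tauto)
      have h2 : (((S.filter (fun w => H.Adj v1 w)).image c)).card < (univ : Finset (Fin (d + 1))).card := by
        rw [Finset.card_univ, Fintype.card_fin]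
        have := Finset.card_image_le (s := S.filter (fun w => H.Adj v1 w)) (f := c)
        omega
      obtain ⟨a, -, ha⟩ := Finset.exists_mem_notMem_of_card_lt_card h2
      have hne : ∀ w ∈ S, H.Adj v1 w → c w ≠ a := by
        intro w hw hadj h
        apply ha
        rw [Finset.mem_image]
        exact ⟨w, Finset.mem_filter.2 ⟨hw, hadj⟩, h⟩
      refine ⟨fun w => if w = v1 then a else c w, ?_⟩
      intro u hu v hv huv
      by_cases h3 : u = v1
      · have h4 : v ≠ v1 := by
          intro h5
          rw [h3, h5] at huv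
          exact H.loopless.irrefl v1 huv
        simp only [if_pos h3, if_neg h4]
        rw [h3] at huv
        exact (hne v hv huv).symm
      · by_cases h4 : v = v1
        · simp only [if_neg h3, if_pos h4]
          rw [h4] at huv
          exact hne u hu huv.symm
        · simp only [if_neg h3, if_neg h4]
          exact hc u (Finset.mem_erase.2 ⟨h3, hu⟩) v (Finset.mem_erase.2 ⟨h4, hv⟩) huv
  obtain ⟨c, hc⟩ := hind _ univ rfl
  exact ⟨SimpleGraph.Coloring.mk c fun {u v} huv => hc u (Finset.mem_univ u) v (Finset.mem_univ v) huv⟩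

end Pool.Agent.J4.H79.GW
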