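import Pool.Agent.J4.H79.GW.Cut

set_option autoImplicit false
set_option linter.unusedSectionVars false

/-!
# Independent sets of large weight
-/

namespace Pool.Agent.J4.H79.GW

open Finset

section

variable {V : Type} [Fintype V] {G : SimpleGraph V} {μ : V → ℝ}

/-- weighted degree in `U` -/
noncomputable def dU (G : SimpleGraph V) (μ : V → ℝ) (U : Finset V) (v : V) : ℝ :=
  ∑ u ∈ U, b G μ v u

/-- twice the weight of the edges in `U` -/
noncomputable def eU (G : SimpleGraph V) (μ : V → ℝ) (U : Finset V) : ℝ := ∑ v ∈ U, dU G μ U v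

theorem dU_nonneg (hμ : ∀ v, 0 ≤ μ v) (U : Finset V) (v : V) : 0 ≤ dU G μ U v := by
  classical
  exact Finset.sum_nonneg fun _ _ => b_nonneg hμ _ _

theorem eU_nonneg (hμ : ∀ v, 0 ≤ μ v) (U : Finset V) : 0 ≤ eU G μ U :=
  Finset.sum_nonneg fun _ _ => dU_nonneg hμ U _

theorem eU_erase [DecidableEq V] (U : Finset V) (v : V) (hv : v ∈ U) :
    eU G μ (U.erase v) = eU G μ U - 2 * dU G μ U v := by
  have h1 : ∀ x, dU G μ (U.erase v) x = dU G μ U x - b G μ x v := by
    intro x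
    unfold dU
    rw [← Finset.add_sum_erase U _ hv]
    ring
  unfold eU
  rw [Finset.sum_congr rfl (fun x _ => h1 x), Finset.sum_sub_distrib,
    ← Finset.add_sum_erase U (fun x => dU G μ U x) hv]
  have h2 : ∑ x ∈ U.erase v, b G μ x v = dU G μ U v := by
    unfold dU
    rw [← Finset.add_sum_erase U _ hv, b_self, zero_add]
    apply Finset.sum_congr rfl
    intro x _
    rw [b_comm]
  rw [h2]
  ring

/-- an independent set by deleting the lighter vertex of every edge -/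
theorem indep_of_few (hμ : ∀ v, 0 ≤ μ v) : ∀ (n : ℕ) (U : Finset V), U.card = n →
    ∃ I ⊆ U, G.IsIndepSet (I : Set V) ∧ ∑ v ∈ U, μ v - eU G μ U / 2 ≤ ∑ v ∈ I, μ v := by
  classical
  intro n
  induction n with
  | zero =>
    intro U hU
    refine ⟨U, Finset.Subset.refl _, ?_, ?_⟩
    · rw [Finset.card_eq_zero] at hU
      rw [hU]
      simp [SimpleGraph.IsIndepSet]
    · have := eU_nonneg (G := G) hμ U
      linarith
  | succ n ih =>
    intro U hU
    by_cases h : G.IsIndepSet (U : Set V)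
    · refine ⟨U, Finset.Subset.refl _, h, ?_⟩
      have := eU_nonneg (G := G) hμ U
      linarith
    · have h1 : ∃ v ∈ U, ∃ w ∈ U, G.Adj v w ∧ μ v ≤ μ w := by
        by_contra hcon
        push Not at hcon
        apply h
        intro v hv w hw _ hadj
        rcases le_total (μ v) (μ w) with h2 | h2
        · exact absurd h2 (not_le.2 (hcon v hv w hw hadj))
        · exact absurd h2 (not_le.2 (hcon w hw v hv hadj.symm))
      obtain ⟨v, hv, w, hw, hadj, hvw⟩ := h1
      have h2 : μ v ≤ dU G μ U v := by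
        unfold dU
        calc μ v = b G μ v w := by
              unfold b
              rw [if_pos hadj, min_eq_left hvw]
          _ ≤ _ := Finset.single_le_sum (f := fun w => b G μ v w)
            (fun _ _ => b_nonneg hμ _ _) hw
      obtain ⟨I, hI, hind, hc⟩ := ih (U.erase v) (by rw [Finset.card_erase_of_mem hv, hU]; rfl)
      refine ⟨I, hI.trans (Finset.erase_subset _ _), hind, ?_⟩
      rw [eU_erase U v hv] at hc
      have h3 := Finset.sum_erase_add U μ hv
      linarith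

end

open Classical in
/-- the cut lemma on a set in which the degrees are at most `3/2` times the average degree -/
theorem wsplit (m k : ℕ) (T : SimpleGraph (Fin (m + 1))) (hT : T.IsTree) :
    ∃ c : ℝ, 0 < c ∧ c ≤ 1 ∧ ∀ (V : Type) [Fintype V] (G : SimpleGraph V) (μ : V → ℝ) (U : Finset V),
      (∀ v, 0 ≤ μ v) → G.CliqueFree k → IsEmpty (T ↪g G) → 0 < eU G μ U → 0 < ∑ v ∈ U, μ v →
      (∀ v ∈ U, dU G μ U v ≤ 3 / 2 * (eU G μ U / ∑ v ∈ U, μ v) * μ v) →
      ∃ S ⊆ U, eU G μ S + eU G μ (U \ S) ≤ (1 / 2 - 3 / 4 * c) * eU G μ U := by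
  obtain ⟨c, hc, hc1, hmain⟩ := wcut m T hT k (2 / 3) (by norm_num) (by norm_num)
  refine ⟨c, hc, hc1, ?_⟩
  intro V _ G μ U hμ hfree hemp hE hw hdeg
  obtain ⟨w, hwd⟩ : ∃ w : ℝ, w = ∑ v ∈ U, μ v := ⟨_, rfl⟩
  rw [← hwd] at hw hdeg
  obtain ⟨d, hd⟩ : ∃ d : ℝ, d = 3 / 2 * (eU G μ U / w) := ⟨_, rfl⟩
  have hd0 : 0 < d := by rw [hd]; positivity
  have hdw : d * w = 3 / 2 * eU G μ U := by
    rw [hd]
    field_simp
  rw [← hd] at hdeg
  have hrsum : ∑ v, res μ U v = w := by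
    rw [hwd]
    unfold res
    rw [← Finset.sum_filter]
    simp
  have hbsum : ∀ u, ∑ v, b G (res μ U) u v = if u ∈ U then dU G μ U u else 0 := by
    intro u
    by_cases hu : u ∈ U
    · rw [if_pos hu]
      unfold dU
      have h1 : ∀ v, b G (res μ U) u v = if v ∈ U then b G μ u v else 0 := by
        intro v
        rw [b_res hμ]
        simp [hu]
      rw [Finset.sum_congr rfl (fun v _ => h1 v), ← Finset.sum_filter]
      simp
    · rw [if_neg hu]
      apply Finset.sum_eq_zero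
      intro v _
      rw [b_res hμ, if_neg (fun h => hu h.1)]
  have hbtot : ∑ u, ∑ v, b G (res μ U) u v = eU G μ U := by
    rw [Finset.sum_congr rfl (fun u _ => hbsum u), ← Finset.sum_filter]
    unfold eU
    simp
  obtain ⟨s, hs1, hs2⟩ := hmain V G (res μ U) d (res_nonneg hμ U) hd0 (by
    intro v
    rw [hbsum]
    by_cases hv : v ∈ U
    · rw [if_pos hv]
      unfold res
      rw [if_pos hv]
      exact hdeg v hv
    · rw [if_neg hv]
      unfold res
      rw [if_neg hv, mul_zero]) hfree hemp (by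
    rw [hrsum, hbtot]
    linarith)
  rw [hrsum] at hs2
  refine ⟨U.filter (fun v => s v = 1), Finset.filter_subset _ _, ?_⟩
  have key : ∀ (A : Finset V), A ⊆ U → eU G μ A =
      ∑ v, ∑ w, b G (res μ U) v w * ((if v ∈ A then 1 else 0) * (if w ∈ A then (1 : ℝ) else 0)) := by
    intro A hA
    unfold eU dU
    have h1 : ∀ v w, b G (res μ U) v w * ((if v ∈ A then 1 else 0) * (if w ∈ A then (1 : ℝ) else 0)) =
        if v ∈ A then (if w ∈ A then b G μ v w else 0) else 0 := by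
      intro v w
      rw [b_res hμ]
      by_cases hv : v ∈ A
      · by_cases hw : w ∈ A
        · simp [hv, hw, hA hv, hA hw]
        · simp [hw]
      · simp [hv]
    rw [Finset.sum_congr rfl (fun v _ => Finset.sum_congr rfl (fun w _ => h1 v w))]
    have h2 : ∀ v, ∑ w, (if v ∈ A then (if w ∈ A then b G μ v w else 0) else 0) =
        if v ∈ A then ∑ w ∈ A, b G μ v w else 0 := by
      intro v
      by_cases hv : v ∈ A
      · simp only [if_pos hv]
        rw [← Finset.sum_filter]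
        simp
      · simp [hv]
    rw [Finset.sum_congr rfl (fun v _ => h2 v), ← Finset.sum_filter]
    simp
  have h5 : eU G μ (U.filter (fun v => s v = 1)) + eU G μ (U \ U.filter (fun v => s v = 1)) =
      (eU G μ U + B G (res μ U) s s) / 2 := by
    rw [key _ (Finset.filter_subset _ _), key _ Finset.sdiff_subset, key U (Finset.Subset.refl _)]
    unfold B
    rw [← Finset.sum_add_distrib, ← Finset.sum_add_distrib, Finset.sum_div]
    apply Finset.sum_congr rfl
    intro v _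
    rw [← Finset.sum_add_distrib, ← Finset.sum_add_distrib, Finset.sum_div]
    apply Finset.sum_congr rfl
    intro w _
    by_cases hv : v ∈ U
    · by_cases hw : w ∈ U
      · simp only [Finset.mem_filter, Finset.mem_sdiff, hv, hw, true_and, if_true]
        rcases hs1 v with h1 | h1 <;> rcases hs1 w with h2 | h2 <;> rw [h1, h2] <;> norm_num
      · rw [b_res hμ, if_neg (fun h => hw h.2)]
        ring
    · rw [b_res hμ, if_neg (fun h => hv h.1)]
      ring
  rw [h5]
  nlinarith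

/-- **Sets of small relative density, with weights.** -/
theorem wsparse (m k : ℕ) (T : SimpleGraph (Fin (m + 1))) (hT : T.IsTree) :
    ∃ τ : ℝ, 0 < τ ∧ τ ≤ 1 ∧ ∀ (V : Type) [Fintype V] (G : SimpleGraph V) (μ : V → ℝ),
      (∀ v, 0 ≤ μ v) → G.CliqueFree k → IsEmpty (T ↪g G) → 0 < ∑ v, μ v →
      ∀ σ : ℝ, 0 < σ → σ ≤ 1 → (∀ v, μ v ≤ σ * ∑ v, μ v) →
      ∃ U : Finset V, σ * ∑ v, μ v ≤ ∑ v ∈ U, μ v ∧ (eU G μ U = 0 ∨
        (∑ v ∈ U, μ v ≤ 5 * σ * ∑ v, μ v ∧
          eU G μ U ≤ ((∑ v ∈ U, μ v) / ∑ v, μ v) ^ (2 + τ) * eU G μ univ)) := by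
  classical
  obtain ⟨c, hc, hc1, hsplit⟩ := wsplit m k T hT
  refine ⟨c, hc, hc1, ?_⟩
  intro V _ G μ hμ hfree hemp hW σ hσ hσ1 hsmall
  obtain ⟨m0, hm0⟩ : ∃ m0 : ℝ, m0 = ∑ v, μ v := ⟨_, rfl⟩
  rw [← hm0] at hW hsmall ⊢
  have hp : 0 < 2 + c := by linarith
  obtain ⟨w, hw⟩ : ∃ w : Finset V → ℝ, w = fun U => ∑ v ∈ U, μ v := ⟨_, rfl⟩
  have hwU : ∀ U, ∑ v ∈ U, μ v = w U := by intro U; rw [hw]
  have hw0 : ∀ U, 0 ≤ w U := by
    intro U
    rw [← hwU]
    exact Finset.sum_nonneg fun v _ => hμ v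
  have hwuniv : w univ = m0 := by rw [← hwU, hm0]
  have hwsdiff : ∀ A U, A ⊆ U → w (U \ A) = w U - w A := by
    intro A U hA
    have := Finset.sum_sdiff (f := μ) hA
    rw [hwU, hwU, hwU] at this
    linarith
  -- the minimiser
  obtain ⟨U, hU, hmin⟩ := Finset.exists_min_image
    (univ.filter (fun U => σ * m0 ≤ w U))
    (fun U => eU G μ U / (w U) ^ (2 + c))
    ⟨univ, by
      rw [Finset.mem_filter]
      exact ⟨Finset.mem_univ _, by rw [hwuniv]; nlinarith⟩⟩
  rw [Finset.mem_filter] at hU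
  obtain ⟨-, hUσ⟩ := hU
  have hσm : 0 < σ * m0 := mul_pos hσ hW
  have hUc : 0 < w U := lt_of_lt_of_le hσm hUσ
  have hm : ∀ S : Finset V, σ * m0 ≤ w S →
      eU G μ U * (w S / w U) ^ (2 + c) ≤ eU G μ S := by
    intro S hSσ
    have h1 := hmin S (by
      rw [Finset.mem_filter]
      exact ⟨Finset.mem_univ _, hSσ⟩)
    have hSc : 0 < w S := lt_of_lt_of_le hσm hSσ
    have h2 : 0 < w S ^ (2 + c) := Real.rpow_pos_of_pos hSc _
    have h3 : 0 < w U ^ (2 + c) := Real.rpow_pos_of_pos hUc _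
    rw [div_le_div_iff₀ h3 h2] at h1
    rw [Real.div_rpow hSc.le hUc.le, mul_div_assoc', div_le_iff₀ h3]
    exact h1
  refine ⟨U, by rw [hwU]; exact hUσ, ?_⟩
  rw [hwU]
  by_contra hcon
  push Not at hcon
  obtain ⟨hE0, hcon2⟩ := hcon
  have hE : 0 < eU G μ U := lt_of_le_of_ne (eU_nonneg hμ U) (Ne.symm hE0)
  have hbig : 5 * σ * m0 < w U := by
    by_contra hlt
    push Not at hlt
    have h1 := hcon2 hlt
    have h2 := hmin univ (by
      rw [Finset.mem_filter]
      exact ⟨Finset.mem_univ _, by rw [hwuniv]; nlinarith⟩)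
    rw [hwuniv] at h2
    have h3 : 0 < w U ^ (2 + c) := Real.rpow_pos_of_pos hUc _
    have h4 : 0 < m0 ^ (2 + c) := Real.rpow_pos_of_pos hW _
    rw [div_le_div_iff₀ h3 h4] at h2
    rw [Real.div_rpow hUc.le hW.le, div_mul_eq_mul_div, div_lt_iff₀ h4] at h1
    linarith
  -- the degrees
  have hdeg : ∀ v ∈ U, dU G μ U v ≤ 3 / 2 * (eU G μ U / ∑ v ∈ U, μ v) * μ v := by
    intro v hv
    rw [hwU]
    have h4 : w (U.erase v) = w U - μ v := by
      have := Finset.sum_erase_add U μ hv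
      rw [hwU, hwU] at this
      linarith
    have hvs := hsmall v
    have hv0 := hμ v
    have h5 := hm (U.erase v) (by rw [h4]; nlinarith)
    rw [eU_erase U v hv, h4] at h5
    have h6 : 1 + (2 + c) * (-(μ v / w U)) ≤ (1 + -(μ v / w U)) ^ (2 + c) := by
      apply one_add_mul_self_le_rpow_one_add
      · rw [neg_le_neg_iff, div_le_one hUc]
        nlinarith
      · linarith
    have h7 : (w U - μ v) / w U = 1 + -(μ v / w U) := by
      field_simp
      ring
    rw [h7] at h5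
    have h8 : eU G μ U * (1 + (2 + c) * (-(μ v / w U))) ≤
        eU G μ U * (1 + -(μ v / w U)) ^ (2 + c) := mul_le_mul_of_nonneg_left h6 hE.le
    have h9 : eU G μ U * (1 + (2 + c) * (-(μ v / w U))) =
        eU G μ U - (2 + c) * (eU G μ U / w U * μ v) := by
      field_simp
      ring
    have h10 : 0 ≤ eU G μ U / w U * μ v := by positivity
    nlinarith
  obtain ⟨S, hSU, hcut⟩ := hsplit V G μ U hμ hfree hemp hE (by rw [hwU]; exact hUc) hdeg
  -- both parts are large
  have hpart : ∀ A : Finset V, A ⊆ U → eU G μ A ≤ (1 / 2 - 3 / 4 * c) * eU G μ U →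
      w U / 5 ≤ w (U \ A) := by
    intro A hA hAe
    by_contra hlt
    push Not at hlt
    rw [hwsdiff A U hA] at hlt
    have hA4 : 4 / 5 * w U ≤ w A := by linarith
    have h4 := hm A (by nlinarith)
    have h5 : (4 / 5 : ℝ) ^ (3 : ℝ) ≤ (w A / w U) ^ (2 + c) := by
      have h6 : (4 / 5 : ℝ) ≤ w A / w U := by
        rw [le_div_iff₀ hUc]
        exact hA4
      calc (4 / 5 : ℝ) ^ (3 : ℝ) ≤ (4 / 5 : ℝ) ^ (2 + c) :=
            Real.rpow_le_rpow_of_exponent_ge (by norm_num) (by norm_num) (by linarith)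
        _ ≤ _ := Real.rpow_le_rpow (by norm_num) h6 hp.le
    have h7 : (4 / 5 : ℝ) ^ (3 : ℝ) = 64 / 125 := by
      rw [show (3 : ℝ) = ((3 : ℕ) : ℝ) by norm_num, Real.rpow_natCast]
      norm_num
    rw [h7] at h5
    have h8 : eU G μ U * (64 / 125) ≤ eU G μ U * (w A / w U) ^ (2 + c) :=
      mul_le_mul_of_nonneg_left h5 hE.le
    nlinarith
  have hS1 := hpart S hSU (by linarith [eU_nonneg (G := G) hμ (U \ S)])
  have hS2 := hpart (U \ S) Finset.sdiff_subset (by linarith [eU_nonneg (G := G) hμ S])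
  have hSS : U \ (U \ S) = S := by
    rw [Finset.sdiff_sdiff_eq_self hSU]
  rw [hSS] at hS2
  have hm1 := hm S (by nlinarith)
  have hm2 := hm (U \ S) (by nlinarith)
  obtain ⟨x, hx⟩ : ∃ x : ℝ, x = w S / w U := ⟨_, rfl⟩
  obtain ⟨y, hy⟩ : ∃ y : ℝ, y = w (U \ S) / w U := ⟨_, rfl⟩
  rw [← hx] at hm1
  rw [← hy] at hm2
  have hxy : x + y = 1 := by
    rw [hx, hy, ← add_div, hwsdiff S U hSU]
    field_simp
    ring
  have hx0 : 0 ≤ x := by rw [hx]; exact div_nonneg (hw0 _) hUc.le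
  have hy0 : 0 ≤ y := by rw [hy]; exact div_nonneg (hw0 _) hUc.le
  -- convexity
  have hconv : 2 * (1 / 2 : ℝ) ^ (2 + c) ≤ x ^ (2 + c) + y ^ (2 + c) := by
    have h1 := (convexOn_rpow (p := 2 + c) (by linarith)).2 (Set.mem_Ici.2 hx0) (Set.mem_Ici.2 hy0)
      (by norm_num : (0 : ℝ) ≤ 1 / 2) (by norm_num : (0 : ℝ) ≤ 1 / 2) (by norm_num)
    simp only [smul_eq_mul] at h1
    have h2 : 1 / 2 * x + 1 / 2 * y = 1 / 2 := by linarith
    rw [h2] at h1
    linarith
  have hhalf : (1 - c) / 4 ≤ (1 / 2 : ℝ) ^ (2 + c) := by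
    rw [Real.rpow_add (by norm_num)]
    have h1 : (1 / 2 : ℝ) ^ (2 : ℝ) = 1 / 4 := by
      rw [show (2 : ℝ) = ((2 : ℕ) : ℝ) by norm_num, Real.rpow_natCast]
      norm_num
    have h2 : 1 - c ≤ (1 / 2 : ℝ) ^ c := by
      have h3 : Real.log (1 / 2) = -Real.log 2 := by
        rw [one_div, Real.log_inv]
      rw [Real.rpow_def_of_pos (by norm_num), h3]
      have h4 := Real.add_one_le_exp (-Real.log 2 * c)
      have h5 : Real.log 2 < 1 := by
        have := Real.log_two_lt_d9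
        linarith
      nlinarith
    rw [h1]
    linarith
  nlinarith [mul_le_mul_of_nonneg_left hconv hE.le, mul_le_mul_of_nonneg_left hhalf hE.le,
    mul_pos hE hc]

/-- **Independent sets of large weight.** -/
theorem windep (m k : ℕ) (T : SimpleGraph (Fin (m + 1))) (hT : T.IsTree) :
    ∃ ε : ℝ, 0 < ε ∧ ε < 1 ∧ ∀ (V : Type) [Fintype V] (G : SimpleGraph V) (μ : V → ℝ),
      (∀ v, 0 ≤ μ v) → G.CliqueFree k → IsEmpty (T ↪g G) → ∀ D : ℝ, 1 ≤ D →
      (∀ v, ∑ u, b G μ v u ≤ D * μ v) →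
      ∃ I : Finset V, G.IsIndepSet (I : Set V) ∧
        1 / (10 * D ^ (1 - ε)) * ∑ v, μ v ≤ ∑ v ∈ I, μ v := by
  classical
  obtain ⟨τ, hτ, hτ1, hmain⟩ := wsparse m k T hT
  have hp : 0 < 1 + τ := by linarith
  refine ⟨τ / (1 + τ), by positivity, by rw [div_lt_one hp]; linarith, ?_⟩
  intro V _ G μ hμ hfree hemp D hD hdeg
  have he : 1 - τ / (1 + τ) = 1 / (1 + τ) := by
    field_simp
    ring
  rw [he]
  have hD0 : 0 < D := by linarith
  have hpow1 : 1 ≤ D ^ (1 / (1 + τ)) := Real.one_le_rpow hD (by positivity)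
  have hpow0 : 0 < D ^ (1 / (1 + τ)) := by linarith
  obtain ⟨m0, hm0⟩ : ∃ m0 : ℝ, m0 = ∑ v, μ v := ⟨_, rfl⟩
  have hm00 : 0 ≤ m0 := by rw [hm0]; exact Finset.sum_nonneg fun v _ => hμ v
  rw [← hm0]
  rcases eq_or_lt_of_le hm00 with hz | hWc
  · exact ⟨∅, by simp [SimpleGraph.IsIndepSet], by rw [← hz]; simp⟩
  obtain ⟨σ, hσd⟩ : ∃ σ : ℝ, σ = 1 / (5 * D ^ (1 / (1 + τ))) := ⟨_, rfl⟩
  have hσ : 0 < σ := by rw [hσd]; positivity
  have hσ1 : σ ≤ 1 := by
    rw [hσd, div_le_one (by positivity)]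
    linarith
  have h9 : 1 / (10 * D ^ (1 / (1 + τ))) = σ / 2 := by
    rw [hσd]
    field_simp
    norm_num
  rw [h9]
  by_cases hsmall : ∀ v, μ v ≤ σ * ∑ v, μ v
  · obtain ⟨U, hU1, hU2⟩ := hmain V G μ hμ hfree hemp (by rw [← hm0]; exact hWc) σ hσ hσ1 hsmall
    rw [← hm0] at hU1 hU2
    obtain ⟨w, hw⟩ : ∃ w : ℝ, w = ∑ v ∈ U, μ v := ⟨_, rfl⟩
    rw [← hw] at hU1 hU2
    have hUc : 0 < w := lt_of_lt_of_le (by positivity) hU1
    have heU : eU G μ U ≤ w := by
      rcases hU2 with h | ⟨h1, h2⟩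
      · rw [h]; positivity
      · have h3 : eU G μ univ ≤ D * m0 := by
          rw [hm0, Finset.mul_sum]
          exact Finset.sum_le_sum fun v _ => hdeg v
        obtain ⟨ρ, hρ⟩ : ∃ ρ : ℝ, ρ = w / m0 := ⟨_, rfl⟩
        have hρ0 : 0 < ρ := by rw [hρ]; positivity
        have hρ5 : ρ ≤ 5 * σ := by
          rw [hρ, div_le_iff₀ hWc]
          exact h1
        have h4 : ρ ^ (1 + τ) ≤ D⁻¹ := by
          have h5 : (5 * σ) ^ (1 + τ) = D⁻¹ := by
            have h6 : 5 * σ = (D ^ (1 / (1 + τ)))⁻¹ := by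
              rw [hσd]
              field_simp
            rw [h6, Real.inv_rpow hpow0.le, ← Real.rpow_mul hD0.le, one_div,
              inv_mul_cancel₀ hp.ne', Real.rpow_one]
          rw [← h5]
          exact Real.rpow_le_rpow hρ0.le hρ5 hp.le
        rw [← hρ] at h2
        have h7 : ρ ^ (2 + τ) = ρ * ρ ^ (1 + τ) := by
          rw [show 2 + τ = 1 + (1 + τ) by ring, Real.rpow_add hρ0, Real.rpow_one]
        rw [h7] at h2
        have h8 : ρ * m0 = w := by
          rw [hρ]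
          field_simp
        calc eU G μ U ≤ ρ * ρ ^ (1 + τ) * eU G μ univ := h2
          _ ≤ ρ * D⁻¹ * (D * m0) := by
              apply mul_le_mul _ h3 (eU_nonneg hμ univ) (by positivity)
              exact mul_le_mul_of_nonneg_left h4 hρ0.le
          _ = ρ * m0 := by field_simp
          _ = w := h8
    obtain ⟨I, -, hI, hIc⟩ := indep_of_few (G := G) hμ _ U rfl
    refine ⟨I, hI, ?_⟩
    rw [← hw] at hIc
    linarith
  · push Not at hsmall
    obtain ⟨v, hv⟩ := hsmall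
    rw [← hm0] at hv
    refine ⟨{v}, by simp [SimpleGraph.IsIndepSet], ?_⟩
    rw [Finset.sum_singleton]
    have : 0 ≤ σ * m0 := by positivity
    linarith

end Pool.Agent.J4.H79.GW
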