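import Pool.Agent.J4.H79.GW.Pow
import Pool.Agent.R50.MC.Spec

set_option autoImplicit false
set_option linter.unusedSectionVars false

/-!
# Vertex weights and the smallest eigenvalue
-/

namespace Pool.Agent.J4.H79.GW

open Finset Pool.Agent.R50.MC Pool.Agent.Y394.AT

variable {V : Type} [Fintype V] [DecidableEq V] {G : SimpleGraph V}

open Classical in
/-- The form with the weights `min (μ u) (μ v)` of the edges is bounded from below by the bound for the
adjacency form. -/
theorem layer {lam : ℝ} (hq : ∀ f : V → ℝ, -lam * N2 f ≤ q G f) (n : ℕ) :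
    ∀ μ : V → ℝ, (∀ v, 0 ≤ μ v) → (univ.filter (fun v => 0 < μ v)).card ≤ n →
      ∀ f : V → ℝ, -lam * N μ f ≤ B G μ f f := by
  induction n with
  | zero =>
    intro μ hμ hn f
    have h1 : ∀ v, μ v = 0 := by
      intro v
      have h2 : univ.filter (fun v => 0 < μ v) = ∅ := Finset.card_eq_zero.1 (by omega)
      have h3 : v ∉ univ.filter (fun v => 0 < μ v) := by rw [h2]; exact Finset.notMem_empty v
      rw [Finset.mem_filter] at h3
      push Not at h3
      exact le_antisymm (h3 (Finset.mem_univ _)) (hμ v)
    have h2 : N μ f = 0 := by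
      unfold N
      exact Finset.sum_eq_zero fun v _ => by rw [h1 v, zero_mul]
    have h3 : B G μ f f = 0 := by
      unfold B b
      apply Finset.sum_eq_zero
      intro u _
      apply Finset.sum_eq_zero
      intro v _
      rw [h1 u, h1 v]
      simp
    rw [h2, h3, mul_zero]
  | succ n ih =>
    intro μ hμ hn f
    obtain ⟨S, hS⟩ : ∃ S : Finset V, S = univ.filter (fun v => 0 < μ v) := ⟨_, rfl⟩
    rcases S.eq_empty_or_nonempty with h0 | hne
    · apply ih μ hμ _ f
      rw [← hS, h0]
      simp
    obtain ⟨v0, hv0, hmin⟩ := Finset.exists_min_image S μ hne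
    obtain ⟨s, hs⟩ : ∃ s : ℝ, s = μ v0 := ⟨_, rfl⟩
    have hs0 : 0 < s := by
      rw [hS, Finset.mem_filter] at hv0
      rw [hs]
      exact hv0.2
    rw [← hs] at hmin
    obtain ⟨ν, hν⟩ : ∃ ν : V → ℝ, ν = fun v => if v ∈ S then μ v - s else 0 := ⟨_, rfl⟩
    have hμν : ∀ v, μ v = (if v ∈ S then s else 0) + ν v := by
      intro v
      rw [hν]
      by_cases hv : v ∈ S
      · simp only [if_pos hv]
        ring
      · simp only [if_neg hv]
        rw [hS, Finset.mem_filter] at hv
        push Not at hv
        have := hv (Finset.mem_univ _)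
        have := hμ v
        linarith
    have hν0 : ∀ v, 0 ≤ ν v := by
      intro v
      rw [hν]
      by_cases hv : v ∈ S
      · simp only [if_pos hv]
        have := hmin v hv
        linarith
      · simp only [if_neg hv]
        exact le_refl _
    have hνn : (univ.filter (fun v => 0 < ν v)).card ≤ n := by
      have h1 : univ.filter (fun v => 0 < ν v) ⊆ S.erase v0 := by
        intro v hv
        rw [Finset.mem_filter, hν] at hv
        have h2 := hv.2
        simp only at h2
        split_ifs at h2 with h3
        · rw [Finset.mem_erase]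
          refine ⟨?_, h3⟩
          intro h4
          rw [h4, ← hs] at h2
          linarith
        · exact absurd h2 (lt_irrefl _)
      have h2 := Finset.card_le_card h1
      rw [Finset.card_erase_of_mem hv0, hS] at h2
      omega
    have h1 := ih ν hν0 hνn f
    have h2 := hq (fun v => if v ∈ S then f v else 0)
    have h3 : N μ f = s * N2 (fun v => if v ∈ S then f v else 0) + N ν f := by
      unfold N N2
      rw [Finset.mul_sum, ← Finset.sum_add_distrib]
      apply Finset.sum_congr rfl
      intro v _
      rw [hμν v]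
      by_cases hv : v ∈ S
      · simp only [if_pos hv]
        ring
      · simp only [if_neg hv]
        ring
    have h4 : B G μ f f = s * q G (fun v => if v ∈ S then f v else 0) + B G ν f f := by
      unfold B q bb
      rw [Finset.mul_sum, ← Finset.sum_add_distrib]
      apply Finset.sum_congr rfl
      intro u _
      rw [Finset.mul_sum, ← Finset.sum_add_distrib]
      apply Finset.sum_congr rfl
      intro v _
      have h5 : b G μ u v = (if G.Adj u v then (if u ∈ S ∧ v ∈ S then s else 0) else 0) +
          b G ν u v := by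
        unfold b
        by_cases hadj : G.Adj u v
        · simp only [if_pos hadj]
          by_cases hu : u ∈ S
          · by_cases hv : v ∈ S
            · rw [if_pos ⟨hu, hv⟩, hμν u, hμν v, if_pos hu, if_pos hv, min_add_add_left]
            · rw [if_neg (fun h => hv h.2), hμν v, if_neg hv]
              have e1 : ν v = 0 := by rw [hν]; simp only [if_neg hv]
              rw [e1, zero_add, zero_add, min_eq_right (hμ u), min_eq_right (hν0 u)]
          · rw [if_neg (fun h => hu h.1), hμν u, if_neg hu]
            have e1 : ν u = 0 := by rw [hν]; simp only [if_neg hu]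
            rw [e1, zero_add, zero_add, min_eq_left (hμ v), min_eq_left (hν0 v)]
        · simp only [if_neg hadj]
          ring
      rw [h5]
      by_cases hadj : G.Adj u v
      · simp only [if_pos hadj]
        by_cases hu : u ∈ S
        · by_cases hv : v ∈ S
          · simp only [hu, hv, and_self, if_true]
            ring
          · simp only [hu, hv, and_false, if_false, if_true]
            ring
        · simp only [hu, false_and, if_false]
          ring
      · simp only [if_neg hadj]
        ring
    rw [h3, h4]
    have h5 := mul_le_mul_of_nonneg_left h2 hs0.le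
    nlinarith

theorem layer' {lam : ℝ} (hq : ∀ f : V → ℝ, -lam * N2 f ≤ q G f) (μ : V → ℝ) (hμ : ∀ v, 0 ≤ μ v)
    (f : V → ℝ) : -lam * N μ f ≤ B G μ f f := by
  classical
  exact layer hq (univ.filter (fun v => 0 < μ v)).card μ hμ (le_refl _) f

open Classical in
/-- Weights from an elimination order. -/
theorem elim_weights {d : ℝ} (hd : 0 < d) (n : ℕ) :
    ∀ S : Finset V, S.card = n →
      (∀ T ⊆ S, T.Nonempty → ∃ v ∈ T, ((nb G v ∩ T).card : ℝ) ≤ d) →
      ∀ ω : V → ℝ, (∀ v ∈ S, 0 ≤ ω v) → ∃ μ : V → ℝ, (∀ v, v ∉ S → μ v = 0) ∧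
        (∀ v ∈ S, ω v ≤ μ v) ∧ ∑ v ∈ S, μ v ≤ 2 * ∑ v ∈ S, ω v ∧
        ∀ v ∈ S, ∑ u ∈ S, b G μ v u ≤ 2 * d * (μ v - ω v) + d * μ v := by
  induction n with
  | zero =>
    intro S hS _ ω _
    have h0 : S = ∅ := Finset.card_eq_zero.1 hS
    rw [h0]
    refine ⟨fun _ => 0, fun _ _ => rfl, ?_, by simp, ?_⟩
    · intro v hv
      exact absurd hv (Finset.notMem_empty v)
    · intro v hv
      exact absurd hv (Finset.notMem_empty v)
  | succ n ih =>
    intro S hS hT ω hω
    have hSne : S.Nonempty := by
      rw [← Finset.card_pos]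
      omega
    obtain ⟨v1, hv1, hdeg1⟩ := hT S (Finset.Subset.refl _) hSne
    obtain ⟨S', hS'⟩ : ∃ S' : Finset V, S' = S.erase v1 := ⟨_, rfl⟩
    have hSS' : S = insert v1 S' := by rw [hS', Finset.insert_erase hv1]
    have hv1S' : v1 ∉ S' := by rw [hS']; exact Finset.notMem_erase v1 S
    have hS'S : S' ⊆ S := by rw [hS']; exact Finset.erase_subset _ _
    have hcard : S'.card = n := by
      rw [hS', Finset.card_erase_of_mem hv1, hS]
      rfl
    obtain ⟨ω', hω'⟩ : ∃ ω' : V → ℝ, ω' = fun v => ω v + (if G.Adj v v1 then ω v1 / (2 * d) else 0) :=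
      ⟨_, rfl⟩
    have hωv1 := hω v1 hv1
    have hω'0 : ∀ v ∈ S', ω v ≤ ω' v := by
      intro v hv
      rw [hω']
      simp only
      have : 0 ≤ (if G.Adj v v1 then ω v1 / (2 * d) else 0) := by
        split_ifs
        · positivity
        · exact le_refl _
      linarith
    obtain ⟨μ', h1, h2, h3, h4⟩ := ih S' hcard (fun T hTS hTn => hT T (hTS.trans hS'S) hTn) ω'
      (fun v hv => (hω v (hS'S hv)).trans (hω'0 v hv))
    obtain ⟨μ, hμ⟩ : ∃ μ : V → ℝ, μ = fun v => if v = v1 then ω v1 else μ' v := ⟨_, rfl⟩
    have hμv1 : μ v1 = ω v1 := by rw [hμ]; simp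
    have hμS' : ∀ v ∈ S', μ v = μ' v := by
      intro v hv
      rw [hμ]
      simp only
      rw [if_neg (fun h : v = v1 => hv1S' (h ▸ hv))]
    refine ⟨μ, ?_, ?_, ?_, ?_⟩
    · intro v hv
      rw [hμ]
      simp only
      rw [if_neg (fun h : v = v1 => hv (h ▸ hv1))]
      exact h1 v (fun h => hv (hS'S h))
    · intro v hv
      rw [hSS', Finset.mem_insert] at hv
      rcases hv with hv | hv
      · rw [hv, hμv1]
      · rw [hμS' v hv]
        exact (hω'0 v hv).trans (h2 v hv)
    · rw [hSS', Finset.sum_insert hv1S', Finset.sum_insert hv1S', hμv1]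
      have e1 : ∑ v ∈ S', μ v = ∑ v ∈ S', μ' v := Finset.sum_congr rfl hμS'
      have e2 : ∑ v ∈ S', ω' v ≤ ∑ v ∈ S', ω v + ω v1 / 2 := by
        rw [hω']
        simp only
        rw [Finset.sum_add_distrib]
        have e3 : ∑ v ∈ S', (if G.Adj v v1 then ω v1 / (2 * d) else 0) ≤ ω v1 / 2 := by
          rw [← Finset.sum_filter, Finset.sum_const, nsmul_eq_mul]
          have e4 : ((S'.filter (fun v => G.Adj v v1)).card : ℝ) ≤ d := by
            refine le_trans ?_ hdeg1
            have : S'.filter (fun v => G.Adj v v1) ⊆ nb G v1 ∩ S := by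
              intro v hv
              rw [Finset.mem_filter] at hv
              rw [Finset.mem_inter, mem_nb]
              exact ⟨hv.2.symm, hS'S hv.1⟩
            exact_mod_cast Finset.card_le_card this
          calc ((S'.filter (fun v => G.Adj v v1)).card : ℝ) * (ω v1 / (2 * d)) ≤
                d * (ω v1 / (2 * d)) := mul_le_mul_of_nonneg_right e4 (by positivity)
            _ = ω v1 / 2 := by field_simp
        linarith
      linarith
    · intro v hv
      have hb : ∀ u w, u ∈ S' → w ∈ S' → b G μ u w = b G μ' u w := by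
        intro u w hu hw
        unfold b
        rw [hμS' u hu, hμS' w hw]
      have hS'b : ∑ u ∈ S, b G μ v u = b G μ v v1 + ∑ u ∈ S', b G μ v u := by
        rw [hSS', Finset.sum_insert hv1S']
      rw [hSS', Finset.mem_insert] at hv
      rcases hv with hv | hv
      · rw [hv, hμv1, sub_self, mul_zero, zero_add]
        have e1 : ∀ u ∈ S, b G μ v1 u ≤ if G.Adj v1 u then ω v1 else 0 := by
          intro u _
          unfold b
          split_ifs
          · exact (min_le_left _ _).trans (le_of_eq hμv1)
          · exact le_refl _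
        refine (Finset.sum_le_sum e1).trans ?_
        rw [← Finset.sum_filter, Finset.sum_const, nsmul_eq_mul]
        apply mul_le_mul_of_nonneg_right _ hωv1
        refine le_trans (le_of_eq ?_) hdeg1
        congr 2
        ext u
        rw [Finset.mem_filter, Finset.mem_inter, mem_nb]
        tauto
      · rw [hS'b]
        have e1 : ∑ u ∈ S', b G μ v u = ∑ u ∈ S', b G μ' v u :=
          Finset.sum_congr rfl fun u hu => hb v u hv hu
        have e2 := h4 v hv
        have e3 : b G μ v v1 ≤ (if G.Adj v v1 then ω v1 else 0) := by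
          unfold b
          split_ifs
          · exact (min_le_right _ _).trans (le_of_eq hμv1)
          · exact le_refl _
        have e4 : 2 * d * ω' v = 2 * d * ω v + (if G.Adj v v1 then ω v1 else 0) := by
          rw [hω']
          simp only
          split_ifs
          · field_simp
          · ring
        rw [e1, hμS' v hv]
        linarith

end Pool.Agent.J4.H79.GW
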