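import Pool.Agent.J4.H79.GW.Indep
import Pool.Agent.R50.SR.Minimax

set_option autoImplicit false
set_option linter.unusedSectionVars false

/-!
# Independent sets from orientations
-/

namespace Pool.Agent.J4.H79.GW

open Finset

open Classical in
/-- **Orientations with bounded out-degree.** -/
theorem worient (m k : ℕ) (T : SimpleGraph (Fin (m + 1))) (hT : T.IsTree) :
    ∃ ε : ℝ, 0 < ε ∧ ε < 1 ∧ ∀ (V : Type) [Fintype V] (G : SimpleGraph V),
      G.CliqueFree k → IsEmpty (T ↪g G) → ∀ out : V → Finset V,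
      (∀ u v, G.Adj u v → u ∈ out v ∨ v ∈ out u) → ∀ w : V → ℝ, (∀ v, 0 ≤ w v) →
      ∀ (W : Finset V) (d : ℝ), 1 ≤ d → (∀ v ∈ W, ((out v).card : ℝ) ≤ d) →
      ∃ I : Finset V, I ⊆ W ∧ G.IsIndepSet (I : Set V) ∧
        1 / (60 * d ^ (1 - ε)) * ∑ v ∈ W, w v ≤ ∑ v ∈ I, w v := by
  obtain ⟨ε, hε, hε1, hmain⟩ := windep m k T hT
  refine ⟨ε, hε, hε1, ?_⟩
  intro V _ G hfree hemp out hout w hw W d hd hdeg
  have hd0 : 0 < d := by linarith
  obtain ⟨V1, hV1⟩ : ∃ V1 : Finset V, V1 = W.filter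
    (fun u => ∑ v ∈ W.filter (fun v => u ∈ out v), w v ≤ 2 * d * w u) := ⟨_, rfl⟩
  have hV1W : V1 ⊆ W := by rw [hV1]; exact Finset.filter_subset _ _
  -- the weight of `V1`
  have hbad : ∑ u ∈ W \ V1, w u ≤ 1 / 2 * ∑ v ∈ W, w v := by
    have h1 : ∀ u ∈ W \ V1, 2 * d * w u ≤ ∑ v ∈ W, if u ∈ out v then w v else 0 := by
      intro u hu
      rw [Finset.mem_sdiff] at hu
      have h2 : ¬ ∑ v ∈ W.filter (fun v => u ∈ out v), w v ≤ 2 * d * w u := by
        intro h3
        apply hu.2
        rw [hV1, Finset.mem_filter]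
        exact ⟨hu.1, h3⟩
      rw [← Finset.sum_filter]
      exact (not_le.1 h2).le
    have h2 := Finset.sum_le_sum h1
    rw [← Finset.mul_sum, Finset.sum_comm] at h2
    have h3 : ∑ v ∈ W, ∑ u ∈ W \ V1, (if u ∈ out v then w v else 0) ≤ ∑ v ∈ W, d * w v := by
      apply Finset.sum_le_sum
      intro v hv
      rw [← Finset.sum_filter, Finset.sum_const, nsmul_eq_mul]
      apply mul_le_mul_of_nonneg_right _ (hw v)
      refine le_trans ?_ (hdeg v hv)
      have : (W \ V1).filter (fun u => u ∈ out v) ⊆ out v := by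
        intro u hu
        rw [Finset.mem_filter] at hu
        exact hu.2
      exact_mod_cast Finset.card_le_card this
    rw [← Finset.mul_sum] at h3
    have h4 : d * (2 * ∑ u ∈ W \ V1, w u) ≤ d * ∑ v ∈ W, w v := by linarith
    have h5 := le_of_mul_le_mul_left h4 hd0
    linarith
  have hgood : 1 / 2 * ∑ v ∈ W, w v ≤ ∑ v ∈ V1, w v := by
    have := Finset.sum_sdiff (f := w) hV1W
    linarith
  obtain ⟨μ, hμd⟩ : ∃ μ : V → ℝ, μ = res w V1 := ⟨_, rfl⟩
  have hμ0 : ∀ v, 0 ≤ μ v := by rw [hμd]; exact res_nonneg hw V1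
  have hμin : ∀ v ∈ V1, μ v = w v := by
    intro v hv
    rw [hμd]
    unfold res
    rw [if_pos hv]
  have hμout : ∀ v, v ∉ V1 → μ v = 0 := by
    intro v hv
    rw [hμd]
    unfold res
    rw [if_neg hv]
  have hdegμ : ∀ v, ∑ u, b G μ v u ≤ 3 * d * μ v := by
    intro v
    by_cases hv : v ∈ V1
    · have h1 : ∀ u, b G μ v u ≤ (if u ∈ W.filter (fun u => v ∈ out u) then w u else 0) +
          (if u ∈ out v then w v else 0) := by
        intro u
        have e1 : 0 ≤ (if u ∈ W.filter (fun u => v ∈ out u) then w u else 0) := by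
          split_ifs
          · exact hw u
          · exact le_refl _
        have e2 : 0 ≤ (if u ∈ out v then w v else 0) := by
          split_ifs
          · exact hw v
          · exact le_refl _
        by_cases hadj : G.Adj v u
        · by_cases hu : u ∈ V1
          · rcases hout v u hadj with h | h
            · have h3 : u ∈ W.filter (fun u => v ∈ out u) := by
                rw [Finset.mem_filter]
                exact ⟨hV1W hu, h⟩
              rw [if_pos h3]
              have h4 := b_le_right (G := G) hμ0 v u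
              rw [hμin u hu] at h4
              linarith
            · rw [if_pos h]
              have h4 := b_le_left (G := G) hμ0 v u
              rw [hμin v hv] at h4
              linarith
          · have h4 := b_le_right (G := G) hμ0 v u
            rw [hμout u hu] at h4
            linarith
        · have h4 : b G μ v u = 0 := by
            unfold b
            rw [if_neg hadj]
          rw [h4]
          linarith
      refine (Finset.sum_le_sum (fun u _ => h1 u)).trans ?_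
      rw [Finset.sum_add_distrib, ← Finset.sum_filter, ← Finset.sum_filter, hμin v hv]
      simp only [Finset.filter_mem_eq_inter, Finset.univ_inter]
      have h5 : ∑ u ∈ W.filter (fun u => v ∈ out u), w u ≤ 2 * d * w v := by
        rw [hV1, Finset.mem_filter] at hv
        exact hv.2
      have h6 : ∑ u ∈ out v, w v ≤ d * w v := by
        rw [Finset.sum_const, nsmul_eq_mul]
        exact mul_le_mul_of_nonneg_right (hdeg v (hV1W hv)) (hw v)
      linarith
    · rw [hμout v hv, mul_zero]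
      apply le_of_eq
      apply Finset.sum_eq_zero
      intro u _
      have h4 := b_le_left (G := G) hμ0 v u
      rw [hμout v hv] at h4
      exact le_antisymm h4 (b_nonneg hμ0 v u)
  obtain ⟨I, hI, hIw⟩ := hmain V G μ hμ0 hfree hemp (3 * d) (by linarith) hdegμ
  refine ⟨I ∩ V1, Finset.inter_subset_right.trans hV1W, ?_, ?_⟩
  · intro x hx y hy hxy
    rw [Finset.mem_coe, Finset.mem_inter] at hx hy
    exact hI hx.1 hy.1 hxy
  · have h1 : ∑ v ∈ I, μ v = ∑ v ∈ I ∩ V1, w v := by
      rw [hμd]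
      unfold res
      rw [← Finset.sum_filter, Finset.filter_mem_eq_inter]
    have h2 : ∑ v, μ v = ∑ v ∈ V1, w v := by
      rw [hμd]
      unfold res
      rw [← Finset.sum_filter]
      simp
    rw [h1, h2] at hIw
    refine le_trans ?_ hIw
    have h3 : (3 * d) ^ (1 - ε) ≤ 3 * d ^ (1 - ε) := by
      rw [Real.mul_rpow (by norm_num) hd0.le]
      apply mul_le_mul_of_nonneg_right _ (by positivity)
      calc (3 : ℝ) ^ (1 - ε) ≤ (3 : ℝ) ^ (1 : ℝ) :=
            Real.rpow_le_rpow_of_exponent_le (by norm_num) (by linarith)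
        _ = 3 := Real.rpow_one 3
    have h4 : 0 < d ^ (1 - ε) := by positivity
    have h5 : 0 < (3 * d) ^ (1 - ε) := by positivity
    have hWs : 0 ≤ ∑ v ∈ W, w v := Finset.sum_nonneg fun v _ => hw v
    calc 1 / (60 * d ^ (1 - ε)) * ∑ v ∈ W, w v =
          1 / (30 * d ^ (1 - ε)) * (1 / 2 * ∑ v ∈ W, w v) := by
            field_simp
            ring
      _ ≤ 1 / (10 * (3 * d) ^ (1 - ε)) * (1 / 2 * ∑ v ∈ W, w v) := by
            apply mul_le_mul_of_nonneg_right _ (by positivity)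
            apply one_div_le_one_div_of_le (by positivity)
            linarith
      _ ≤ 1 / (10 * (3 * d) ^ (1 - ε)) * ∑ v ∈ V1, w v :=
            mul_le_mul_of_nonneg_left hgood (by positivity)

open Classical in
/-- the local form -/
theorem wlocal (m k : ℕ) (T : SimpleGraph (Fin (m + 1))) (hT : T.IsTree) :
    ∃ ε c : ℝ, 0 < ε ∧ ε < 1 ∧ 0 < c ∧ c ≤ 1 ∧ ∀ (V : Type) [Fintype V] (G : SimpleGraph V),
      G.CliqueFree k → IsEmpty (T ↪g G) → ∀ out : V → Finset V,
      (∀ u v, G.Adj u v → u ∈ out v ∨ v ∈ out u) → ∀ w : V → ℝ, (∀ v, 0 ≤ w v) →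
      ∃ I : Finset V, G.IsIndepSet (I : Set V) ∧
        c * ∑ v, w v / (1 + ((out v).card : ℝ)) ^ (1 - ε) ≤ ∑ v ∈ I, w v := by
  obtain ⟨ε₀, hε₀, hε₁, hind⟩ := worient m k T hT
  obtain ⟨r, hr⟩ : ∃ r : ℝ, r = (2 : ℝ) ^ (-(ε₀ / 2)) := ⟨_, rfl⟩
  have hr0 : 0 < r := by rw [hr]; positivity
  have hr1 : r < 1 := by
    rw [hr]
    exact Real.rpow_lt_one_of_one_lt_of_neg (by norm_num) (by linarith)
  have hr1' : 0 < 1 - r := by linarith
  refine ⟨ε₀ / 2, (1 - r) / 240, by linarith, by linarith, by positivity, by linarith, ?_⟩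
  intro V _ G hfree hemp out hout w hw
  obtain ⟨Z, hZ⟩ : ∃ Z : ℝ, Z = ∑ v, w v / (1 + ((out v).card : ℝ)) ^ (1 - ε₀ / 2) := ⟨_, rfl⟩
  rw [← hZ]
  by_contra hcon
  push Not at hcon
  obtain ⟨c, hc⟩ : ∃ c : ℝ, c = (1 - r) / 240 := ⟨_, rfl⟩
  have hc0 : 0 < c := by rw [hc]; positivity
  rw [← hc] at hcon
  have hZpos : 0 < c * Z := by
    have h1 := hcon ∅ (by simp [SimpleGraph.IsIndepSet])
    simpa using h1
  obtain ⟨cls, hcls⟩ : ∃ cls : V → ℕ, cls = fun v => Nat.log 2 ((out v).card + 1) := ⟨_, rfl⟩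
  have hlow : ∀ v, (2 : ℝ) ^ cls v ≤ 1 + ((out v).card : ℝ) := by
    intro v
    have h1 : 2 ^ cls v ≤ (out v).card + 1 := by
      rw [hcls]
      exact Nat.pow_log_le_self 2 (by omega)
    have h2 : ((2 ^ cls v : ℕ) : ℝ) ≤ (((out v).card + 1 : ℕ) : ℝ) := by exact_mod_cast h1
    push_cast at h2
    linarith
  have hupp : ∀ v, ((out v).card : ℝ) ≤ (2 : ℝ) ^ (cls v + 1) := by
    intro v
    have h1 : (out v).card + 1 < 2 ^ (cls v + 1) := by
      rw [hcls]
      exact Nat.lt_pow_succ_log_self (by norm_num) _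
    have h2 : (((out v).card + 1 : ℕ) : ℝ) < ((2 ^ (cls v + 1) : ℕ) : ℝ) := by exact_mod_cast h1
    push_cast at h2
    linarith
  -- the weight of a class
  have hclass : ∀ j : ℕ, ∑ v ∈ univ.filter (fun v => cls v = j), w v ≤
      60 * ((2 : ℝ) ^ (j + 1)) ^ (1 - ε₀) * (c * Z) := by
    intro j
    obtain ⟨W, hW⟩ : ∃ W : Finset V, W = univ.filter (fun v => cls v = j) := ⟨_, rfl⟩
    rw [← hW]
    have hD : (1 : ℝ) ≤ (2 : ℝ) ^ (j + 1) := one_le_pow₀ (by norm_num)
    obtain ⟨I, hIW, hI, hIw⟩ := hind V G hfree hemp out hout w hw W ((2 : ℝ) ^ (j + 1)) hD (by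
      intro v hv
      rw [hW, Finset.mem_filter] at hv
      rw [← hv.2]
      exact hupp v)
    have h1 := hcon I hI
    have h2 := lt_of_le_of_lt hIw h1
    have h3 : 0 < ((2 : ℝ) ^ (j + 1)) ^ (1 - ε₀) := by positivity
    rw [one_div, inv_mul_lt_iff₀ (by positivity)] at h2
    exact h2.le
  have hclass2 : ∀ j : ℕ, ∑ v ∈ univ.filter (fun v => cls v = j),
      w v / (1 + ((out v).card : ℝ)) ^ (1 - ε₀ / 2) ≤ r ^ j * (120 * (c * Z)) := by
    intro j
    have h2j : (0 : ℝ) < 2 ^ j := by positivity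
    calc ∑ v ∈ univ.filter (fun v => cls v = j), w v / (1 + ((out v).card : ℝ)) ^ (1 - ε₀ / 2)
        ≤ ∑ v ∈ univ.filter (fun v => cls v = j), w v / ((2 : ℝ) ^ j) ^ (1 - ε₀ / 2) := by
          apply Finset.sum_le_sum
          intro v hv
          rw [Finset.mem_filter] at hv
          apply div_le_div_of_nonneg_left (hw v) (by positivity)
          apply Real.rpow_le_rpow (by positivity) _ (by linarith)
          rw [← hv.2]
          exact hlow v
      _ = (∑ v ∈ univ.filter (fun v => cls v = j), w v) / ((2 : ℝ) ^ j) ^ (1 - ε₀ / 2) := by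
          rw [Finset.sum_div]
      _ ≤ (60 * ((2 : ℝ) ^ (j + 1)) ^ (1 - ε₀) * (c * Z)) /
          ((2 : ℝ) ^ j) ^ (1 - ε₀ / 2) :=
          div_le_div_of_nonneg_right (hclass j) (by positivity)
      _ ≤ _ := by
          rw [div_le_iff₀ (by positivity)]
          have h4 : ((2 : ℝ) ^ (j + 1)) ^ (1 - ε₀) ≤ 2 * ((2 : ℝ) ^ j) ^ (1 - ε₀) := by
            rw [pow_succ, Real.mul_rpow h2j.le (by norm_num), mul_comm]
            apply mul_le_mul_of_nonneg_right _ (by positivity)
            calc (2 : ℝ) ^ (1 - ε₀) ≤ (2 : ℝ) ^ (1 : ℝ) :=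
                  Real.rpow_le_rpow_of_exponent_le (by norm_num) (by linarith)
              _ = 2 := Real.rpow_one 2
          have h5 : r ^ j * ((2 : ℝ) ^ j) ^ (1 - ε₀ / 2) = ((2 : ℝ) ^ j) ^ (1 - ε₀) := by
            have h6 : r ^ j = ((2 : ℝ) ^ j) ^ (-(ε₀ / 2)) := by
              rw [hr, ← Real.rpow_natCast, ← Real.rpow_mul (by norm_num), ← Real.rpow_natCast 2 j,
                ← Real.rpow_mul (by norm_num), mul_comm]
            rw [h6, ← Real.rpow_add h2j]
            congr 1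
            ring
          calc 60 * ((2 : ℝ) ^ (j + 1)) ^ (1 - ε₀) * (c * Z) =
                60 * (c * Z) * ((2 : ℝ) ^ (j + 1)) ^ (1 - ε₀) := by ring
            _ ≤ 60 * (c * Z) * (2 * ((2 : ℝ) ^ j) ^ (1 - ε₀)) :=
                mul_le_mul_of_nonneg_left h4 (by positivity)
            _ = _ := by rw [← h5]; ring
  have hfib : ∑ j ∈ univ.image cls, ∑ v ∈ univ.filter (fun v => cls v = j),
      w v / (1 + ((out v).card : ℝ)) ^ (1 - ε₀ / 2) = Z := by
    rw [hZ]
    exact Finset.sum_fiberwise_of_maps_to (fun v _ => Finset.mem_image_of_mem _ (Finset.mem_univ v)) _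
  have hfin : Z ≤ (1 - r)⁻¹ * (120 * (c * Z)) := by
    rw [← hfib]
    calc ∑ j ∈ univ.image cls, ∑ v ∈ univ.filter (fun v => cls v = j),
          w v / (1 + ((out v).card : ℝ)) ^ (1 - ε₀ / 2)
        ≤ ∑ j ∈ univ.image cls, r ^ j * (120 * (c * Z)) :=
          Finset.sum_le_sum fun j _ => hclass2 j
      _ = (∑ j ∈ univ.image cls, r ^ j) * (120 * (c * Z)) := by
          rw [Finset.sum_mul]
      _ ≤ (1 - r)⁻¹ * (120 * (c * Z)) := by
          apply mul_le_mul_of_nonneg_right _ (by positivity)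
          rw [← tsum_geometric_of_lt_one hr0.le hr1]
          exact (summable_geometric_of_lt_one hr0.le hr1).sum_le_tsum _ (fun j _ => by positivity)
      _ = _ := by rw [hfib]
  have h8 : (1 - r)⁻¹ * (120 * (c * Z)) = Z / 2 := by
    rw [hc]
    field_simp
    ring
  rw [h8] at hfin
  have hZ0 : 0 < Z := by
    by_contra hneg
    push Not at hneg
    nlinarith
  linarith

/-- **Random independent sets.** -/
theorem wrandom (m k : ℕ) (T : SimpleGraph (Fin (m + 1))) (hT : T.IsTree) :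
    ∃ ε c : ℝ, 0 < ε ∧ ε < 1 ∧ 0 < c ∧ c ≤ 1 ∧ ∀ (V : Type) [Fintype V] [DecidableEq V]
      (G : SimpleGraph V), G.CliqueFree k → IsEmpty (T ↪g G) → ∀ out : V → Finset V,
      (∀ u v, G.Adj u v → u ∈ out v ∨ v ∈ out u) →
      ∃ p : Finset V → ℝ, (∀ I, 0 ≤ p I) ∧ ∑ I, p I = 1 ∧
        (∀ I, p I ≠ 0 → G.IsIndepSet (I : Set V)) ∧
        ∀ v, c / (1 + ((out v).card : ℝ)) ^ (1 - ε) ≤ ∑ I ∈ univ.filter (fun I => v ∈ I), p I := by
  classical
  obtain ⟨ε, c, hε, hε1, hc, hc1, hmain⟩ := wlocal m k T hT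
  refine ⟨ε, c / 2, hε, hε1, by positivity, by linarith, ?_⟩
  intro V _ _ G hfree hemp out hout
  rcases isEmpty_or_nonempty V with hV | hV
  · refine ⟨fun _ => 1, fun I => by norm_num, ?_, ?_, ?_⟩
    · rw [Finset.sum_const, nsmul_eq_mul, mul_one, Finset.card_univ, Fintype.card_finset,
        Fintype.card_eq_zero]
      norm_num
    · intro I _ x
      exact (hV.false x).elim
    · intro v
      exact (hV.false v).elim
  obtain ⟨K, hK⟩ : ∃ K : Set (Finset V → ℝ), K = {p | (∀ I : Finset V, 0 ≤ p I) ∧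
      ∑ I : Finset V, p I = 1 ∧ ∀ I : Finset V, ¬ G.IsIndepSet (I : Set V) → p I = 0} := ⟨_, rfl⟩
  obtain ⟨f, hf⟩ : ∃ f : V → (Finset V → ℝ) → ℝ, f = fun v p =>
      (1 + ((out v).card : ℝ)) ^ (1 - ε) * ∑ I ∈ univ.filter (fun I => v ∈ I), p I := ⟨_, rfl⟩
  obtain ⟨p, hpK, hp⟩ := Pool.Agent.R50.SR.minimax K (by
    rw [hK]
    rintro p ⟨hp1, hp2, hp3⟩ q ⟨hq1, hq2, hq3⟩ a b ha hb hab
    refine ⟨fun I => ?_, ?_, fun I hI => ?_⟩
    · simp only [Pi.add_apply, Pi.smul_apply, smul_eq_mul]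
      have := hp1 I
      have := hq1 I
      positivity
    · simp only [Pi.add_apply, Pi.smul_apply, smul_eq_mul]
      rw [Finset.sum_add_distrib, ← Finset.mul_sum, ← Finset.mul_sum, hp2, hq2, mul_one, mul_one,
        hab]
    · simp only [Pi.add_apply, Pi.smul_apply, smul_eq_mul]
      rw [hp3 I hI, hq3 I hI, mul_zero, mul_zero, add_zero]) f (by
    intro v
    refine ⟨by
      rw [hK]
      rintro p ⟨hp1, hp2, hp3⟩ q ⟨hq1, hq2, hq3⟩ a b ha hb hab
      refine ⟨fun I => ?_, ?_, fun I hI => ?_⟩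
      · simp only [Pi.add_apply, Pi.smul_apply, smul_eq_mul]
        have := hp1 I
        have := hq1 I
        positivity
      · simp only [Pi.add_apply, Pi.smul_apply, smul_eq_mul]
        rw [Finset.sum_add_distrib, ← Finset.mul_sum, ← Finset.mul_sum, hp2, hq2, mul_one,
          mul_one, hab]
      · simp only [Pi.add_apply, Pi.smul_apply, smul_eq_mul]
        rw [hp3 I hI, hq3 I hI, mul_zero, mul_zero, add_zero], ?_⟩
    intro p _ q _ a b _ _ _
    rw [hf]
    simp only [Pi.add_apply, Pi.smul_apply, smul_eq_mul]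
    rw [Finset.sum_add_distrib, ← Finset.mul_sum, ← Finset.mul_sum]
    apply le_of_eq
    ring) c (by
    intro l hl hl1
    obtain ⟨I, hI, hIw⟩ := hmain V G hfree hemp out hout
      (fun v => l v * (1 + ((out v).card : ℝ)) ^ (1 - ε)) (fun v => by
        have := hl v
        positivity)
    refine ⟨fun J => if J = I then 1 else 0, ?_, ?_⟩
    · rw [hK]
      refine ⟨fun J => by dsimp only; split_ifs <;> norm_num, ?_, fun J hJ => ?_⟩
      · rw [Finset.sum_ite_eq' Finset.univ I]
        simp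
      · dsimp only
        rw [if_neg]
        rintro rfl
        exact hJ hI
    · have h1 : ∑ v, l v * (1 + ((out v).card : ℝ)) ^ (1 - ε) /
          (1 + ((out v).card : ℝ)) ^ (1 - ε) = 1 := by
        rw [← hl1]
        apply Finset.sum_congr rfl
        intro v _
        have : 0 < (1 + ((out v).card : ℝ)) ^ (1 - ε) := by positivity
        field_simp
      rw [h1, mul_one] at hIw
      refine hIw.trans (le_of_eq ?_)
      have h2 : ∀ v, l v * f v (fun J => if J = I then 1 else 0) =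
          if v ∈ I then l v * (1 + ((out v).card : ℝ)) ^ (1 - ε) else 0 := by
        intro v
        rw [hf]
        dsimp only
        rw [Finset.sum_ite_eq' (univ.filter (fun J => v ∈ J)) I]
        by_cases hv : v ∈ I
        · simp [hv]
        · simp [hv]
      rw [Finset.sum_congr rfl (fun v _ => h2 v), ← Finset.sum_filter]
      congr 1
      ext v
      simp) (c / 2) (by linarith)
  rw [hK] at hpK
  obtain ⟨h1, h2, h3⟩ := hpK
  refine ⟨p, h1, h2, fun I hI => ?_, fun v => ?_⟩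
  · by_contra h
    exact hI (h3 I h)
  · have h4 := hp v
    rw [hf] at h4
    have h5 : 0 < (1 + ((out v).card : ℝ)) ^ (1 - ε) := by positivity
    rw [div_le_iff₀ h5]
    dsimp only at h4
    linarith

end Pool.Agent.J4.H79.GW
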