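import Mathlib

set_option autoImplicit false
set_option linter.unusedSectionVars false

/-!
# Weighted graphs: the random walk matrix and its powers
-/

namespace Pool.Agent.J4.H79.GW

open Finset

variable {V : Type} [Fintype V] [DecidableEq V] {G : SimpleGraph V} {μ : V → ℝ} {D : ℝ}

open Classical in
/-- weight of an edge: the smaller of the weights of its ends -/
noncomputable def b (G : SimpleGraph V) (μ : V → ℝ) (u v : V) : ℝ :=
  if G.Adj u v then min (μ u) (μ v) else 0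

theorem b_comm (u v : V) : b G μ u v = b G μ v u := by
  unfold b
  by_cases h : G.Adj u v
  · rw [if_pos h, if_pos h.symm, min_comm]
  · rw [if_neg h, if_neg (fun h' => h h'.symm)]

theorem b_nonneg (hμ : ∀ v, 0 ≤ μ v) (u v : V) : 0 ≤ b G μ u v := by
  unfold b
  split_ifs
  · exact le_min (hμ u) (hμ v)
  · exact le_refl _

theorem b_le_left (hμ : ∀ v, 0 ≤ μ v) (u v : V) : b G μ u v ≤ μ u := by
  unfold b
  split_ifs
  · exact min_le_left _ _
  · exact hμ u

theorem b_le_right (hμ : ∀ v, 0 ≤ μ v) (u v : V) : b G μ u v ≤ μ v := by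
  rw [b_comm]
  exact b_le_left hμ v u

theorem b_self (v : V) : b G μ v v = 0 := by
  unfold b
  rw [if_neg (G.loopless.irrefl v)]

/-- the matrix of the (lazy, killed) random walk -/
noncomputable def P (G : SimpleGraph V) (μ : V → ℝ) (D : ℝ) : Matrix V V ℝ :=
  Matrix.of fun u v => b G μ u v / (D * μ u)

theorem P_apply (u v : V) : P G μ D u v = b G μ u v / (D * μ u) := rfl

theorem mul_P (hμ : ∀ v, 0 ≤ μ v) (hD : 0 < D) (u v : V) :
    μ u * P G μ D u v = b G μ u v / D := by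
  rw [P_apply]
  rcases eq_or_lt_of_le (hμ u) with h | h
  · have h1 := b_le_left (G := G) hμ u v
    have h2 := b_nonneg (G := G) hμ u v
    rw [← h] at h1
    have h3 : b G μ u v = 0 := le_antisymm h1 h2
    rw [h3]
    simp
  · have h1 : μ u ≠ 0 := h.ne'
    field_simp

theorem P_nonneg (hμ : ∀ v, 0 ≤ μ v) (hD : 0 < D) (u v : V) : 0 ≤ P G μ D u v := by
  rw [P_apply]
  exact div_nonneg (b_nonneg hμ u v) (mul_nonneg hD.le (hμ u))

theorem P_le (hμ : ∀ v, 0 ≤ μ v) (hD : 0 < D) (u v : V) : P G μ D u v ≤ 1 / D := by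
  rw [P_apply]
  rcases eq_or_lt_of_le (hμ u) with h | h
  · rw [← h]
    simp only [mul_zero, div_zero]
    positivity
  · rw [div_le_div_iff₀ (by positivity) hD]
    have h1 := b_le_left (G := G) hμ u v
    nlinarith

theorem P_row (hμ : ∀ v, 0 ≤ μ v) (hD : 0 < D) (hdeg : ∀ v, ∑ u, b G μ v u ≤ D * μ v) (u : V) :
    ∑ v, P G μ D u v ≤ 1 := by
  have h1 : ∑ v, P G μ D u v = (∑ v, b G μ u v) / (D * μ u) := by
    rw [Finset.sum_div]
    rfl
  rw [h1]
  apply div_le_one_of_le₀ (hdeg u)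
  exact mul_nonneg hD.le (hμ u)

theorem Pn_zero (u v : V) : (P G μ D ^ 0) u v = if u = v then 1 else 0 := by
  rw [pow_zero, Matrix.one_apply]

theorem Pn_succ (n : ℕ) (u v : V) :
    (P G μ D ^ (n + 1)) u v = ∑ w, (P G μ D ^ n) u w * P G μ D w v := by
  rw [pow_succ, Matrix.mul_apply]

theorem Pn_succ' (n : ℕ) (u v : V) :
    (P G μ D ^ (n + 1)) u v = ∑ w, P G μ D u w * (P G μ D ^ n) w v := by
  rw [pow_succ', Matrix.mul_apply]

theorem Pn_add (m n : ℕ) (u v : V) :
    (P G μ D ^ (m + n)) u v = ∑ w, (P G μ D ^ m) u w * (P G μ D ^ n) w v := by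
  rw [pow_add, Matrix.mul_apply]

theorem Pn_nonneg (hμ : ∀ v, 0 ≤ μ v) (hD : 0 < D) (n : ℕ) : ∀ u v : V, 0 ≤ (P G μ D ^ n) u v := by
  induction n with
  | zero =>
    intro u v
    rw [pow_zero, Matrix.one_apply]
    split_ifs <;> norm_num
  | succ n ih =>
    intro u v
    rw [pow_succ, Matrix.mul_apply]
    exact Finset.sum_nonneg fun w _ => mul_nonneg (ih u w) (P_nonneg hμ hD w v)

theorem Pn_row (hμ : ∀ v, 0 ≤ μ v) (hD : 0 < D) (hdeg : ∀ v, ∑ u, b G μ v u ≤ D * μ v) (n : ℕ) :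
    ∀ u : V, ∑ v, (P G μ D ^ n) u v ≤ 1 := by
  induction n with
  | zero =>
    intro u
    rw [pow_zero]
    simp [Matrix.one_apply]
  | succ n ih =>
    intro u
    have h1 : ∑ v, (P G μ D ^ (n + 1)) u v = ∑ w, P G μ D u w * ∑ v, (P G μ D ^ n) w v := by
      simp only [pow_succ', Matrix.mul_apply, Finset.mul_sum]
      rw [Finset.sum_comm]
    rw [h1]
    refine le_trans ?_ (P_row hμ hD hdeg u)
    apply Finset.sum_le_sum
    intro w _
    exact mul_le_of_le_one_right (P_nonneg hμ hD u w) (ih w)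

theorem Pn_le (hμ : ∀ v, 0 ≤ μ v) (hD : 0 < D) (hdeg : ∀ v, ∑ u, b G μ v u ≤ D * μ v) (n : ℕ) :
    ∀ u v : V, (P G μ D ^ (n + 1)) u v ≤ 1 / D := by
  intro u v
  rw [pow_succ, Matrix.mul_apply]
  calc ∑ w, (P G μ D ^ n) u w * P G μ D w v ≤ ∑ w, (P G μ D ^ n) u w * (1 / D) :=
        Finset.sum_le_sum fun w _ => mul_le_mul_of_nonneg_left (P_le hμ hD w v)
          (Pn_nonneg hμ hD n u w)
    _ = (∑ w, (P G μ D ^ n) u w) * (1 / D) := by rw [Finset.sum_mul]
    _ ≤ 1 * (1 / D) := mul_le_mul_of_nonneg_right (Pn_row hμ hD hdeg n u) (by positivity)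
    _ = 1 / D := one_mul _

/-- reversibility -/
theorem Pn_symm (hμ : ∀ v, 0 ≤ μ v) (hD : 0 < D) (n : ℕ) :
    ∀ u v : V, μ u * (P G μ D ^ n) u v = μ v * (P G μ D ^ n) v u := by
  induction n with
  | zero =>
    intro u v
    rw [pow_zero, Matrix.one_apply, Matrix.one_apply]
    by_cases h : u = v
    · rw [h]
    · rw [if_neg h, if_neg (fun h' => h h'.symm), mul_zero, mul_zero]
  | succ n ih =>
    intro u v
    rw [Pn_succ n u v, Pn_succ' n v u, Finset.mul_sum, Finset.mul_sum]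
    apply Finset.sum_congr rfl
    intro w _
    have h1 := ih u w
    have h2 := mul_P (G := G) hμ hD w v
    have h3 := mul_P (G := G) hμ hD v w
    rw [b_comm] at h3
    calc μ u * ((P G μ D ^ n) u w * P G μ D w v) = (μ u * (P G μ D ^ n) u w) * P G μ D w v := by ring
      _ = (μ w * P G μ D w v) * (P G μ D ^ n) w u := by rw [h1]; ring
      _ = (μ v * P G μ D v w) * (P G μ D ^ n) w u := by rw [h2, h3]
      _ = μ v * (P G μ D v w * (P G μ D ^ n) w u) := by ring

/-! ### Quadratic forms -/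

/-- the weighted sum of squares -/
noncomputable def N (μ f : V → ℝ) : ℝ := ∑ v, μ v * f v ^ 2

/-- the form of the edge weights -/
noncomputable def B (G : SimpleGraph V) (μ : V → ℝ) (f g : V → ℝ) : ℝ :=
  ∑ u, ∑ v, b G μ u v * (f u * g v)

theorem N_nonneg (hμ : ∀ v, 0 ≤ μ v) (f : V → ℝ) : 0 ≤ N μ f :=
  Finset.sum_nonneg fun v _ => mul_nonneg (hμ v) (sq_nonneg _)

theorem B_comm (f g : V → ℝ) : B G μ f g = B G μ g f := by
  unfold B
  rw [Finset.sum_comm]
  apply Finset.sum_congr rfl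
  intro v _
  apply Finset.sum_congr rfl
  intro w _
  rw [b_comm]
  ring

theorem B_add_left (f f' g : V → ℝ) :
    B G μ (fun v => f v + f' v) g = B G μ f g + B G μ f' g := by
  unfold B
  rw [← Finset.sum_add_distrib]
  apply Finset.sum_congr rfl
  intro v _
  rw [← Finset.sum_add_distrib]
  apply Finset.sum_congr rfl
  intro w _
  ring

theorem B_smul_left (t : ℝ) (f g : V → ℝ) : B G μ (fun v => t * f v) g = t * B G μ f g := by
  unfold B
  rw [Finset.mul_sum]
  apply Finset.sum_congr rfl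
  intro v _
  rw [Finset.mul_sum]
  apply Finset.sum_congr rfl
  intro w _
  ring

theorem B_add (g h : V → ℝ) (t : ℝ) :
    B G μ (fun v => g v + t * h v) (fun v => g v + t * h v) =
      B G μ g g + 2 * t * B G μ g h + t ^ 2 * B G μ h h := by
  rw [B_add_left, B_smul_left, B_comm g, B_comm h, B_add_left, B_add_left, B_smul_left,
    B_smul_left, B_comm h g]
  ring

theorem N_add (g h : V → ℝ) (t : ℝ) :
    N μ (fun v => g v + t * h v) = N μ g + 2 * t * ∑ v, μ v * (g v * h v) + t ^ 2 * N μ h := by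
  unfold N
  rw [Finset.mul_sum, Finset.mul_sum, ← Finset.sum_add_distrib, ← Finset.sum_add_distrib]
  apply Finset.sum_congr rfl
  intro v _
  ring

theorem B_le (hμ : ∀ v, 0 ≤ μ v) (hdeg : ∀ v, ∑ u, b G μ v u ≤ D * μ v) (f : V → ℝ) :
    B G μ f f ≤ D * N μ f := by
  have h1 : B G μ f f ≤ ∑ u, ∑ v, b G μ u v * ((f u ^ 2 + f v ^ 2) / 2) := by
    unfold B
    apply Finset.sum_le_sum
    intro u _
    apply Finset.sum_le_sum
    intro v _
    apply mul_le_mul_of_nonneg_left _ (b_nonneg hμ u v)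
    nlinarith [sq_nonneg (f u - f v)]
  have h3 : ∑ u, ∑ v, b G μ u v * f v ^ 2 = ∑ u, ∑ v, b G μ u v * f u ^ 2 := by
    rw [Finset.sum_comm]
    apply Finset.sum_congr rfl
    intro u _
    apply Finset.sum_congr rfl
    intro v _
    rw [b_comm]
  have h4 : ∑ u, ∑ v, b G μ u v * ((f u ^ 2 + f v ^ 2) / 2) =
      ((∑ u, ∑ v, b G μ u v * f u ^ 2) + ∑ u, ∑ v, b G μ u v * f v ^ 2) / 2 := by
    rw [← Finset.sum_add_distrib, Finset.sum_div]
    apply Finset.sum_congr rfl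
    intro u _
    rw [← Finset.sum_add_distrib, Finset.sum_div]
    apply Finset.sum_congr rfl
    intro v _
    ring
  have h5 : ∑ u, ∑ v, b G μ u v * f u ^ 2 ≤ D * N μ f := by
    unfold N
    rw [Finset.mul_sum]
    apply Finset.sum_le_sum
    intro u _
    rw [← Finset.sum_mul]
    have := mul_le_mul_of_nonneg_right (hdeg u) (sq_nonneg (f u))
    linarith
  rw [h4, h3] at h1
  linarith

/-- the walk operator -/
noncomputable def ap (G : SimpleGraph V) (μ : V → ℝ) (D : ℝ) (f : V → ℝ) (u : V) : ℝ :=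
  ∑ v, P G μ D u v * f v

theorem mul_ap (hμ : ∀ v, 0 ≤ μ v) (hD : 0 < D) (f : V → ℝ) (u : V) :
    D * (μ u * ap G μ D f u) = ∑ v, b G μ u v * f v := by
  unfold ap
  rw [Finset.mul_sum, Finset.mul_sum]
  apply Finset.sum_congr rfl
  intro v _
  have h1 := mul_P (G := G) hμ hD u v
  have h2 : D * (μ u * (P G μ D u v * f v)) = D * (μ u * P G μ D u v) * f v := by ring
  rw [h2, h1]
  field_simp

theorem B_ap (hμ : ∀ v, 0 ≤ μ v) (hD : 0 < D) (f g : V → ℝ) :
    B G μ g f = D * ∑ u, μ u * (g u * ap G μ D f u) := by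
  unfold B
  rw [Finset.mul_sum]
  apply Finset.sum_congr rfl
  intro u _
  have h1 := mul_ap (G := G) hμ hD f u
  have h2 : ∑ v, b G μ u v * (g u * f v) = g u * ∑ v, b G μ u v * f v := by
    rw [Finset.mul_sum]
    apply Finset.sum_congr rfl
    intro v _
    ring
  rw [h2, ← h1]
  ring

/-- **The spectral inequality**: `P² ≤ (1 - ε) P + ε`. -/
theorem spec {ε : ℝ} (hε : 0 ≤ ε) (hμ : ∀ v, 0 ≤ μ v) (hD : 0 < D)
    (hdeg : ∀ v, ∑ u, b G μ v u ≤ D * μ v)
    (hq : ∀ f : V → ℝ, -(ε * D) * N μ f ≤ B G μ f f) (f : V → ℝ) :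
    N μ (ap G μ D f) ≤ (1 - ε) * ∑ u, μ u * (f u * ap G μ D f u) + ε * N μ f := by
  obtain ⟨h, hh⟩ : ∃ h : V → ℝ, h = fun v => ap G μ D f v + ε * f v := ⟨_, rfl⟩
  obtain ⟨L, hL⟩ : ∃ L : ℝ, L = ∑ u, μ u * (f u * ap G μ D f u) := ⟨_, rfl⟩
  have hff : B G μ f f = D * L := by rw [B_ap hμ hD, hL]
  have hNh : N μ h = N μ (ap G μ D f) + 2 * ε * L + ε ^ 2 * N μ f := by
    rw [hh, N_add, hL]
    congr 3
    apply Finset.sum_congr rfl
    intro v _
    ring
  have hfh : B G μ f h + ε * D * ∑ v, μ v * (f v * h v) = D * N μ h := by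
    rw [B_comm, B_ap hμ hD]
    unfold N
    rw [mul_assoc, mul_comm ε, mul_assoc, ← mul_add, mul_comm _ ε, Finset.mul_sum,
      ← Finset.sum_add_distrib]
    congr 1
    apply Finset.sum_congr rfl
    intro v _
    have : h v = ap G μ D f v + ε * f v := by rw [hh]
    rw [this]
    ring
  have hhh := B_le (G := G) hμ hdeg h
  have h2 := hq (fun v => f v + (-1 / (1 + ε)) * h v)
  rw [B_add, N_add] at h2
  have hε1 : 0 < 1 + ε := by linarith
  obtain ⟨t, ht⟩ : ∃ t : ℝ, t = 1 / (1 + ε) := ⟨_, rfl⟩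
  have ht1 : t * (1 + ε) = 1 := by rw [ht]; field_simp
  have ht0 : 0 < t := by rw [ht]; positivity
  have ht2 : -1 / (1 + ε) = -t := by rw [ht]; ring
  rw [ht2, hff] at h2
  have hNh0 := N_nonneg hμ h
  -- t ^ 2 * (B h h + ε D N h) ≤ t D N h
  have h3 : t ^ 2 * (B G μ h h + ε * D * N μ h) ≤ t * (D * N μ h) := by
    have e1 : B G μ h h + ε * D * N μ h ≤ (1 + ε) * (D * N μ h) := by linarith
    calc t ^ 2 * (B G μ h h + ε * D * N μ h) ≤ t ^ 2 * ((1 + ε) * (D * N μ h)) :=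
          mul_le_mul_of_nonneg_left e1 (by positivity)
      _ = t * (t * (1 + ε)) * (D * N μ h) := by ring
      _ = t * (D * N μ h) := by rw [ht1, mul_one]
  have h4 : t * (D * N μ h) ≤ D * L + ε * D * N μ f := by
    have e2 : D * L + ε * D * N μ f - 2 * t * (B G μ f h + ε * D * ∑ v, μ v * (f v * h v)) +
        t ^ 2 * (B G μ h h + ε * D * N μ h) ≥ 0 := by nlinarith
    rw [hfh] at e2
    linarith
  have h5 : D * N μ h ≤ (1 + ε) * (D * L + ε * D * N μ f) := by
    have := mul_le_mul_of_nonneg_left h4 hε1.le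
    calc D * N μ h = (t * (1 + ε)) * (D * N μ h) := by rw [ht1, one_mul]
      _ = (1 + ε) * (t * (D * N μ h)) := by ring
      _ ≤ _ := this
  rw [hNh] at h5
  rw [← hL]
  have h6 : D * (N μ (ap G μ D f)) ≤ D * ((1 - ε) * L + ε * N μ f) := by nlinarith
  exact le_of_mul_le_mul_left h6 hD

end Pool.Agent.J4.H79.GW
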