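import Pool.Agent.J4.H79.GW.Pow

set_option autoImplicit false
set_option linter.unusedSectionVars false

/-!
# Weighted graphs: return probabilities and codegrees
-/

namespace Pool.Agent.J4.H79.GW

open Finset

variable {V : Type} [Fintype V] [DecidableEq V] {G : SimpleGraph V} {μ : V → ℝ} {D : ℝ}

/-- weighted return probability -/
noncomputable def t (G : SimpleGraph V) (μ : V → ℝ) (D : ℝ) (n : ℕ) (v : V) : ℝ :=
  μ v * (P G μ D ^ n) v v

theorem t_nonneg (hμ : ∀ v, 0 ≤ μ v) (hD : 0 < D) (n : ℕ) (v : V) : 0 ≤ t G μ D n v :=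
  mul_nonneg (hμ v) (Pn_nonneg hμ hD n v v)

theorem t_add (hμ : ∀ v, 0 ≤ μ v) (hD : 0 < D) (i j : ℕ) (v : V) :
    t G μ D (i + j) v = ∑ u, μ u * ((P G μ D ^ i) u v * (P G μ D ^ j) u v) := by
  unfold t
  rw [Pn_add, Finset.mul_sum]
  apply Finset.sum_congr rfl
  intro u _
  have h1 := Pn_symm (G := G) hμ hD i v u
  calc μ v * ((P G μ D ^ i) v u * (P G μ D ^ j) u v) =
        (μ v * (P G μ D ^ i) v u) * (P G μ D ^ j) u v := by ring
    _ = μ u * ((P G μ D ^ i) u v * (P G μ D ^ j) u v) := by rw [h1]; ring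

theorem N_col (hμ : ∀ v, 0 ≤ μ v) (hD : 0 < D) (j : ℕ) (v : V) :
    N μ (fun u => (P G μ D ^ j) u v) = t G μ D (2 * j) v := by
  rw [two_mul, t_add hμ hD]
  unfold N
  apply Finset.sum_congr rfl
  intro u _
  ring

theorem ap_col (j : ℕ) (v : V) :
    ap G μ D (fun u => (P G μ D ^ j) u v) = fun u => (P G μ D ^ (j + 1)) u v := by
  funext u
  unfold ap
  rw [Pn_succ']

theorem form_col (hμ : ∀ v, 0 ≤ μ v) (hD : 0 < D) (j : ℕ) (v : V) :
    ∑ u, μ u * ((fun u => (P G μ D ^ j) u v) u * ap G μ D (fun u => (P G μ D ^ j) u v) u) =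
      t G μ D (2 * j + 1) v := by
  have e1 : 2 * j + 1 = j + (j + 1) := by ring
  rw [e1, t_add hμ hD, ap_col]

theorem t_zero (v : V) : t G μ D 0 v = μ v := by
  unfold t
  rw [Pn_zero, if_pos rfl, mul_one]

theorem t_one (v : V) : t G μ D 1 v = 0 := by
  unfold t
  rw [pow_one, P_apply, b_self, zero_div, mul_zero]

theorem t_odd (hμ : ∀ v, 0 ≤ μ v) (hD : 0 < D) (hdeg : ∀ v, ∑ u, b G μ v u ≤ D * μ v) (j : ℕ)
    (v : V) : t G μ D (2 * j + 1) v ≤ t G μ D (2 * j) v := by
  have h1 := B_le (G := G) hμ hdeg (fun u => (P G μ D ^ j) u v)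
  rw [B_ap hμ hD, form_col hμ hD, N_col hμ hD] at h1
  exact le_of_mul_le_mul_left h1 hD

theorem t_spec {ε : ℝ} (hε : 0 ≤ ε) (hμ : ∀ v, 0 ≤ μ v) (hD : 0 < D)
    (hdeg : ∀ v, ∑ u, b G μ v u ≤ D * μ v)
    (hq : ∀ f : V → ℝ, -(ε * D) * N μ f ≤ B G μ f f) (j : ℕ) (v : V) :
    t G μ D (2 * j + 2) v ≤ (1 - ε) * t G μ D (2 * j + 1) v + ε * t G μ D (2 * j) v := by
  have h1 := spec hε hμ hD hdeg hq (fun u => (P G μ D ^ j) u v)
  rw [form_col hμ hD, N_col hμ hD, ap_col, N_col hμ hD] at h1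
  exact h1

theorem t_two (hμ : ∀ v, 0 ≤ μ v) (hD : 0 < D) (hdeg : ∀ v, ∑ u, b G μ v u ≤ D * μ v) (v : V) :
    t G μ D 2 v ≤ μ v / D := by
  unfold t
  have h1 := Pn_le (G := G) hμ hD hdeg 1 v v
  rw [div_eq_mul_one_div]
  exact mul_le_mul_of_nonneg_left h1 (hμ v)

theorem t_two' {ε : ℝ} (hε : 0 ≤ ε) (hμ : ∀ v, 0 ≤ μ v) (hD : 0 < D)
    (hdeg : ∀ v, ∑ u, b G μ v u ≤ D * μ v)
    (hq : ∀ f : V → ℝ, -(ε * D) * N μ f ≤ B G μ f f) (v : V) :
    t G μ D 2 v ≤ ε * μ v := by
  have h1 := t_spec hε hμ hD hdeg hq 0 v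
  simp only [mul_zero, zero_add] at h1
  rw [t_one, t_zero] at h1
  linarith

theorem t_even {ε : ℝ} (hε : 0 ≤ ε) (hε1 : ε ≤ 1) (hμ : ∀ v, 0 ≤ μ v) (hD : 0 < D)
    (hdeg : ∀ v, ∑ u, b G μ v u ≤ D * μ v)
    (hq : ∀ f : V → ℝ, -(ε * D) * N μ f ≤ B G μ f f) (j : ℕ) (v : V) :
    t G μ D (2 * j + 2) v ≤ t G μ D (2 * j) v := by
  have h1 := t_spec hε hμ hD hdeg hq j v
  have h2 := mul_le_mul_of_nonneg_left (t_odd (G := G) hμ hD hdeg j v)
    (show 0 ≤ 1 - ε by linarith)
  linarith

theorem t_le_two {ε : ℝ} (hε : 0 ≤ ε) (hε1 : ε ≤ 1) (hμ : ∀ v, 0 ≤ μ v) (hD : 0 < D)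
    (hdeg : ∀ v, ∑ u, b G μ v u ≤ D * μ v)
    (hq : ∀ f : V → ℝ, -(ε * D) * N μ f ≤ B G μ f f) (v : V) (n i : ℕ) :
    t G μ D (2 * i + n) v ≤ t G μ D (2 * i) v := by
  have hev : ∀ j : ℕ, t G μ D (2 * (i + j)) v ≤ t G μ D (2 * i) v := by
    intro j
    induction j with
    | zero => exact le_refl _
    | succ j ih => exact (t_even hε hε1 hμ hD hdeg hq (i + j) v).trans ih
  obtain ⟨j, hj⟩ := Nat.even_or_odd' n
  rcases hj with hj | hj
  · have e1 : 2 * i + n = 2 * (i + j) := by omega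
    rw [e1]
    exact hev j
  · have e1 : 2 * i + n = 2 * (i + j) + 1 := by omega
    rw [e1]
    exact (t_odd hμ hD hdeg _ v).trans (hev j)

theorem t_three_le {ε : ℝ} (hε : 0 ≤ ε) (hε1 : ε ≤ 1) (hμ : ∀ v, 0 ≤ μ v) (hD : 0 < D)
    (hdeg : ∀ v, ∑ u, b G μ v u ≤ D * μ v)
    (hq : ∀ f : V → ℝ, -(ε * D) * N μ f ≤ B G μ f f) (v : V) (n : ℕ) (hn : 3 ≤ n) :
    t G μ D n v ≤ t G μ D 3 v + ε * t G μ D 2 v := by
  have h2 := t_nonneg (G := G) hμ hD 2 v
  have h3 := t_nonneg (G := G) hμ hD 3 v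
  rcases Nat.lt_or_ge n 4 with h4 | h4
  · have : n = 3 := by omega
    rw [this]
    have := mul_nonneg hε h2
    linarith
  · obtain ⟨j, hj⟩ := Nat.exists_eq_add_of_le h4
    have h5 := t_le_two hε hε1 hμ hD hdeg hq v j 2
    have h6 := t_spec hε hμ hD hdeg hq 1 v
    have e1 : 2 * 2 + j = n := by omega
    rw [e1] at h5
    have e2 : 2 * 1 + 2 = 2 * 2 := rfl
    rw [e2] at h6
    have e3 : (1 - ε) * t G μ D (2 * 1 + 1) v ≤ t G μ D 3 v := by
      show (1 - ε) * t G μ D 3 v ≤ t G μ D 3 v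
      have := mul_nonneg hε h3
      linarith
    have e4 : t G μ D (2 * 1) v = t G μ D 2 v := rfl
    rw [e4] at h6
    linarith

/-! ### Closed walks of length three -/

/-- restriction of the weight to a set -/
noncomputable def res (μ : V → ℝ) (A : Finset V) (v : V) : ℝ := if v ∈ A then μ v else 0

theorem res_nonneg (hμ : ∀ v, 0 ≤ μ v) (A : Finset V) (v : V) : 0 ≤ res μ A v := by
  unfold res
  split_ifs
  · exact hμ v
  · exact le_refl _

theorem b_res (hμ : ∀ v, 0 ≤ μ v) (A : Finset V) (u v : V) :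
    b G (res μ A) u v = if u ∈ A ∧ v ∈ A then b G μ u v else 0 := by
  unfold b res
  by_cases h : G.Adj u v
  · simp only [if_pos h]
    by_cases hu : u ∈ A
    · by_cases hv : v ∈ A
      · simp [hu, hv]
      · simp [hu, hv, hμ u]
    · by_cases hv : v ∈ A
      · simp [hu, hv, hμ v]
      · simp [hu, hv]
  · simp [h]

theorem t_three_eq (hμ : ∀ v, 0 ≤ μ v) (hD : 0 < D) (v : V) :
    D * t G μ D 3 v = ∑ w, ∑ w', b G μ w w' * (P G μ D w v * P G μ D w' v) := by
  have h1 := t_add (G := G) hμ hD 1 2 v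
  have e1 : (1 : ℕ) + 2 = 3 := rfl
  rw [e1] at h1
  rw [h1, Finset.mul_sum]
  apply Finset.sum_congr rfl
  intro w _
  have e2 : (P G μ D ^ 2) w v = ∑ w', P G μ D w w' * P G μ D w' v := by
    have := Pn_succ' (G := G) (μ := μ) (D := D) 1 w v
    rw [pow_one] at this
    exact this
  rw [e2, pow_one, Finset.mul_sum, Finset.mul_sum, Finset.mul_sum]
  apply Finset.sum_congr rfl
  intro w' _
  have h2 := mul_P (G := G) hμ hD w w'
  calc D * (μ w * (P G μ D w v * (P G μ D w w' * P G μ D w' v))) =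
        D * (μ w * P G μ D w w') * (P G μ D w v * P G μ D w' v) := by ring
    _ = b G μ w w' * (P G μ D w v * P G μ D w' v) := by
        rw [h2]
        field_simp

open Classical in
theorem t_three_bound {K γ' : ℝ} (hK : 1 ≤ K) (hγ' : 0 ≤ γ') (hμ : ∀ v, 0 ≤ μ v) (hD : 0 < D)
    (hdeg : ∀ v, ∑ u, b G μ v u ≤ D * μ v) (v : V) (A : Finset V)
    (hA : A = univ.filter (fun w => G.Adj v w ∧ μ w ≤ K * μ v))
    (hind : ∑ u, ∑ w, b G (res μ A) u w ≤ γ' * D * ∑ w, res μ A w) :
    t G μ D 3 v ≤ (2 / K + γ' * K) * (μ v / D) := by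
  have hK0 : 0 < K := by linarith
  rcases eq_or_lt_of_le (hμ v) with h0 | hpos
  · unfold t
    rw [← h0]
    simp
  obtain ⟨H, hH⟩ : ∃ H : Finset V, H = univ.filter (fun w => G.Adj v w ∧ K * μ v < μ w) := ⟨_, rfl⟩
  have hPv : ∀ w, w ∉ A → w ∉ H → P G μ D w v = 0 := by
    intro w hwA hwH
    have : ¬ G.Adj w v := by
      intro hadj
      rw [hA, Finset.mem_filter] at hwA
      rw [hH, Finset.mem_filter] at hwH
      rcases le_or_gt (μ w) (K * μ v) with h | h
      · exact hwA ⟨Finset.mem_univ _, hadj.symm, h⟩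
      · exact hwH ⟨Finset.mem_univ _, hadj.symm, h⟩
    rw [P_apply]
    unfold b
    rw [if_neg this, zero_div]
  -- heavy neighbours
  have hHcard : (H.card : ℝ) ≤ D := by
    have h1 : (H.card : ℝ) * μ v ≤ ∑ u, b G μ v u := by
      rw [← nsmul_eq_mul, ← Finset.sum_const]
      refine le_trans ?_ (Finset.sum_le_sum_of_subset_of_nonneg (Finset.subset_univ H)
        (fun i _ _ => b_nonneg hμ v i))
      apply Finset.sum_le_sum
      intro w hw
      rw [hH, Finset.mem_filter] at hw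
      unfold b
      rw [if_pos hw.2.1]
      apply le_min le_rfl
      have := hw.2.2
      nlinarith
    have h2 := h1.trans (hdeg v)
    exact le_of_mul_le_mul_right h2 hpos
  have hHsum : ∑ w ∈ H, P G μ D w v ≤ 1 / K := by
    have h1 : ∀ w ∈ H, P G μ D w v ≤ 1 / (D * K) := by
      intro w hw
      rw [hH, Finset.mem_filter] at hw
      have h2 : 0 < μ w := by
        have := hw.2.2
        have : 0 < K * μ v := by positivity
        linarith
      rw [P_apply, div_le_div_iff₀ (by positivity) (by positivity)]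
      have h3 := b_le_right (G := G) hμ w v
      have h4 := hw.2.2
      have h5 : b G μ w v * (D * K) ≤ μ v * (D * K) := mul_le_mul_of_nonneg_right h3 (by positivity)
      nlinarith
    have h2 := Finset.sum_le_sum h1
    rw [Finset.sum_const, nsmul_eq_mul] at h2
    refine h2.trans ?_
    have h3 : (H.card : ℝ) * (1 / (D * K)) ≤ D * (1 / (D * K)) :=
      mul_le_mul_of_nonneg_right hHcard (by positivity)
    refine h3.trans (le_of_eq ?_)
    field_simp
  -- total through a vertex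
  have hthr : ∀ w, ∑ w', b G μ w w' * P G μ D w' v ≤ μ v := by
    intro w
    have h1 : ∀ w', b G μ w w' * P G μ D w' v ≤ b G μ v w' / D := by
      intro w'
      have h2 := b_le_right (G := G) hμ w w'
      have h3 := mul_le_mul_of_nonneg_right h2 (P_nonneg (G := G) hμ hD w' v)
      rw [mul_P hμ hD, b_comm w' v] at h3
      exact h3
    have h2 := Finset.sum_le_sum (fun w' (_ : w' ∈ (univ : Finset V)) => h1 w')
    refine h2.trans ?_
    rw [← Finset.sum_div, div_le_iff₀ hD, mul_comm]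
    exact hdeg v
  have hP0 : ∀ w, 0 ≤ P G μ D w v := fun w => P_nonneg hμ hD w v
  have hb0 : ∀ u w, 0 ≤ b G μ u w := fun u w => b_nonneg hμ u w
  -- splitting
  have hsplit : ∀ w w', b G μ w w' * (P G μ D w v * P G μ D w' v) ≤
      (if w ∈ H then P G μ D w v else 0) * (b G μ w w' * P G μ D w' v) +
      (if w' ∈ H then P G μ D w' v else 0) * (b G μ w' w * P G μ D w v) +
      (1 / D) ^ 2 * b G (res μ A) w w' := by
    intro w w'
    have hbr : 0 ≤ (1 / D) ^ 2 * b G (res μ A) w w' :=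
      mul_nonneg (by positivity) (b_nonneg (res_nonneg hμ A) w w')
    have e1 : 0 ≤ (if w ∈ H then P G μ D w v else 0) * (b G μ w w' * P G μ D w' v) := by
      apply mul_nonneg
      · split_ifs
        · exact hP0 w
        · exact le_refl _
      · exact mul_nonneg (hb0 _ _) (hP0 _)
    have e2 : 0 ≤ (if w' ∈ H then P G μ D w' v else 0) * (b G μ w' w * P G μ D w v) := by
      apply mul_nonneg
      · split_ifs
        · exact hP0 w'
        · exact le_refl _
      · exact mul_nonneg (hb0 _ _) (hP0 _)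
    by_cases hw : w ∈ H
    · rw [if_pos hw] at e1 ⊢
      have : b G μ w w' * (P G μ D w v * P G μ D w' v) =
        P G μ D w v * (b G μ w w' * P G μ D w' v) := by ring
      linarith
    · by_cases hw' : w' ∈ H
      · rw [if_pos hw'] at e2 ⊢
        have : b G μ w w' * (P G μ D w v * P G μ D w' v) =
          P G μ D w' v * (b G μ w' w * P G μ D w v) := by rw [b_comm w' w]; ring
        linarith
      · by_cases hA1 : w ∈ A
        · by_cases hA2 : w' ∈ A
          · have e3 : b G (res μ A) w w' = b G μ w w' := by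
              rw [b_res hμ, if_pos ⟨hA1, hA2⟩]
            rw [e3]
            have e4 : P G μ D w v * P G μ D w' v ≤ (1 / D) * (1 / D) :=
              mul_le_mul (P_le hμ hD w v) (P_le hμ hD w' v) (hP0 _) (by positivity)
            have e5 := mul_le_mul_of_nonneg_left e4 (hb0 w w')
            have e6 : b G μ w w' * (1 / D * (1 / D)) = (1 / D) ^ 2 * b G μ w w' := by ring
            linarith
          · rw [if_neg hw, if_neg hw', hPv w' hA2 hw']
            simp only [mul_zero, zero_mul, zero_add]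
            exact hbr
        · rw [if_neg hw, if_neg hw', hPv w hA1 hw]
          simp only [mul_zero, zero_mul, zero_add]
          exact hbr
  have htot : D * t G μ D 3 v ≤ (1 / K) * μ v + (1 / K) * μ v +
      (1 / D) ^ 2 * (γ' * D * ∑ w, res μ A w) := by
    rw [t_three_eq hμ hD]
    have h1 := Finset.sum_le_sum (fun w (_ : w ∈ (univ : Finset V)) =>
      Finset.sum_le_sum (fun w' (_ : w' ∈ (univ : Finset V)) => hsplit w w'))
    refine h1.trans ?_
    simp only [Finset.sum_add_distrib]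
    apply add_le_add
    · apply add_le_add
      · have h2 : ∑ w, ∑ w', (if w ∈ H then P G μ D w v else 0) * (b G μ w w' * P G μ D w' v) ≤
            ∑ w, (if w ∈ H then P G μ D w v else 0) * μ v := by
          apply Finset.sum_le_sum
          intro w _
          rw [← Finset.mul_sum]
          apply mul_le_mul_of_nonneg_left (hthr w)
          split_ifs
          · exact hP0 w
          · exact le_refl _
        refine h2.trans ?_
        rw [← Finset.sum_mul]
        apply mul_le_mul_of_nonneg_right _ hpos.le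
        rw [← Finset.sum_filter]
        simpa using hHsum
      · rw [Finset.sum_comm]
        have h2 : ∑ w, ∑ w', (if w ∈ H then P G μ D w v else 0) * (b G μ w w' * P G μ D w' v) ≤
            ∑ w, (if w ∈ H then P G μ D w v else 0) * μ v := by
          apply Finset.sum_le_sum
          intro w _
          rw [← Finset.mul_sum]
          apply mul_le_mul_of_nonneg_left (hthr w)
          split_ifs
          · exact hP0 w
          · exact le_refl _
        refine h2.trans ?_
        rw [← Finset.sum_mul]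
        apply mul_le_mul_of_nonneg_right _ hpos.le
        rw [← Finset.sum_filter]
        simpa using hHsum
    · simp only [← Finset.mul_sum]
      exact mul_le_mul_of_nonneg_left hind (by positivity)
  -- the weight of the light neighbours
  have hAsum : ∑ w, res μ A w ≤ K * (D * μ v) := by
    have h1 : ∀ w, res μ A w ≤ K * b G μ v w := by
      intro w
      unfold res
      by_cases hw : w ∈ A
      · rw [if_pos hw]
        rw [hA, Finset.mem_filter] at hw
        unfold b
        rw [if_pos hw.2.1]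
        rcases min_cases (μ v) (μ w) with ⟨h2, _⟩ | ⟨h2, _⟩
        · rw [h2]; exact hw.2.2
        · rw [h2]
          have := hμ w
          nlinarith
      · rw [if_neg hw]
        exact mul_nonneg hK0.le (hb0 v w)
    have h2 := Finset.sum_le_sum (fun w (_ : w ∈ (univ : Finset V)) => h1 w)
    rw [← Finset.mul_sum] at h2
    exact h2.trans (mul_le_mul_of_nonneg_left (hdeg v) hK0.le)
  have h1 : (1 / D) ^ 2 * (γ' * D * ∑ w, res μ A w) ≤ (1 / D) ^ 2 * (γ' * D * (K * (D * μ v))) :=
    mul_le_mul_of_nonneg_left (mul_le_mul_of_nonneg_left hAsum (by positivity)) (by positivity)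
  have h2 : (1 / D) ^ 2 * (γ' * D * (K * (D * μ v))) = γ' * K * μ v := by
    field_simp
  rw [h2] at h1
  have h3 : D * t G μ D 3 v ≤ (2 / K + γ' * K) * μ v := by
    refine htot.trans ?_
    have : (2 / K + γ' * K) * μ v = (1 / K) * μ v + (1 / K) * μ v + γ' * K * μ v := by ring
    linarith
  rw [← mul_div_assoc, le_div_iff₀ hD, mul_comm]
  exact h3

end Pool.Agent.J4.H79.GW
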