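import Pool.Agent.J4.H79.GW.Degen

set_option autoImplicit false
set_option linter.unusedSectionVars false

/-!
# The largest and the smallest eigenvalue
-/

namespace Pool.Agent.J4.H79.GW

open Finset Pool.Agent.R50.MC Pool.Agent.Y394.AT

section perron

variable {V : Type} [Fintype V] {G : SimpleGraph V}

theorem q_smul (t : ℝ) (f : V → ℝ) : q G (fun v => t * f v) = t ^ 2 * q G f := by
  unfold q
  rw [bb_smul_left, bb_comm, bb_smul_left]
  ring

theorem N2_smul (t : ℝ) (f : V → ℝ) : N2 (fun v => t * f v) = t ^ 2 * N2 f := by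
  unfold N2
  rw [Finset.mul_sum]
  exact Finset.sum_congr rfl fun v _ => by ring

theorem N2_eq_zero {f : V → ℝ} (h : N2 f = 0) (v : V) : f v = 0 := by
  unfold N2 at h
  have h1 := (Finset.sum_eq_zero_iff_of_nonneg (fun v _ => sq_nonneg (f v))).1 h v
    (Finset.mem_univ v)
  exact pow_eq_zero_iff (two_ne_zero) |>.1 h1

theorem q_abs (f : V → ℝ) : q G f ≤ q G (fun v => |f v|) := by
  classical
  unfold q bb
  apply Finset.sum_le_sum
  intro v _
  apply Finset.sum_le_sum
  intro w _
  split_ifs
  · rw [← abs_mul]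
    exact le_abs_self _
  · exact le_refl _

theorem continuous_q : Continuous fun f : V → ℝ => q G f := by
  classical
  unfold q bb
  apply continuous_finsetSum
  intro v _
  apply continuous_finsetSum
  intro w _
  split_ifs
  · exact (continuous_apply v).mul (continuous_apply w)
  · exact continuous_const

/-- the largest eigenvalue with a nonnegative eigenvector -/
theorem exists_perron (v0 : V) : ∃ (L : ℝ) (x : V → ℝ), (∀ v, 0 ≤ x v) ∧ N2 x = 1 ∧
    (∀ f : V → ℝ, q G f ≤ L * N2 f) ∧ ∀ v, ∑ w ∈ nb G v, x w = L * x v := by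
  classical
  obtain ⟨K, hK⟩ : ∃ K : Set (V → ℝ), K = {f | N2 f = 1} := ⟨_, rfl⟩
  have hcN : Continuous fun f : V → ℝ => N2 f := by
    unfold N2
    exact continuous_finsetSum _ fun v _ => (continuous_apply v).pow 2
  have hclosed : IsClosed K := by
    rw [hK]
    exact isClosed_eq hcN continuous_const
  have hbdd : Bornology.IsBounded K := by
    refine (Metric.isBounded_closedBall (x := (0 : V → ℝ)) (r := 1)).subset ?_
    intro f hf
    rw [hK] at hf
    rw [mem_closedBall_zero_iff, pi_norm_le_iff_of_nonneg zero_le_one]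
    intro v
    rw [Real.norm_eq_abs, abs_le_one_iff_mul_self_le_one]
    have h1 : f v ^ 2 ≤ N2 f := Finset.single_le_sum (f := fun v => f v ^ 2)
      (fun v _ => sq_nonneg (f v)) (Finset.mem_univ v)
    have h2 : N2 f = 1 := hf
    rw [h2] at h1
    nlinarith
  have hcomp : IsCompact K := Metric.isCompact_of_isClosed_isBounded hclosed hbdd
  have hne : K.Nonempty := by
    refine ⟨fun v => if v = v0 then 1 else 0, ?_⟩
    rw [hK]
    show N2 (fun v => if v = v0 then (1 : ℝ) else 0) = 1
    unfold N2
    simp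
  obtain ⟨y, hyK, hy⟩ := hcomp.exists_isMaxOn hne (continuous_q (G := G)).continuousOn
  have hyN : N2 y = 1 := by rw [hK] at hyK; exact hyK
  obtain ⟨L, hL⟩ : ∃ L : ℝ, L = q G y := ⟨_, rfl⟩
  have hmax : ∀ f : V → ℝ, q G f ≤ L * N2 f := by
    intro f
    rcases eq_or_lt_of_le (N2_nonneg f) with h0 | hpos
    · have h1 : ∀ v, f v = 0 := N2_eq_zero h0.symm
      rw [← h0, mul_zero]
      unfold q bb
      apply le_of_eq
      apply Finset.sum_eq_zero
      intro v _
      apply Finset.sum_eq_zero
      intro w _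
      rw [h1 v]
      simp
    · obtain ⟨s, hs⟩ : ∃ s : ℝ, s = (Real.sqrt (N2 f))⁻¹ := ⟨_, rfl⟩
      have hs2 : s ^ 2 = (N2 f)⁻¹ := by rw [hs, inv_pow, Real.sq_sqrt hpos.le]
      have h1 : (fun v => s * f v) ∈ K := by
        rw [hK]
        show N2 (fun v => s * f v) = 1
        rw [N2_smul, hs2]
        exact inv_mul_cancel₀ hpos.ne'
      have h2 : q G (fun v => s * f v) ≤ q G y := hy h1
      rw [q_smul, hs2, ← hL, inv_mul_le_iff₀ hpos] at h2
      linarith
  obtain ⟨x, hx⟩ : ∃ x : V → ℝ, x = fun v => |y v| := ⟨_, rfl⟩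
  have hx0 : ∀ v, 0 ≤ x v := by intro v; rw [hx]; exact abs_nonneg _
  have hxN : N2 x = 1 := by
    rw [← hyN, hx]
    unfold N2
    exact Finset.sum_congr rfl fun v _ => sq_abs (y v)
  have hqx : q G x = L := by
    apply le_antisymm
    · have := hmax x
      rw [hxN, mul_one] at this
      exact this
    · rw [hL, hx]
      exact q_abs y
  refine ⟨L, x, hx0, hxN, hmax, ?_⟩
  intro v
  obtain ⟨g, hg⟩ : ∃ g : V → ℝ, g = fun w => if w = v then 1 else 0 := ⟨_, rfl⟩
  have hNg : N2 g = 1 := by rw [hg]; unfold N2; simp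
  obtain ⟨s, hs⟩ : ∃ s : ℝ, s = bb G x g - L * ∑ w, x w * g w := ⟨_, rfl⟩
  obtain ⟨M, hM⟩ : ∃ M : ℝ, M = L * N2 g - q G g := ⟨_, rfl⟩
  have hM0 : 0 ≤ M := by
    have := hmax g
    linarith
  have hquad : ∀ t : ℝ, 2 * t * s ≤ t ^ 2 * M := by
    intro t
    have := hmax (fun w => x w + t * g w)
    rw [q_add, N2_add, hqx, hxN] at this
    rw [hs, hM]
    nlinarith
  have hs0 : s = 0 := by
    have h1 := hquad (s / (M + 1))
    have hM1 : 0 < M + 1 := by linarith
    have h2 : 2 * (s / (M + 1)) * s = 2 * s ^ 2 / (M + 1) := by ring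
    have h3 : (s / (M + 1)) ^ 2 * M = s ^ 2 * M / (M + 1) ^ 2 := by
      rw [div_pow, div_mul_eq_mul_div]
    rw [h2, h3, div_le_div_iff₀ hM1 (by positivity)] at h1
    have h4 : s ^ 2 * (M + 1) * (M + 2) ≤ 0 := by nlinarith
    have h5 : 0 < (M + 1) * (M + 2) := by positivity
    have h6 : s ^ 2 ≤ 0 := by
      by_contra hcon
      push Not at hcon
      have := mul_pos hcon h5
      nlinarith
    exact pow_eq_zero_iff (two_ne_zero) |>.1 (le_antisymm h6 (sq_nonneg s))
  rw [hs0] at hs
  have h1 : bb G x g = ∑ w ∈ nb G v, x w := by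
    rw [bb_comm, bb_eq, hg]
    simp
  have h2 : ∑ w, x w * g w = x v := by rw [hg]; simp
  rw [h1, h2] at hs
  linarith

end perron

/-- **The largest eigenvalue.** -/
theorem top (m : ℕ) (T : SimpleGraph (Fin (m + 1))) (hT : T.IsTree) (k : ℕ) :
    ∃ (C : ℝ) (Q : ℕ), 1 ≤ C ∧ ∀ (V : Type) [Fintype V] (G : SimpleGraph V), G.CliqueFree k →
      IsEmpty (T ↪g G) → ∀ lam : ℝ, (∀ f : V → ℝ, -lam * N2 f ≤ q G f) →
      ∀ n : ℕ, 1 ≤ n → (∀ v, ((nb G v).card : ℝ) ≤ 2 ^ (n - 1)) →
      ∀ f : V → ℝ, q G f ≤ C * (n : ℝ) ^ Q * lam * N2 f := by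
  classical
  obtain ⟨c, qq, hc0, hc1, hst⟩ := struct m T hT k
  refine ⟨4 ^ qq / c + 2, qq + 1, by
    have : 0 < (4 : ℝ) ^ qq / c := by positivity
    linarith, ?_⟩
  intro V _ G hfree hemp lam hq n hn hΔ f
  rcases isEmpty_or_nonempty V with hV | ⟨⟨v0⟩⟩
  · have h1 : q G f = 0 := by unfold q bb; simp
    have h2 : N2 f = 0 := by unfold N2; simp
    rw [h1, h2, mul_zero]
  have hlam := lam_nonneg hq v0
  obtain ⟨L, x, hx0, hxN, hmax, heig⟩ := exists_perron (G := G) v0
  have hn0 : (0 : ℝ) < n := by exact_mod_cast hn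
  have hn1 : (1 : ℝ) ≤ n := by exact_mod_cast hn
  have hRHS : 0 ≤ (4 ^ qq / c + 2) * (n : ℝ) ^ (qq + 1) * lam := by positivity
  have hmain : L ≤ (4 ^ qq / c + 2) * (n : ℝ) ^ (qq + 1) * lam := by
    rcases le_or_gt L 0 with hL0 | hL0
    · exact hL0.trans hRHS
    have hLΔ : L ≤ 2 ^ (n - 1) := by
      have h1 := q_le hΔ x
      have h2 : q G x = L := by
        unfold q
        rw [bb_eq]
        have : ∀ v, x v * ∑ w ∈ nb G v, x w = L * x v ^ 2 := by
          intro v
          rw [heig v]
          ring
        rw [Finset.sum_congr rfl (fun v _ => this v), ← Finset.mul_sum]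
        have h3 : ∑ v, x v ^ 2 = 1 := hxN
        rw [h3, mul_one]
      rw [h2, hxN, mul_one] at h1
      exact h1
    have hle : ∀ u v, G.Adj u v → x u ≤ L * x v := by
      intro u v huv
      rw [← heig v]
      exact Finset.single_le_sum (f := x) (fun w _ => hx0 w) ((mem_nb G v u).2 huv.symm)
    -- the classes
    obtain ⟨cls, hcls⟩ : ∃ cls : V → ℕ, cls = fun v => (Int.log 2 (x v) % (n : ℤ)).toNat :=
      ⟨_, rfl⟩
    have hclsn : ∀ v, cls v ∈ Finset.range n := by
      intro v
      rw [hcls, Finset.mem_range]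
      have h1 : Int.log 2 (x v) % (n : ℤ) < n := Int.emod_lt_of_pos _ (by exact_mod_cast hn)
      have h2 : 0 ≤ Int.log 2 (x v) % (n : ℤ) := Int.emod_nonneg _ (by omega)
      dsimp only
      omega
    have hsame : ∀ u v, G.Adj u v → cls u = cls v → x u * x v ≤ 2 * b G (fun v => x v ^ 2) u v := by
      intro u v huv hc
      have hb0 := b_nonneg (G := G) (μ := fun v => x v ^ 2) (fun v => sq_nonneg _) u v
      rcases eq_or_lt_of_le (hx0 u) with hu0 | hu0
      · rw [← hu0, zero_mul]
        linarith
      rcases eq_or_lt_of_le (hx0 v) with hv0 | hv0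
      · rw [← hv0, mul_zero]
        linarith
      have hmod : Int.log 2 (x u) % (n : ℤ) = Int.log 2 (x v) % (n : ℤ) := by
        have h2 : 0 ≤ Int.log 2 (x v) % (n : ℤ) := Int.emod_nonneg _ (by omega)
        have h3 : 0 ≤ Int.log 2 (x u) % (n : ℤ) := Int.emod_nonneg _ (by omega)
        have h4 : (Int.log 2 (x u) % (n : ℤ)).toNat = (Int.log 2 (x v) % (n : ℤ)).toNat := by
          rw [hcls] at hc
          exact hc
        omega
      have hkey : ∀ a a' : V, G.Adj a a' → 0 < x a → 0 < x a' →
          Int.log 2 (x a) < Int.log 2 (x a') + n := by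
        intro a a' haa ha ha'
        have h1 : (2 : ℝ) ^ Int.log 2 (x a) ≤ x a := by
          have := Int.zpow_log_le_self (b := 2) (by norm_num) ha
          simpa using this
        have h2 : x a' < (2 : ℝ) ^ (Int.log 2 (x a') + 1) := by
          have := Int.lt_zpow_succ_log_self (b := 2) (by norm_num) (x a')
          simpa using this
        have h3 := hle a a' haa
        have h4 : L * x a' < 2 ^ (n - 1) * (2 : ℝ) ^ (Int.log 2 (x a') + 1) := by
          calc L * x a' ≤ 2 ^ (n - 1) * x a' := mul_le_mul_of_nonneg_right hLΔ ha'.le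
            _ < _ := mul_lt_mul_of_pos_left h2 (by positivity)
        have h5 : (2 : ℝ) ^ (n - 1) * (2 : ℝ) ^ (Int.log 2 (x a') + 1) =
            (2 : ℝ) ^ (Int.log 2 (x a') + n) := by
          rw [← zpow_natCast, ← zpow_add₀ (by norm_num : (2 : ℝ) ≠ 0)]
          congr 1
          have : ((n - 1 : ℕ) : ℤ) = n - 1 := by omega
          rw [this]
          ring
        rw [h5] at h4
        exact (zpow_lt_zpow_iff_right₀ (by norm_num : (1 : ℝ) < 2)).1 (h1.trans_lt (h3.trans_lt h4))
      have heq : Int.log 2 (x u) = Int.log 2 (x v) := by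
        have h1 := hkey u v huv hu0 hv0
        have h2 := hkey v u huv.symm hv0 hu0
        have h3 : (n : ℤ) ∣ Int.log 2 (x u) - Int.log 2 (x v) := Int.ModEq.dvd hmod.symm
        obtain ⟨z, hz⟩ := h3
        have h4 : z < 1 := by
          by_contra hcon
          push Not at hcon
          have : (n : ℤ) ≤ n * z := by nlinarith
          omega
        have h5 : -1 < z := by
          by_contra hcon
          push Not at hcon
          have : (n : ℤ) * z ≤ -n := by nlinarith
          omega
        have h6 : z = 0 := by omega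
        rw [h6, mul_zero] at hz
        omega
      have h2 : ∀ a a' : V, 0 < x a → Int.log 2 (x a) = Int.log 2 (x a') → x a' ≤ 2 * x a := by
        intro a a' ha haa
        have h1 : (2 : ℝ) ^ Int.log 2 (x a) ≤ x a := by
          have := Int.zpow_log_le_self (b := 2) (by norm_num) ha
          simpa using this
        have h2 : x a' < (2 : ℝ) ^ (Int.log 2 (x a') + 1) := by
          have := Int.lt_zpow_succ_log_self (b := 2) (by norm_num) (x a')
          simpa using this
        rw [← haa, zpow_add₀ (by norm_num : (2 : ℝ) ≠ 0), zpow_one] at h2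
        linarith
      unfold b
      rw [if_pos huv]
      rcases min_cases (x u ^ 2) (x v ^ 2) with ⟨h3, _⟩ | ⟨h3, _⟩
      · rw [h3]
        have := h2 u v hu0 heq
        nlinarith
      · rw [h3]
        have := h2 v u hv0 heq.symm
        nlinarith
    -- Hoffman's inequality
    obtain ⟨W0, hW0⟩ : ∃ W0 : ℝ, W0 = ∑ u, ∑ v, if G.Adj u v then
      (if cls u = cls v then x u * x v else 0) else 0 := ⟨_, rfl⟩
    have hone : ∀ v, ∑ j ∈ Finset.range n, (if cls v = j then (1 : ℝ) else 0) = 1 := by
      intro v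
      rw [Finset.sum_ite_eq, if_pos (hclsn v)]
    have htwo : ∀ u v, ∑ j ∈ Finset.range n, (if cls u = j then (1 : ℝ) else 0) *
        (if cls v = j then 1 else 0) = if cls u = cls v then 1 else 0 := by
      intro u v
      have h1 : ∀ j, (if cls u = j then (1 : ℝ) else 0) * (if cls v = j then 1 else 0) =
          if cls u = j then (if cls u = cls v then 1 else 0) else 0 := by
        intro j
        by_cases hu : cls u = j
        · rw [if_pos hu, if_pos hu, one_mul, hu]
          by_cases hv : cls v = j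
          · rw [if_pos hv, if_pos hv.symm]
          · rw [if_neg hv, if_neg (fun h => hv h.symm)]
        · rw [if_neg hu, if_neg hu, zero_mul]
      rw [Finset.sum_congr rfl (fun j _ => h1 j), Finset.sum_ite_eq, if_pos (hclsn u)]
    have hprod : ∀ u v, ∑ j ∈ Finset.range n, (1 - n * (if cls u = j then (1 : ℝ) else 0)) *
        (1 - n * (if cls v = j then (1 : ℝ) else 0)) =
        (n : ℝ) ^ 2 * (if cls u = cls v then 1 else 0) - n := by
      intro u v
      have h1 : ∀ j, (1 - n * (if cls u = j then (1 : ℝ) else 0)) *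
          (1 - n * (if cls v = j then (1 : ℝ) else 0)) =
          1 - n * (if cls u = j then (1 : ℝ) else 0) - n * (if cls v = j then (1 : ℝ) else 0) +
          (n : ℝ) ^ 2 * ((if cls u = j then (1 : ℝ) else 0) * (if cls v = j then 1 else 0)) := by
        intro j
        ring
      rw [Finset.sum_congr rfl (fun j _ => h1 j), Finset.sum_add_distrib, Finset.sum_sub_distrib,
        Finset.sum_sub_distrib, ← Finset.mul_sum, ← Finset.mul_sum, ← Finset.mul_sum, hone, hone,
        htwo, Finset.sum_const, Finset.card_range, nsmul_eq_mul]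
      ring
    have hfj : ∑ j ∈ Finset.range n, q G (fun v => x v * (1 - n * (if cls v = j then 1 else 0))) =
        (n : ℝ) ^ 2 * W0 - n * L := by
      have hqx : ∑ u, ∑ v, (if G.Adj u v then x u * x v else 0) = L := by
        have h2 : q G x = L := by
          unfold q
          rw [bb_eq]
          have : ∀ v, x v * ∑ w ∈ nb G v, x w = L * x v ^ 2 := by
            intro v
            rw [heig v]
            ring
          rw [Finset.sum_congr rfl (fun v _ => this v), ← Finset.mul_sum]
          have h3 : ∑ v, x v ^ 2 = 1 := hxN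
          rw [h3, mul_one]
        exact h2
      unfold q bb
      rw [Finset.sum_comm]
      have h1 : ∀ u, ∑ j ∈ Finset.range n, ∑ v, (if G.Adj u v then
          x u * (1 - n * (if cls u = j then (1 : ℝ) else 0)) *
          (x v * (1 - n * (if cls v = j then (1 : ℝ) else 0))) else 0) =
          ∑ v, ((n : ℝ) ^ 2 * (if G.Adj u v then (if cls u = cls v then x u * x v else 0) else 0) -
            n * (if G.Adj u v then x u * x v else 0)) := by
        intro u
        rw [Finset.sum_comm]
        apply Finset.sum_congr rfl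
        intro v _
        by_cases huv : G.Adj u v
        · simp only [if_pos huv]
          have h2 : ∀ j, x u * (1 - n * (if cls u = j then (1 : ℝ) else 0)) *
              (x v * (1 - n * (if cls v = j then (1 : ℝ) else 0))) = x u * x v *
              ((1 - n * (if cls u = j then (1 : ℝ) else 0)) *
              (1 - n * (if cls v = j then (1 : ℝ) else 0))) := by
            intro j
            ring
          rw [Finset.sum_congr rfl (fun j _ => h2 j), ← Finset.mul_sum, hprod]
          split_ifs
          · ring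
          · ring
        · simp only [if_neg huv]
          simp
      rw [Finset.sum_congr rfl (fun u _ => h1 u)]
      simp only [Finset.sum_sub_distrib, ← Finset.mul_sum]
      rw [hqx, ← hW0]
    have hNj : ∑ j ∈ Finset.range n, N2 (fun v => x v * (1 - n * (if cls v = j then 1 else 0))) =
        (n : ℝ) ^ 2 - n := by
      unfold N2
      rw [Finset.sum_comm]
      have h1 : ∀ v, ∑ j ∈ Finset.range n, (x v * (1 - n * (if cls v = j then (1 : ℝ) else 0))) ^ 2 =
          x v ^ 2 * ((n : ℝ) ^ 2 - n) := by
        intro v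
        have h2 : ∀ j, (x v * (1 - n * (if cls v = j then (1 : ℝ) else 0))) ^ 2 =
            x v ^ 2 * ((1 - n * (if cls v = j then (1 : ℝ) else 0)) *
              (1 - n * (if cls v = j then (1 : ℝ) else 0))) := by
          intro j
          ring
        rw [Finset.sum_congr rfl (fun j _ => h2 j), ← Finset.mul_sum, hprod, if_pos rfl]
        ring
      rw [Finset.sum_congr rfl (fun v _ => h1 v), ← Finset.sum_mul]
      have h3 : ∑ v, x v ^ 2 = 1 := hxN
      rw [h3, one_mul]
    have hhoff : L ≤ (n - 1) * lam + n * W0 := by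
      have h1 := Finset.sum_le_sum (fun j (_ : j ∈ Finset.range n) =>
        hq (fun v => x v * (1 - n * (if cls v = j then 1 else 0))))
      rw [← Finset.mul_sum, hNj, hfj] at h1
      have h2 : (n : ℝ) * L ≤ n * ((n - 1) * lam + n * W0) := by nlinarith
      exact le_of_mul_le_mul_left h2 hn0
    obtain ⟨μ, hμd⟩ : ∃ μ : V → ℝ, μ = fun v => x v ^ 2 := ⟨_, rfl⟩
    have hμ0 : ∀ v, 0 ≤ μ v := by intro v; rw [hμd]; exact sq_nonneg _
    have hW0b : W0 ≤ 2 * ∑ u, ∑ v, b G μ u v := by
      rw [hW0, Finset.mul_sum]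
      apply Finset.sum_le_sum
      intro u _
      rw [Finset.mul_sum]
      apply Finset.sum_le_sum
      intro v _
      have hb0 := b_nonneg (G := G) hμ0 u v
      by_cases huv : G.Adj u v
      · rw [if_pos huv]
        by_cases hc : cls u = cls v
        · rw [if_pos hc, hμd]
          exact hsame u v huv hc
        · rw [if_neg hc]
          linarith
      · rw [if_neg huv]
        linarith
    have hdeg : ∀ v, ∑ u, b G μ v u ≤ L * μ v := by
      intro v
      have h1 : ∀ u, b G μ v u ≤ if u ∈ nb G v then x v * x u else 0 := by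
        intro u
        unfold b
        by_cases huv : G.Adj v u
        · rw [if_pos huv, if_pos ((mem_nb G v u).2 huv), hμd]
          simp only
          have := hx0 v
          have := hx0 u
          rcases le_total (x v) (x u) with h | h
          · refine (min_le_left _ _).trans ?_
            nlinarith
          · refine (min_le_right _ _).trans ?_
            nlinarith
        · rw [if_neg huv, if_neg (fun h => huv ((mem_nb G v u).1 h))]
      refine (Finset.sum_le_sum (fun u _ => h1 u)).trans ?_
      rw [← Finset.sum_filter, Finset.filter_mem_eq_inter, Finset.univ_inter, ← Finset.mul_sum,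
        heig v, hμd]
      apply le_of_eq
      ring
    obtain ⟨γ, hγ⟩ : ∃ γ : ℝ, γ = 1 / (4 * n) := ⟨_, rfl⟩
    have hγ0 : 0 < γ := by rw [hγ]; positivity
    have hγ1 : γ ≤ 1 := by
      rw [hγ, div_le_one (by positivity)]
      linarith
    have hnpow : (n : ℝ) ≤ (n : ℝ) ^ (qq + 1) := by
      calc (n : ℝ) = (n : ℝ) ^ 1 := (pow_one _).symm
        _ ≤ (n : ℝ) ^ (qq + 1) := pow_le_pow_right₀ hn1 (by omega)
    rcases le_or_gt lam (c * γ ^ qq * L) with hcase | hcase
    · have hfin := hst γ hγ0 hγ1 V G μ L hμ0 hL0 hdeg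
        (SimpleGraph.CliqueFree.cliqueFreeOn G hfree) hemp (by
          intro f
          refine le_trans ?_ (layer' hq μ hμ0 f)
          have := N_nonneg hμ0 f
          nlinarith)
      have hμs : ∑ v, μ v = 1 := by rw [hμd]; exact hxN
      rw [hμs, mul_one] at hfin
      have h1 : n * W0 ≤ L / 2 := by
        have h2 : n * W0 ≤ n * (2 * (γ * L)) :=
          mul_le_mul_of_nonneg_left (hW0b.trans (by linarith)) hn0.le
        have h3 : (n : ℝ) * (2 * (γ * L)) = L / 2 := by
          rw [hγ]
          field_simp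
          norm_num
        linarith
      have h2 : L ≤ 2 * n * lam := by nlinarith
      have h3 : 2 * n * lam ≤ (4 ^ qq / c + 2) * (n : ℝ) ^ (qq + 1) * lam := by
        apply mul_le_mul_of_nonneg_right _ hlam
        have h4 : 0 ≤ (4 : ℝ) ^ qq / c * (n : ℝ) ^ (qq + 1) := by positivity
        nlinarith
      linarith
    · have h1 : L ≤ lam * (4 * n) ^ qq / c := by
        rw [hγ, div_pow, one_pow] at hcase
        rw [le_div_iff₀ hc0]
        have h2 : c * (1 / (4 * (n : ℝ)) ^ qq) * L * (4 * n) ^ qq = L * c := by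
          field_simp
        rw [← h2]
        exact (mul_lt_mul_of_pos_right hcase (by positivity)).le
      refine h1.trans ?_
      have h3 : lam * (4 * (n : ℝ)) ^ qq / c = (4 ^ qq / c) * (n : ℝ) ^ qq * lam := by
        rw [mul_pow]
        ring
      rw [h3]
      apply mul_le_mul_of_nonneg_right _ hlam
      have h4 : (n : ℝ) ^ qq ≤ (n : ℝ) ^ (qq + 1) := pow_le_pow_right₀ hn1 (by omega)
      have h5 := mul_le_mul_of_nonneg_left h4 (show 0 ≤ (4 : ℝ) ^ qq / c by positivity)
      have h6 : 0 ≤ 2 * (n : ℝ) ^ (qq + 1) := by positivity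
      linarith
  refine (hmax f).trans ?_
  exact mul_le_mul_of_nonneg_right hmain (N2_nonneg f)

end Pool.Agent.J4.H79.GW
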